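import Pool.Agent.Helper87.MQ.Ratio
import Pool.Agent.Helper26.MQ.Poly

/-!
# Density for polynomial maps with rational coefficients of bounded height
-/

set_option autoImplicit false

namespace Pool.Agent.Helper87.MQ

open MvPolynomial
open Pool.Agent.Helper86.MQ (Idx Pre Red)
open Pool.Agent.Helper26.MQ (arrPoly coeff_arrPoly coeff_arrPoly_of_gt arrPoly_coeff)

/-- The self-maps of affine `(m + 1)`-space over `ℚ` of degree at most `d` all of whose coefficients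
have height at most `B`. -/
def hbox (m d B : ℕ) : Set (Fin (m + 1) → MvPolynomial (Fin (m + 1)) ℚ) :=
  {Φ | ∀ i, (Φ i).totalDegree ≤ d ∧
    ∀ s, |(coeff s (Φ i)).num| ≤ (B : ℤ) ∧ (coeff s (Φ i)).den ≤ B}

/-- Base change to the `q`-adic numbers. -/
noncomputable def toQp (q : ℕ) [Fact q.Prime] {m : ℕ}
    (Φ : Fin (m + 1) → MvPolynomial (Fin (m + 1)) ℚ) :
    Fin (m + 1) → MvPolynomial (Fin (m + 1)) ℚ_[q] :=
  fun i => MvPolynomial.map (algebraMap ℚ ℚ_[q]) (Φ i)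

theorem totalDegree_le_of_coeff {R : Type*} [CommSemiring R] {σ : Type*} (f : MvPolynomial σ R)
    (d : ℕ) (h : ∀ s : σ →₀ ℕ, ¬ s.degree ≤ d → coeff s f = 0) : f.totalDegree ≤ d := by
  refine Finset.sup_le fun s hs => ?_
  by_contra h1
  exact (mem_support_iff.1 hs) (h s h1)

theorem coeff_eq_zero_of_gt {R : Type*} [CommSemiring R] {σ : Type*} (f : MvPolynomial σ R)
    (d : ℕ) (h : f.totalDegree ≤ d) (s : σ →₀ ℕ) (hs : ¬ s.degree ≤ d) : coeff s f = 0 := by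
  apply coeff_eq_zero_of_totalDegree_lt
  have h1 : s.degree = ∑ i ∈ s.support, s i := rfl
  omega

theorem arrPoly_injective {R : Type*} [CommRing R] (m d : ℕ) :
    Function.Injective (fun (c : Idx m d → R) => arrPoly c) := by
  intro c c' h
  funext k
  have h1 := congrArg (coeff (k.2 : Fin (m + 1) →₀ ℕ)) (congrFun h k.1)
  dsimp only at h1
  rwa [coeff_arrPoly, coeff_arrPoly] at h1

theorem hbox_eq (m d B : ℕ) (hB : 1 ≤ B) :
    hbox m d B = (fun (c : Idx m d → ℚ) => arrPoly c) '' ratArr (Idx m d) B := by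
  ext Φ
  constructor
  · intro h
    refine ⟨fun k => coeff (k.2 : Fin (m + 1) →₀ ℕ) (Φ k.1), fun k => (h k.1).2 _, ?_⟩
    exact arrPoly_coeff Φ fun i e he => coeff_eq_zero_of_gt _ d (h i).1 e he
  · rintro ⟨c, hc, rfl⟩ i
    refine ⟨totalDegree_le_of_coeff _ d fun s hs => coeff_arrPoly_of_gt c i hs, fun s => ?_⟩
    by_cases hs : s.degree ≤ d
    · have h1 := coeff_arrPoly c i ⟨s, hs⟩
      dsimp only at h1 ⊢
      rw [h1]
      exact hc _
    · dsimp only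
      rw [coeff_arrPoly_of_gt c i hs]
      simpa using hB

theorem norm_pole (q : ℕ) [hq : Fact q.Prime] (x : ℚ) (h1 : ¬ (q : ℤ) ∣ x.num) (h2 : q ∣ x.den)
    (h3 : ¬ q ^ 2 ∣ x.den) : ‖(x : ℚ_[q])‖ = (q : ℝ) := by
  obtain ⟨u, hu⟩ := h2
  have hqu : ¬ q ∣ u := by
    rintro ⟨w, rfl⟩
    exact h3 ⟨w, by rw [hu]; ring⟩
  have hn : ‖((x.num : ℤ) : ℚ_[q])‖ = 1 := by
    rw [Padic.norm_intCast_eq_one_iff]
    exact (Int.isCoprime_iff_gcd_eq_one.2 (by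
      have := (Nat.Prime.coprime_iff_not_dvd hq.out).2
        (fun h => h1 (Int.natCast_dvd.2 h))
      rw [Int.gcd_comm]
      exact this))
  have hun : ‖((u : ℕ) : ℚ_[q])‖ = 1 := by
    rw [Padic.norm_natCast_eq_one_iff]
    exact (Nat.Prime.coprime_iff_not_dvd hq.out).2 hqu
  have hx : (x : ℚ_[q]) = ((x.num : ℤ) : ℚ_[q]) / ((x.den : ℕ) : ℚ_[q]) := by
    conv_lhs => rw [← Rat.num_div_den x]
    push_cast
    rfl
  rw [hx, norm_div, hn, hu]
  push_cast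
  rw [norm_mul, hun, Padic.norm_p, mul_one, one_div, inv_inv]

theorem red_lift (q : ℕ) [hq : Fact q.Prime] (x : ℚ) (h1 : ¬ q ∣ x.den) (c : ZMod q)
    (hc : c * (x.den : ZMod q) = (x.num : ZMod q)) :
    ∃ z : ℤ_[q], (z : ℚ_[q]) = (x : ℚ_[q]) ∧ PadicInt.toZMod z = c := by
  have hx1 : ‖(x : ℚ_[q])‖ ≤ 1 := Padic.norm_rat_le_one h1
  refine ⟨⟨(x : ℚ_[q]), hx1⟩, rfl, ?_⟩
  set z : ℤ_[q] := ⟨(x : ℚ_[q]), hx1⟩ with hz
  have h2 : z * ((x.den : ℕ) : ℤ_[q]) = ((x.num : ℤ) : ℤ_[q]) := by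
    apply Subtype.ext
    push_cast
    rw [hz]
    dsimp only
    have h3 : x * (x.den : ℚ) = x.num := Rat.mul_den_eq_num x
    exact_mod_cast congrArg (fun t : ℚ => (t : ℚ_[q])) h3
  have h3 := congrArg (PadicInt.toZMod (p := q)) h2
  rw [map_mul, map_natCast, map_intCast, ← hc] at h3
  have h4 : ((x.den : ℕ) : ZMod q) ≠ 0 := by
    rw [Ne, ZMod.natCast_eq_zero_iff]
    exact h1
  exact mul_right_cancel₀ h4 h3

theorem pre_of_ratGood (m d q : ℕ) [hq : Fact q.Prime] (j₀ : Idx m d)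
    (hj₀ : j₀.1 = 0 ∧ j₀.2.1 = Finsupp.single 0 d)
    (BB : Finset (Idx m d → ZMod q)) (v : Idx m d → ℚ) (h : RatGood q j₀ BB v) :
    ∃ c, c ∉ BB ∧ Pre q m d (toQp q (arrPoly v)) ∧ Red (toQp q (arrPoly v)) c := by
  obtain ⟨h1, h2, h3, h4, c, hc, h5⟩ := h
  have hcoef : ∀ k : Idx m d, coeff (k.2 : Fin (m + 1) →₀ ℕ) (toQp q (arrPoly v) k.1) =
      ((v k : ℚ) : ℚ_[q]) := by
    intro k
    rw [toQp, coeff_map, coeff_arrPoly]
    exact eq_ratCast (algebraMap ℚ ℚ_[q]) (v k)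
  have hne : ∀ k : Idx m d, ¬ (k.1 = 0 ∧ k.2.1 = Finsupp.single 0 d) → k ≠ j₀ := by
    intro k hk h
    rw [h] at hk
    exact hk hj₀
  refine ⟨c, hc, ⟨?_, ?_, ?_⟩, ?_⟩
  · intro i
    apply totalDegree_le_of_coeff
    intro s hs
    rw [toQp, coeff_map, coeff_arrPoly_of_gt v i hs, map_zero]
  · have := hcoef j₀
    rw [hj₀.1, hj₀.2] at this
    rw [this]
    exact norm_pole q _ h1 h2 h3
  · intro i s hs
    by_cases hsd : s.degree ≤ d
    · have := hcoef (i, ⟨s, hsd⟩)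
      dsimp only at this
      rw [this]
      exact Padic.norm_rat_le_one (h4 _ (hne (i, ⟨s, hsd⟩) hs))
    · rw [toQp, coeff_map, coeff_arrPoly_of_gt v i hsd, map_zero, norm_zero]
      exact zero_le_one
  · intro k hk
    rw [hcoef k]
    exact red_lift q (v k) (h4 k (hne k hk)) (c k) (h5 k (hne k hk))

/-- **Density for polynomial maps with rational coefficients of bounded height.** -/
theorem map_density (m d C : ℕ)
    (Pri : Set ℕ) (hdiv : ¬ Summable (fun q : Pri => (1 : ℝ) / (q : ℕ))) (hPri : ∀ q ∈ Pri, q.Prime)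
    (M₀ : ℕ) (ε : ℝ) (hε : 0 < ε) :
    ∃ (P : Finset ℕ) (K : ℕ), (∀ q ∈ P, q ∈ Pri ∧ q.Prime ∧ M₀ ≤ q) ∧
      ∀ BB : ∀ (q : ℕ) [Fact q.Prime], Finset (Idx m d → ZMod q),
        (∀ (q : ℕ) [Fact q.Prime], (BB q).card * q ≤ C * q ^ Fintype.card (Idx m d)) →
      ∀ B : ℕ, K ≤ B → (hbox m d B).Finite ∧
      (1 - ε) * ((hbox m d B).ncard : ℝ) ≤
        (({Φ ∈ hbox m d B | ∃ q ∈ P, ∃ _ : Fact q.Prime, ∃ c, c ∉ BB q ∧
          Pre q m d (toQp q Φ) ∧ Red (toQp q Φ) c}).ncard : ℝ) := by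
  classical
  set j₀ : Idx m d := (0, ⟨Finsupp.single 0 d, by simp⟩) with hj₀
  obtain ⟨P, K, hP, h⟩ := rat_density (J := Idx m d) j₀ C Pri hdiv hPri M₀ ε hε
  refine ⟨P, max K 1, hP, ?_⟩
  intro BB hBB B hB
  have hfin : (hbox m d B).Finite := by
    rw [hbox_eq m d B ((le_max_right _ _).trans hB)]
    exact (ratArr_finite B).image _
  refine ⟨hfin, ?_⟩
  have h1 := h BB hBB B ((le_max_left _ _).trans hB)
  have h2 : (hbox m d B).ncard = (ratArr (Idx m d) B).ncard := by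
    rw [hbox_eq m d B ((le_max_right _ _).trans hB)]
    exact Set.ncard_image_of_injective _ (arrPoly_injective m d)
  rw [h2]
  refine h1.trans ?_
  rw [← Set.ncard_image_of_injective _ (arrPoly_injective (R := ℚ) m d)]
  have hsub : (fun (c : Idx m d → ℚ) => arrPoly c) ''
      {v ∈ ratArr (Idx m d) B | ∃ q ∈ P, ∃ _ : Fact q.Prime, RatGood q j₀ (BB q) v} ⊆
      {Φ ∈ hbox m d B | ∃ q ∈ P, ∃ _ : Fact q.Prime, ∃ c, c ∉ BB q ∧
          Pre q m d (toQp q Φ) ∧ Red (toQp q Φ) c} := by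
    rintro _ ⟨v, ⟨hv1, q, hq, hF, hv2⟩, rfl⟩
    refine ⟨?_, q, hq, hF, pre_of_ratGood m d q j₀ ⟨rfl, rfl⟩ (BB q) v hv2⟩
    rw [hbox_eq m d B ((le_max_right _ _).trans hB)]
    exact ⟨v, hv1, rfl⟩
  exact_mod_cast Set.ncard_le_ncard hsub (hfin.subset fun Φ hΦ => hΦ.1)

end Pool.Agent.Helper87.MQ
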