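import Pool.Agent.Helper86.MQ.FourDefs

/-!
# The number of zeros modulo `p` of a polynomial over the integers
-/

set_option autoImplicit false

namespace Pool.Agent.Helper87.MQ

open MvPolynomial
open Pool.Agent.Helper86.MQ (Idx)

/-- Schwartz-Zippel over `ZMod p`, for an arbitrary finite type of variables. -/
theorem zeros_card_le {J : Type*} [Fintype J] [DecidableEq J] (p : ℕ) [hp : Fact p.Prime]
    (h : MvPolynomial J (ZMod p)) (h0 : h ≠ 0)
    [DecidablePred fun c : J → ZMod p => eval c h = 0] :
    (Finset.univ.filter fun c : J → ZMod p => eval c h = 0).card * p ≤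
      h.totalDegree * p ^ Fintype.card J := by
  classical
  set E : J ≃ Fin (Fintype.card J) := Fintype.equivFin _ with hE
  set N := Fintype.card J with hN
  set h' : MvPolynomial (Fin N) (ZMod p) := rename E h with hh'
  have h1 : h' ≠ 0 := by
    intro h2
    apply h0
    exact rename_injective _ E.injective (by rw [map_zero]; exact h2)
  have h2 : h'.totalDegree ≤ h.totalDegree := totalDegree_rename_le _ _
  have h3 := schwartz_zippel_totalDegree h1 (Finset.univ : Finset (ZMod p))
  have hcard : (Finset.univ : Finset (ZMod p)).card = p := by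
    rw [Finset.card_univ, ZMod.card]
  rw [hcard] at h3
  have h4 : (Finset.univ.filter fun c : J → ZMod p => eval c h = 0).card =
      ((Fintype.piFinset fun _ : Fin N => (Finset.univ : Finset (ZMod p))).filter
        fun f => eval f h' = 0).card := by
    refine Finset.card_equiv (Equiv.arrowCongr E (Equiv.refl _)) fun c => ?_
    rw [Finset.mem_filter, Finset.mem_filter, hh', eval_rename]
    have e : (Equiv.arrowCongr E (Equiv.refl (ZMod p))) c ∘ E = c := by
      funext i
      simp
    rw [e]
    simp
  rw [h4]
  have hp0 : (0 : ℚ≥0) < p := by exact_mod_cast hp.out.pos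
  rw [div_le_div_iff₀ (pow_pos hp0 _) hp0] at h3
  have h5 : (((Fintype.piFinset fun _ : Fin N => (Finset.univ : Finset (ZMod p))).filter
        fun f => eval f h' = 0).card : ℚ≥0) * p ≤ h.totalDegree * p ^ N := by
    refine h3.trans ?_
    exact mul_le_mul_of_nonneg_right (by exact_mod_cast h2) (by positivity)
  exact_mod_cast h5

/-- The number of zeros modulo `p` of a nonzero polynomial over `ℤ`, for all primes `p`. -/
theorem count_R (m d : ℕ) (R : MvPolynomial (Idx m d) ℤ) (hR : R ≠ 0) :
    ∃ C : ℕ, ∀ (p : ℕ) [Fact p.Prime] [DecidablePred fun c : Idx m d → ZMod p => aeval c R = 0],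
      (Finset.univ.filter fun c : Idx m d → ZMod p => aeval c R = 0).card * p ≤
        C * p ^ Fintype.card (Idx m d) := by
  obtain ⟨s, hs⟩ := ne_zero_iff.1 hR
  refine ⟨max R.totalDegree (coeff s R).natAbs, fun p hp _ => ?_⟩
  by_cases hps : ((coeff s R : ℤ) : ZMod p) = 0
  · have h1 : p ≤ (coeff s R).natAbs := by
      have h2 : (p : ℤ) ∣ coeff s R := (ZMod.intCast_zmod_eq_zero_iff_dvd _ _).1 hps
      exact Nat.le_of_dvd (Int.natAbs_pos.2 hs) (Int.natCast_dvd.1 h2)
    have h3 : (Finset.univ.filter fun c : Idx m d → ZMod p => aeval c R = 0).card ≤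
        p ^ Fintype.card (Idx m d) := by
      refine (Finset.card_le_univ _).trans ?_
      rw [Fintype.card_fun, ZMod.card]
    calc _ ≤ p ^ Fintype.card (Idx m d) * (coeff s R).natAbs := Nat.mul_le_mul h3 h1
      _ = (coeff s R).natAbs * p ^ Fintype.card (Idx m d) := mul_comm _ _
      _ ≤ _ := Nat.mul_le_mul_right _ (le_max_right _ _)
  · set Rp : MvPolynomial (Idx m d) (ZMod p) := MvPolynomial.map (algebraMap ℤ (ZMod p)) R with hRp
    have hRp0 : Rp ≠ 0 := by
      intro h
      apply hps
      have h2 := congrArg (coeff s) h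
      rw [hRp, coeff_map, coeff_zero] at h2
      simpa using h2
    haveI : DecidablePred fun c : Idx m d → ZMod p => eval c Rp = 0 := fun c =>
      Classical.propDecidable _
    have h4 := zeros_card_le p Rp hRp0
    have h5 : (Finset.univ.filter fun c : Idx m d → ZMod p => aeval c R = 0) =
        (Finset.univ.filter fun c : Idx m d → ZMod p => eval c Rp = 0) := by
      ext c
      rw [Finset.mem_filter, Finset.mem_filter, hRp, eval_map, aeval_def]
    rw [h5]
    refine h4.trans (Nat.mul_le_mul_right _ ?_)
    refine le_trans ?_ (le_max_left _ _)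
    exact Finset.sup_mono (support_map_subset _ _)

end Pool.Agent.Helper87.MQ
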