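import Pool.Agent.Helper87.MQ.Glue

/-!
# An equation over the small field for a hypersurface over `ℂ`
-/

set_option autoImplicit false

namespace Pool.Agent.Helper87.MQ

open MvPolynomial
open Pool.Agent.Helper86.MQ (pm)

/-- A hypersurface over `ℂ` lies, as far as points over `L` are concerned, in a hypersurface over
`L` of at most the same degree. -/
theorem exists_down (L : Subfield ℂ) {m : ℕ} (F0 : MvPolynomial (Fin (m + 1)) ℂ) (hF0 : F0 ≠ 0) :
    ∃ G : MvPolynomial (Fin (m + 1)) L, G ≠ 0 ∧ G.totalDegree ≤ F0.totalDegree ∧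
      ∀ (q : ℕ) [Fact q.Prime] (e : L →+* ℚ_[q])
        (Φ : Fin (m + 1) → MvPolynomial (Fin (m + 1)) ℚ) (α : Fin (m + 1) → L) (n : ℕ),
        eval ((pm (toC Φ))^[n] (fun i => (α i : ℂ))) F0 = 0 →
          eval ((pm (toQp q Φ))^[n] (fun i => e (α i))) (map e G) = 0 := by
  classical
  obtain ⟨s0, hs0⟩ := ne_zero_iff.1 hF0
  have hlam : ∃ lam : ℂ →ₗ[L] L, lam (coeff s0 F0) ≠ 0 := by
    by_contra hl
    push Not at hl
    exact hs0 ((Module.forall_dual_apply_eq_zero_iff L _).1 hl)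
  obtain ⟨lam, hlam⟩ := hlam
  refine ⟨cw lam F0, ?_, ?_, ?_⟩
  · intro h0
    apply hlam
    rw [← coeff_cw, h0, coeff_zero]
  · apply totalDegree_le_of_coeff
    intro s hs
    rw [coeff_cw, coeff_eq_zero_of_gt F0 _ le_rfl s hs, map_zero]
  · intro q _ e Φ α n h0
    set β : Fin (m + 1) → L :=
      (pm (fun i => MvPolynomial.map (algebraMap ℚ L) (Φ i)))^[n] α with hβ
    have h1 : (pm (toC Φ))^[n] (fun i => (α i : ℂ)) = fun i => algebraMap L ℂ (β i) :=
      (hom_pm_iterate (algebraMap L ℂ) Φ α n).symm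
    have h2 : (pm (toQp q Φ))^[n] (fun i => e (α i)) = fun i => e (β i) :=
      (hom_pm_iterate e Φ α n).symm
    rw [h1] at h0
    have h3 : eval β (cw lam F0) = 0 := by
      rw [eval_cw, h0, map_zero]
    rw [h2, eval_map]
    have h5 := MvPolynomial.eval₂_comp_left e (RingHom.id _) β (cw lam F0)
    rw [eval₂_id, RingHom.comp_id] at h5
    have h6 : eval₂ e (fun i => e (β i)) (cw lam F0) = e (eval β (cw lam F0)) := h5.symm
    rw [h6, h3, map_zero]

end Pool.Agent.Helper87.MQ
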