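import Pool.Agent.Helper87.DMLP.StatAll

/-!
# Embedding finitely generated fields into fields of `q`-adic numbers
-/

set_option autoImplicit false

namespace Pool.Agent.Helper87.MQ

open Pool.Agent.Helper87.DMLP (primesFor)

theorem exists_field_emb (A : Finset ℂ) (q : ℕ) (h : q ∈ primesFor A) :
    ∃ _ : Fact q.Prime, Nonempty (Subfield.closure (A : Set ℂ) →+* ℚ_[q]) := by
  obtain ⟨hq, ι, hι⟩ := h
  refine ⟨hq, ?_⟩
  have hle : Subring.closure (A : Set ℂ) ≤ (Subfield.closure (A : Set ℂ)).toSubring :=
    Subfield.subring_closure_le _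
  letI alg : Algebra (Subring.closure (A : Set ℂ)) (Subfield.closure (A : Set ℂ)) :=
    (Subring.inclusion hle).toAlgebra
  have hinj : Function.Injective (algebraMap (Subring.closure (A : Set ℂ))
      (Subfield.closure (A : Set ℂ))) := Subring.inclusion_injective hle
  haveI : FaithfulSMul (Subring.closure (A : Set ℂ)) (Subfield.closure (A : Set ℂ)) :=
    (faithfulSMul_iff_algebraMap_injective _ _).2 hinj
  haveI : IsFractionRing (Subring.closure (A : Set ℂ)) (Subfield.closure (A : Set ℂ)) := by
    apply IsFractionRing.of_field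
    rintro ⟨z, hz⟩
    obtain ⟨x, hx, y, hy, hxy⟩ := Subfield.mem_closure_iff.1 hz
    refine ⟨⟨x, hx⟩, ⟨y, hy⟩, ?_⟩
    apply Subtype.ext
    exact hxy.symm
  have h1 : Function.Injective ((PadicInt.Coe.ringHom (p := q)).comp ι) :=
    Function.Injective.comp (g := PadicInt.Coe.ringHom (p := q)) Subtype.val_injective hι
  exact ⟨IsFractionRing.lift h1⟩

end Pool.Agent.Helper87.MQ
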