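import Mathlib

/-!
# An algebraic element of large degree has many conjugates
-/

set_option autoImplicit false

namespace Pool.Agent.Helper87.MQ

/-- If `y` has degree at least `d` over the perfect field `F`, then there are `d` automorphisms of
the algebraic closure which map `y` to distinct elements. -/
theorem many_conj {F : Type*} [Field F] [CharZero F] (y : AlgebraicClosure F) (d : ℕ)
    (hy : d ≤ (minpoly F y).natDegree) :
    ∃ σ : Fin d → (AlgebraicClosure F ≃ₐ[F] AlgebraicClosure F),
      Function.Injective fun a => σ a y := by
  classical
  have hint : IsIntegral F y := Algebra.IsIntegral.isIntegral y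
  have hsep : (minpoly F y).Separable := (minpoly.irreducible hint).separable
  have hcard : Fintype.card ((minpoly F y).rootSet (AlgebraicClosure F)) =
      (minpoly F y).natDegree :=
    Polynomial.card_rootSet_eq_natDegree hsep (IsAlgClosed.splits _)
  have hle : Fintype.card (Fin d) ≤ Fintype.card ((minpoly F y).rootSet (AlgebraicClosure F)) := by
    rw [hcard, Fintype.card_fin]
    exact hy
  obtain ⟨f⟩ := Function.Embedding.nonempty_of_card_le hle
  have h1 : ∀ a : Fin d, ∃ σ : AlgebraicClosure F ≃ₐ[F] AlgebraicClosure F,
      σ y = (f a : AlgebraicClosure F) := by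
    intro a
    have h2 := (f a).2
    rw [Polynomial.mem_rootSet] at h2
    exact minpoly.exists_algEquiv_of_root' (Algebra.IsAlgebraic.isAlgebraic y) h2.2
  choose σ hσ using h1
  refine ⟨σ, fun a b hab => ?_⟩
  dsimp only at hab
  rw [hσ, hσ] at hab
  exact f.injective (Subtype.ext hab)

end Pool.Agent.Helper87.MQ
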