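import Pool.Agent.Helper86.MQ.FourDefs

/-!
# Solutions of polynomial systems over one extension give solutions over another one
-/

set_option autoImplicit false

namespace Pool.Agent.Helper87.MQ

open MvPolynomial
open Pool.Agent.Helper86.MQ (Idx tf Fix)

/-- Every polynomial relation over `L` which holds for the point `x` of an extension of `L` holds
for some point over every algebraically closed extension. -/
theorem transfer {L : Type*} [Field L] {σ : Type*} [Finite σ] {K₁ : Type*} [Field K₁]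
    [Algebra L K₁] (x : σ → K₁) (K₃ : Type*) [Field K₃] [IsAlgClosed K₃] [Algebra L K₃] :
    ∃ y : σ → K₃, ∀ f : MvPolynomial σ L, aeval x f = 0 → aeval y f = 0 := by
  have h1 : (RingHom.ker (aeval (R := L) x).toRingHom) ≠ ⊤ := RingHom.ker_ne_top _
  obtain ⟨M, hM, hIM⟩ := Ideal.exists_le_maximal _ h1
  letI : Field (MvPolynomial σ L ⧸ M) := Ideal.Quotient.field M
  haveI : Algebra.FiniteType L (MvPolynomial σ L ⧸ M) :=
    Algebra.FiniteType.of_surjective (Ideal.Quotient.mkₐ L M) Ideal.Quotient.mk_surjective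
  haveI : Module.Finite L (MvPolynomial σ L ⧸ M) :=
    finite_of_finite_type_of_isJacobsonRing L (MvPolynomial σ L ⧸ M)
  haveI : Algebra.IsAlgebraic L (MvPolynomial σ L ⧸ M) := Algebra.IsAlgebraic.of_finite _ _
  let φ : (MvPolynomial σ L ⧸ M) →ₐ[L] K₃ := IsAlgClosed.lift
  refine ⟨fun i => φ (Ideal.Quotient.mkₐ L M (X i)), fun f hf => ?_⟩
  have h2 : f ∈ M := hIM hf
  have h3 : aeval (fun i => φ (Ideal.Quotient.mkₐ L M (X i))) f =
      φ (Ideal.Quotient.mkₐ L M f) := by
    have : aeval (fun i => φ (Ideal.Quotient.mkₐ L M (X i))) =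
        φ.comp (Ideal.Quotient.mkₐ L M) := by
      ext i
      simp
    rw [this]
    rfl
  rw [h3]
  have h4 : Ideal.Quotient.mkₐ L M f = 0 := Ideal.Quotient.eq_zero_iff_mem.2 h2
  rw [h4, map_zero]

theorem aeval_fixPoly {L : Type*} [Field L] {m d : ℕ} (c : Idx m d → L) (i : Fin (m + 1))
    {K : Type*} [Field K] [Algebra L K] (z : Fin (m + 1) ⊕ Fin 2 → K) :
    aeval z ((∑ e : {s : Fin (m + 1) →₀ ℕ // s.degree ≤ d},
      if e.1.degree = d then C (c (i, e)) * ∏ j, X (Sum.inl j) ^ (e.1 j) else 0) -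
        X (Sum.inr 0) * X (Sum.inl i) : MvPolynomial (Fin (m + 1) ⊕ Fin 2) L) =
      tf (fun k => algebraMap L K (c k)) (fun j => z (Sum.inl j)) i -
        z (Sum.inr 0) * z (Sum.inl i) := by
  rw [map_sub, map_sum, map_mul, aeval_X, aeval_X, tf]
  congr 1
  refine Finset.sum_congr rfl fun e _ => ?_
  split_ifs with he
  · rw [map_mul, aeval_C, map_prod]
    congr 1
    refine Finset.prod_congr rfl fun j _ => ?_
    rw [map_pow, aeval_X]
  · rw [map_zero]

/-- A fixed point of the forms of degree `d` at which `W` vanishes, over one extension of `L`, gives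
one over every algebraically closed extension. -/
theorem transfer_fix {L : Type*} [Field L] {m d : ℕ} (c : Idx m d → L)
    (W : MvPolynomial (Fin (m + 1)) L) {K₁ : Type*} [Field K₁] (e₁ : L →+* K₁)
    {x : Fin (m + 1) → K₁} (hx : Fix (fun k => e₁ (c k)) x)
    (hW : eval x (MvPolynomial.map e₁ W) = 0) {K₃ : Type*} [Field K₃] [IsAlgClosed K₃]
    (e₃ : L →+* K₃) :
    ∃ y : Fin (m + 1) → K₃, Fix (fun k => e₃ (c k)) y ∧
      eval y (MvPolynomial.map e₃ W) = 0 := by
  classical
  letI := e₁.toAlgebra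
  letI := e₃.toAlgebra
  obtain ⟨hx0, μ, hμ⟩ := hx
  obtain ⟨k, hk⟩ := Function.ne_iff.1 hx0
  set x' : Fin (m + 1) ⊕ Fin 2 → K₁ := Sum.elim x (fun b => if b = 0 then μ else (x k)⁻¹) with hx'
  obtain ⟨y', hy'⟩ := transfer (L := L) x' K₃
  set y : Fin (m + 1) → K₃ := fun i => y' (Sum.inl i) with hy
  refine ⟨y, ⟨?_, y' (Sum.inr 0), fun i => ?_⟩, ?_⟩
  · have h1 := hy' (X (Sum.inl k) * X (Sum.inr 1) - 1) (by
      rw [map_sub, map_mul, aeval_X, aeval_X, map_one, hx']
      simp only [Sum.elim_inl, Sum.elim_inr]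
      rw [if_neg (by decide), mul_inv_cancel₀ hk, sub_self])
    rw [map_sub, map_mul, aeval_X, aeval_X, map_one] at h1
    intro h2
    have h3 : y' (Sum.inl k) = 0 := congrFun h2 k
    rw [h3, zero_mul, zero_sub, neg_eq_zero] at h1
    exact one_ne_zero h1
  · have h1 := hy' _ (by
      rw [aeval_fixPoly c i x', sub_eq_zero]
      exact hμ i)
    rw [aeval_fixPoly c i y', sub_eq_zero] at h1
    exact h1
  · have h1 := hy' (rename Sum.inl W) (by
      rw [aeval_rename, aeval_def]
      rw [eval_map] at hW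
      exact hW)
    rw [aeval_rename, aeval_def] at h1
    rw [eval_map]
    exact h1

end Pool.Agent.Helper87.MQ
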