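import Pool.Agent.Helper87.MQ.TwoTypes
import Pool.Agent.Helper87.MQ.Down
import Pool.Agent.Helper86.MQ.FourDefs

/-!
# Density for version (4): two primes and a nonzero polynomial in the coefficients
-/

set_option autoImplicit false

namespace Pool.Agent.Helper87.MQ

open MvPolynomial
open Pool.Agent.Helper86.MQ (Idx Pre Red kB)

/-- **Density with the two types of primes**, in the form which is used in the assembly. -/
theorem four_density (m d C : ℕ) (i₁ : Fin (m + 1))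
    (Pri : Set ℕ) (hdiv : ¬ Summable (fun q : Pri => (1 : ℝ) / (q : ℕ))) (hPri : ∀ q ∈ Pri, q.Prime)
    (M₀ : ℕ) (R : MvPolynomial (Idx m d) ℤ) (hR : R ≠ 0) (ε : ℝ) (hε : 0 < ε) :
    ∃ (P : Finset ℕ) (K : ℕ), (∀ q ∈ P, q ∈ Pri ∧ q.Prime ∧ M₀ ≤ q) ∧
      ∀ BB : ∀ (q : ℕ) [Fact q.Prime], Finset (Idx m d → ZMod q),
        (∀ (q : ℕ) [Fact q.Prime], M₀ ≤ q →
          (BB q).card * q ≤ C * q ^ Fintype.card (Idx m d)) →
      ∀ BB' : ∀ (q : ℕ) [Fact q.Prime], Finset (Idx m d → ZMod q),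
        (∀ (q : ℕ) [Fact q.Prime], M₀ ≤ q →
          (BB' q).card * q ≤ C * q ^ Fintype.card (Idx m d)) →
      ∀ B : ℕ, K ≤ B → (hbox m d B).Finite ∧
      (1 - ε) * ((hbox m d B).ncard : ℝ) ≤
        (({Φ ∈ hbox m d B |
          (∃ q ∈ P, ∃ _ : Fact q.Prime, ∃ c, c ∉ BB q ∧ Pre q m d (toQp q Φ) ∧
            Red (toQp q Φ) c) ∧
          (∃ q ∈ P, ∃ _ : Fact q.Prime, ∃ c, c ∉ BB' q ∧
            Pool.Agent.Helper86.MQ.PreAt q m d (kB m d i₁) (toQp q Φ) ∧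
            Pool.Agent.Helper86.MQ.RedAt (kB m d i₁) (toQp q Φ) c) ∧
          aeval (fun k : Idx m d => coeff (k.2 : Fin (m + 1) →₀ ℕ) (Φ k.1)) R ≠ 0}).ncard :
          ℝ) := by
  have hR' : MvPolynomial.map (Int.castRingHom ℚ) R ≠ 0 := by
    intro h
    apply hR
    exact map_injective (Int.castRingHom ℚ) Int.cast_injective (by rw [h, map_zero])
  obtain ⟨P, K, hP, h⟩ := map_density3 m d C (kB m d 0) (kB m d i₁) Pri hdiv hPri M₀ _ hR' ε hε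
  refine ⟨P, K, hP, fun BB hBB BB' hBB' B hB => ?_⟩
  obtain ⟨hfin, hcard⟩ := h BB hBB BB' hBB' B hB
  refine ⟨hfin, hcard.trans ?_⟩
  refine Nat.cast_le.2 (Set.ncard_le_ncard ?_ (hfin.subset fun Φ hΦ => hΦ.1))
  rintro Φ ⟨hΦ, h1, ⟨q, hq, hF, c, hc, hpre, hred⟩, ⟨q', hq', hF', c', hc', hpre', hred'⟩⟩
  refine ⟨hΦ, ⟨q, hq, hF, c, hc, preAt_zero hpre, redAt_zero hred⟩,
    ⟨q', hq', hF', c', hc', ⟨hpre'.deg, hpre'.one, hpre'.int⟩, hred'⟩, ?_⟩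
  intro h2
  apply h1
  rw [eval_map]
  rw [aeval_def] at h2
  exact h2

end Pool.Agent.Helper87.MQ
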