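import Pool.Agent.Helper86.MQ.Ultra
import Pool.Agent.Helper52.MQ.Alg

/-!
# The genericity condition at a prime of the second type
-/

set_option autoImplicit false

namespace Pool.Agent.Helper87.MQ

open MvPolynomial
open Pool.Agent.Helper86.MQ
open Pool.Agent.Helper52.MQ (clF subset_clF indep_of_card exists_field)

variable {m d : ℕ}

/-- the index of the coefficient of `x_k ^ d` in the component `i` -/
noncomputable def pk (m d : ℕ) (i k : Fin (m + 1)) : Idx m d := (i, ⟨Finsupp.single k d, by simp⟩)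

/-- No fixed point in a hyperplane, for algebraically independent coefficients. -/
theorem no_fix {A : Type} [Field A] [CharZero A] {c : Idx m d → A}
    (hc : AlgebraicIndependent ℤ c) {i₁ k : Fin (m + 1)} (hk : i₁ ≠ k) {x : Fin (m + 1) → A}
    (hxk : x k = 1) (hx1 : x i₁ = 0) {μ : A} (hμ : ∀ i, tf c x i = μ * x i) : False := by
  classical
  set g : Idx m d → A := fun j => if j = pk m d j.1 k ∧ j.1 ≠ k then x j.1 else c j with hg
  have hgen : ∀ j : Idx m d, ¬ (j = pk m d j.1 k ∧ j.1 ≠ k) → c j ∈ clF (Set.range g) := by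
    intro j hj
    apply subset_clF
    refine ⟨j, ?_⟩
    rw [hg]
    dsimp only
    rw [if_neg hj]
  have hx : ∀ i, x i ∈ clF (Set.range g) := by
    intro i
    by_cases hi : i = k
    · rw [hi, hxk]
      exact one_mem _
    · apply subset_clF
      refine ⟨pk m d i k, ?_⟩
      rw [hg]
      dsimp only
      rw [if_pos ⟨rfl, hi⟩]
      rfl
  have hterm : ∀ e : {s : Fin (m + 1) →₀ ℕ // s.degree ≤ d},
      ∏ j, x j ^ (e.1 j) ∈ clF (Set.range g) := fun e =>
    prod_mem fun j _ => pow_mem (hx j) _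
  have hμmem : μ ∈ clF (Set.range g) := by
    have h1 := hμ k
    rw [hxk, mul_one] at h1
    rw [← h1, tf]
    refine sum_mem fun e _ => ?_
    split_ifs
    · refine mul_mem (hgen _ ?_) (hterm e)
      rintro ⟨-, h⟩
      exact h rfl
    · exact zero_mem _
  have hall : ∀ j, c j ∈ clF (Set.range g) := by
    intro j
    by_cases hj : j = pk m d j.1 k ∧ j.1 ≠ k
    · have h1 := hμ j.1
      rw [tf, ← Finset.add_sum_erase _ _ (Finset.mem_univ j.2)] at h1
      have hj2 : (j.2 : Fin (m + 1) →₀ ℕ) = Finsupp.single k d := by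
        have := congrArg (fun t : Idx m d => (t.2 : Fin (m + 1) →₀ ℕ)) hj.1
        exact this
      have hdeg : (j.2 : Fin (m + 1) →₀ ℕ).degree = d := by
        rw [hj2]
        simp
      rw [if_pos hdeg] at h1
      have hprod : ∏ t, x t ^ ((j.2 : Fin (m + 1) →₀ ℕ) t) = 1 := by
        rw [hj2]
        refine Finset.prod_eq_one fun t _ => ?_
        by_cases ht : t = k
        · rw [ht, hxk, one_pow]
        · rw [Finsupp.single_eq_of_ne (by tauto), pow_zero]
      rw [hprod, mul_one] at h1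
      have h2 : c j = μ * x j.1 - ∑ e ∈ Finset.univ.erase j.2,
          (if (e : Fin (m + 1) →₀ ℕ).degree = d then
            c (j.1, e) * ∏ t, x t ^ ((e : Fin (m + 1) →₀ ℕ) t) else 0) := by
        rw [← h1]
        exact (add_sub_cancel_right _ _).symm
      rw [h2]
      refine sub_mem (mul_mem hμmem (hx _)) (sum_mem fun e he => ?_)
      split_ifs
      · refine mul_mem (hgen _ ?_) (hterm e)
        rintro ⟨h3, -⟩
        apply Finset.ne_of_mem_erase he
        have h4 := congrArg Prod.snd h3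
        have h5 := congrArg Prod.snd hj.1
        exact h4.trans h5.symm
      · exact zero_mem _
    · exact hgen j hj
  have hind := indep_of_card hc le_rfl hall
  have h0 : g (pk m d i₁ k) = 0 := by
    rw [hg]
    dsimp only
    rw [if_pos ⟨rfl, hk⟩]
    exact hx1
  exact hind.ne_zero _ h0

theorem indep_of_forall {I : Type} {K : Type} [Field K] {c : I → K}
    (hc : ∀ R : MvPolynomial I ℤ, R ≠ 0 → aeval c R ≠ 0) : AlgebraicIndependent ℤ c := by
  rw [algebraicIndependent_iff]
  intro R hR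
  by_contra hne
  exact hc R hne hR

theorem charZero_of_forall {I : Type} {K : Type} [Field K] {c : I → K}
    (hc : ∀ R : MvPolynomial I ℤ, R ≠ 0 → aeval c R ≠ 0) : CharZero K := by
  refine charZero_of_inj_zero fun n hn => ?_
  by_contra hne
  refine hc (C (n : ℤ)) ?_ ?_
  · rw [Ne, C_eq_zero]
    exact_mod_cast hne
  · rw [aeval_C]
    simpa using hn

/-- There is a fixed point in the hyperplane `x_{i₁} = 0` with coordinate `k` equal to one. -/
def BadB (m d : ℕ) (i₁ k : Fin (m + 1)) (A : Type) [CommRing A] (c : Idx m d → A) : Prop :=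
  ∃ (x : Fin (m + 1) → A) (μ : A), x k = 1 ∧ x i₁ = 0 ∧ ∀ i, tfR c x i = μ * x i

theorem exists_RB (m d : ℕ) (i₁ k : Fin (m + 1)) (hk : i₁ ≠ k) :
    ∃ R : MvPolynomial (Idx m d) ℤ, R ≠ 0 ∧ ∀ (K : Type) [Field K] (c : Idx m d → K),
      aeval c R ≠ 0 → ¬ BadB m d i₁ k K c := by
  refine ultra (fun A _ c => BadB m d i₁ k A c) ?_ ?_ ?_
  · rintro A B _ _ φ c ⟨x, μ, h1, h2, h3⟩
    refine ⟨fun j => φ (x j), φ μ, (congrArg φ h1).trans (map_one φ),
      (congrArg φ h2).trans (map_zero φ), fun i => ?_⟩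
    rw [← map_tfR, h3, map_mul]
  · intro S K _ c h
    choose x μ h1 h2 h3 using h
    refine ⟨fun j s => x s j, μ, funext h1, funext h2, fun i => ?_⟩
    funext s
    have h4 := map_tfR (Pi.evalRingHom K s) (fun k s => c s k) (fun j s => x s j) i
    exact h4.trans (h3 s i)
  · rintro K _ c hc ⟨x, μ, h1, h2, h3⟩
    haveI := charZero_of_forall hc
    exact no_fix (indep_of_forall hc) hk h1 h2 h3

/-- **The polynomial for the primes of the second type.** -/
theorem exists_genB (m d : ℕ) (hd : 1 ≤ d) (i₁ : Fin (m + 1)) (hi : i₁ ≠ 0) :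
    ∃ R : MvPolynomial (Idx m d) ℤ, R ≠ 0 ∧ ∀ (K : Type) [Field K] (c : Idx m d → K),
      aeval c R ≠ 0 → GenB i₁ c := by
  classical
  have h : ∀ k : Fin (m + 1), ∃ R : MvPolynomial (Idx m d) ℤ, R ≠ 0 ∧ (i₁ ≠ k →
      ∀ (K : Type) [Field K] (c : Idx m d → K), aeval c R ≠ 0 → ¬ BadB m d i₁ k K c) := by
    intro k
    by_cases hk : i₁ = k
    · exact ⟨1, one_ne_zero, fun h => absurd hk h⟩
    · obtain ⟨R, h1, h2⟩ := exists_RB m d i₁ k hk
      exact ⟨R, h1, fun _ => h2⟩
  choose R hR0 hR using h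
  refine ⟨X (i₁, ⟨Finsupp.single 0 d, by simp⟩) * ∏ k, R k,
    mul_ne_zero (X_ne_zero _) (Finset.prod_ne_zero_iff.2 fun k _ => hR0 k), ?_⟩
  intro K _ c hc
  rw [map_mul, aeval_X, map_prod] at hc
  refine ⟨left_ne_zero_of_mul hc, fun x hx h1 => ?_⟩
  obtain ⟨k, hk⟩ := Function.ne_iff.1 hx.1
  have hk1 : i₁ ≠ k := by
    rintro rfl
    exact hk h1
  have h2 := Finset.prod_ne_zero_iff.1 (right_ne_zero_of_mul hc) k (Finset.mem_univ _)
  obtain ⟨-, μ, h3⟩ := hx.smul hd (inv_ne_zero hk)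
  refine hR k hk1 K c h2 ⟨(x k)⁻¹ • x, μ, ?_, ?_, fun i => h3 i⟩
  · rw [Pi.smul_apply, smul_eq_mul, inv_mul_cancel₀ hk]
  · rw [Pi.smul_apply, h1, smul_zero]

end Pool.Agent.Helper87.MQ
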