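import Pool.Agent.Helper86.MQ.Final

/-!
# The case of dimension one
-/

set_option autoImplicit false

namespace Pool.Agent.Helper87.MQ

open MvPolynomial
open Pool.Agent.Helper86.MQ

theorem finite_zeros_one {K : Type*} [Field K] (G : MvPolynomial (Fin 1) K) (hG : G ≠ 0) :
    {a : K | eval (fun _ => a) G = 0}.Finite := by
  set g : Polynomial K := uniqueAlgEquiv K (Fin 1) G with hg
  have hg0 : g ≠ 0 := by
    intro h
    apply hG
    exact (uniqueAlgEquiv K (Fin 1)).injective (by rw [map_zero]; exact h)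
  refine (Polynomial.finite_setOf_isRoot hg0).subset ?_
  intro a ha
  change g.eval a = 0
  have h1 : ∀ F : MvPolynomial (Fin 1) K,
      (uniqueAlgEquiv K (Fin 1) F : Polynomial K).eval a = eval (fun _ => a) F := by
    intro F
    induction F using MvPolynomial.induction_on with
    | C r => simp
    | add P Q hP hQ => rw [map_add, Polynomial.eval_add, hP, hQ, map_add]
    | mul_X P i hP =>
      rw [map_mul, Polynomial.eval_mul, hP, map_mul, eval_X]
      congr 1
      simp
  rw [hg, h1]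
  exact ha

theorem four_local_zero {p : ℕ} [hp : Fact p.Prime] {d : ℕ} (hd : 2 ≤ d)
    {Φ : Fin (0 + 1) → MvPolynomial (Fin (0 + 1)) ℚ_[p]} (hΦ : Pre p 0 d Φ)
    (G : MvPolynomial (Fin (0 + 1)) ℚ_[p]) (hG : G ≠ 0) {x : Fin (0 + 1) → ℚ_[p]}
    (hx : ∃ n, Esc ((pm Φ)^[n] x)) :
    {n | eval ((pm Φ)^[n] x) G = 0}.Finite := by
  obtain ⟨n₀, hn₀⟩ := hx
  have hp1 : (1 : ℝ) < p := by exact_mod_cast hp.out.one_lt
  set y : ℕ → (Fin (0 + 1) → ℚ_[p]) := fun n => (pm Φ)^[n] ((pm Φ)^[n₀] x) with hy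
  have hesc : ∀ n, Esc (y n) := fun n => Pool.Agent.Helper26.MQ.esc_iterate hd hΦ hn₀ n
  have hmono : StrictMono fun n => ‖y n 0‖ := by
    refine strictMono_nat_of_lt_succ fun n => ?_
    have h1 : y (n + 1) = pm Φ (y n) := Function.iterate_succ_apply' _ _ _
    have h2 := (Pool.Agent.Helper26.MQ.esc_step hd hΦ (hesc n)).2
    have h3 : (1 : ℝ) ≤ ‖y n 0‖ := hp1.le.trans (hesc n).1
    have h4 : ‖y n 0‖ ≤ ‖y n 0‖ ^ d := le_self_pow₀ h3 (by omega)
    rw [h1, h2]
    nlinarith
  have hinj : Function.Injective fun n => y n 0 := by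
    intro a b hab
    apply hmono.injective
    dsimp only at hab ⊢
    rw [hab]
  refine finite_of_shift n₀ ?_
  refine Set.Finite.subset ((finite_zeros_one (K := ℚ_[p]) G hG).preimage hinj.injOn) ?_
  intro n hn
  change eval (fun _ => y n 0) G = 0
  have h1 : (fun _ => y n 0) = y n := by
    funext i
    exact congrArg (y n) (Subsingleton.elim (α := Fin 1) 0 i)
  rw [h1]
  have h2 : (pm Φ)^[n + n₀] x = y n := Function.iterate_add_apply _ _ _ _
  rw [← h2]
  exact hn

end Pool.Agent.Helper87.MQ
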