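import Pool.Agent.Helper86.MQ.Final3
import Pool.Agent.Helper86.MQ.Conj
import Pool.Agent.Helper87.MQ.FourDensity
import Pool.Agent.Helper87.MQ.CountR
import Pool.Agent.Helper87.MQ.Zero
import Pool.Agent.Helper87.MQ.GenB
import Pool.Agent.Helper52.MQ.GenPos

/-!
# The final theorem: all hypersurfaces of small degree at once, and one hypersurface of any degree
-/

set_option autoImplicit false

namespace Pool.Agent.Helper87.MQ

open MvPolynomial
open Pool.Agent.Helper86.MQ
open Pool.Agent.Helper87.DMLP (primesFor not_summable_primesFor prime_of_mem_primesFor)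

theorem map_aeval_int {J A B : Type*} [CommRing A] [CommRing B] (ψ : A →+* B) (c : J → A)
    (R : MvPolynomial J ℤ) : ψ (aeval c R) = aeval (fun a => ψ (c a)) R := by
  rw [aeval_def, aeval_def, MvPolynomial.eval₂_comp_left ψ (algebraMap ℤ A) c R]
  have h : ψ.comp (algebraMap ℤ A) = algebraMap ℤ B := RingHom.ext_int _ _
  rw [h]
  rfl

theorem main4 (m d : ℕ) (hd : 2 ≤ d) (D : ℕ) (hD : (m + D).choose D ≤ d) (A : Finset ℂ)
    (F₀ : MvPolynomial (Fin (m + 1)) ℂ) (hF₀ : F₀ ≠ 0) (ε : ℝ) (hε : 0 < ε) :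
    ∃ M K : ℕ, 0 < M ∧ ∀ B : ℕ, K ≤ B → (hbox m d B).Finite ∧
      (1 - ε) * ((hbox m d B).ncard : ℝ) ≤
        (({Φ ∈ hbox m d B | Concl (Subfield.closure (A : Set ℂ)) M Φ ∧
          ∀ α : Fin (m + 1) → ℂ, (∀ i, α i ∈ Subfield.closure (A : Set ℂ)) →
            {n | eval ((pm (toC Φ))^[n] α) F₀ = 0}.Finite ∧
            ∀ F : MvPolynomial (Fin (m + 1)) ℂ, F ≠ 0 → F.totalDegree ≤ D →
              {n | eval ((pm (toC Φ))^[n] α) F = 0}.Finite}).ncard : ℝ) := by
  classical
  obtain ⟨A', s₀, hAA, hcl, hloc⟩ := exists_local_eq A F₀ hF₀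
  set D₀ : ℕ := s₀.degree with hD₀
  set k : ℕ := (Finsupp.tail s₀).degree with hk
  -- the genericity conditions
  obtain ⟨R, hR0, hR⟩ := Pool.Agent.Helper52.MQ.exists_genPos m d D hD
  set i₁ : Fin (m + 1) := Fin.last m with hi₁
  obtain ⟨RB, hRB0, hRB⟩ : ∃ RB : MvPolynomial (Idx m d) ℤ, RB ≠ 0 ∧
      (i₁ ≠ 0 → ∀ (K : Type) [Field K] (c : Idx m d → K), aeval c RB ≠ 0 → GenB i₁ c) := by
    by_cases hi : i₁ = 0
    · exact ⟨1, one_ne_zero, fun h => absurd hi h⟩
    · obtain ⟨RB, h1, h2⟩ := exists_genB m d (by omega) i₁ hi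
      exact ⟨RB, h1, fun _ => h2⟩
  obtain ⟨C', hC'⟩ := count_R m d RB hRB0
  obtain ⟨C, hC⟩ := Pool.Agent.Helper26.MQ.trap m d hd
  have key : ∀ (q : ℕ) [Fact q.Prime], ∃ BB : Finset (Idx m d → ZMod q),
      BB.card * q ≤ (C + k + C') * q ^ Fintype.card (Idx m d) ∧
      (∀ Φ : Fin (m + 1) → MvPolynomial (Fin (m + 1)) ℚ_[q], Pre q m d Φ →
        ∀ c, Red Φ c → c ∉ BB →
          Good q m d Φ ∧ ∀ x : Fin (m + 1) → ℚ_[q], ∃ n, Esc ((pm Φ)^[n] x)) ∧
      (q ∈ primesFor A' →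
        ∃ (e : Subfield.closure (A : Set ℂ) →+* ℚ_[q]) (G : MvPolynomial (Fin (m + 1)) ℤ_[q]),
          (∀ s ∈ G.support, s.degree = D₀ → k ≤ (Finsupp.tail s).degree) ∧
          (∀ s ∈ G.support, s.degree ≤ D₀) ∧
          (∀ (Φ : Fin (m + 1) → MvPolynomial (Fin (m + 1)) ℚ)
            (α : Fin (m + 1) → Subfield.closure (A : Set ℂ)) (n : ℕ),
            eval ((pm (toC Φ))^[n] (fun i => (α i : ℂ))) F₀ = 0 →
              eval ((pm (toQp q Φ))^[n] (fun i => e (α i)))
                (map (PadicInt.Coe.ringHom (p := q)) G) = 0) ∧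
          ∀ c ∉ BB, eval (fun i => c (xd m d i)) (hpoly D₀ k G) ≠ 0) := by
    intro q hq
    obtain ⟨BB, hBB, hgood⟩ := hC q
    by_cases hqA : q ∈ primesFor A'
    · obtain ⟨_, e, G, hG1, hG2, hG3, hG4⟩ := hloc q hqA
      refine ⟨BB ∪ Finset.univ.filter fun c : Idx m d → ZMod q =>
        eval (fun i => c (xd m d i)) (hpoly D₀ k G) = 0, ?_, ?_, fun _ => ⟨e, G, ?_, ?_, hG4, ?_⟩⟩
      · have h1 := count_low (d := d) (hpoly D₀ k G) (hpoly_ne hG1 hD₀.symm hk.symm)
          (totalDegree_hpoly D₀ k G)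
        have h2 := Finset.card_union_le BB (Finset.univ.filter fun c : Idx m d → ZMod q =>
          eval (fun i => c (xd m d i)) (hpoly D₀ k G) = 0)
        calc _ ≤ (BB.card + (Finset.univ.filter fun c : Idx m d → ZMod q =>
              eval (fun i => c (xd m d i)) (hpoly D₀ k G) = 0).card) * q :=
              Nat.mul_le_mul_right _ h2
          _ ≤ (C + k) * q ^ Fintype.card (Idx m d) := by
              rw [add_mul, add_mul]
              exact Nat.add_le_add hBB h1
          _ ≤ _ := Nat.mul_le_mul_right _ (Nat.le_add_right _ _)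
      · intro Φ hΦ c hc hcB
        exact hgood Φ hΦ c hc fun h => hcB (Finset.mem_union_left _ h)
      · intro s hs hsD
        have h1 := hG3 s (mem_support_iff.1 hs) hsD
        have h2 := Pool.Agent.Helper26.MQ.degree_succ s
        have h3 := Pool.Agent.Helper26.MQ.degree_succ s₀
        rw [hk, tail_degree, tail_degree]
        omega
      · intro s hs
        exact (le_totalDegree hs).trans hG2.le
      · intro c hc h0
        exact hc (Finset.mem_union_right _ (Finset.mem_filter.2 ⟨Finset.mem_univ _, h0⟩))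
    · refine ⟨BB, hBB.trans (Nat.mul_le_mul_right _ (by omega)), hgood, fun h =>
        absurd h hqA⟩
  choose BB hBB hgood hloc' using key
  set BB' : ∀ (q : ℕ) [Fact q.Prime], Finset (Idx m d → ZMod q) := fun q _ =>
    Finset.univ.filter fun c : Idx m d → ZMod q => aeval c RB = 0 with hBB'def
  have hBB' : ∀ (q : ℕ) [Fact q.Prime], 3 ≤ q → (BB' q).card * q ≤
      (C + k + C') * q ^ Fintype.card (Idx m d) := by
    intro q _ _
    exact (hC' q).trans (Nat.mul_le_mul_right _ (Nat.le_add_left _ _))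
  obtain ⟨P, K, hP, h⟩ := four_density m d (C + k + C') i₁ (primesFor A')
    (not_summable_primesFor A') (prime_of_mem_primesFor A') 3 R hR0 ε hε
  have hPp : ∀ k : {q // q ∈ P}, Fact (k.1).Prime := fun k => ⟨(hP k.1 k.2).2.1⟩
  choose Mq hMq using fun k : {q // q ∈ P} => @exists_Mod k.1 (hPp k) m
  set M : ℕ := ∏ k : {q // q ∈ P}, Mq k with hM
  have hMpos : 0 < M := Finset.prod_pos fun k _ => show 1 ≤ Mq k from And.left (hMq k)
  refine ⟨M, K, hMpos, fun B hB => ?_⟩
  obtain ⟨hfin, hcard⟩ := h BB (fun q _ _ => hBB q) BB' hBB' B hB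
  refine ⟨hfin, hcard.trans ?_⟩
  refine Nat.cast_le.2 (Set.ncard_le_ncard ?_ (hfin.subset fun Φ hΦ => hΦ.1))
  rintro Φ ⟨hΦ, ⟨q, hq, hF, c, hc, hpre, hred⟩, ⟨q', hq', hF', c', hc', hpre', hred'⟩, hRΦ⟩
  obtain ⟨hg, hesc⟩ := hgood q (toQp q Φ) hpre c hred hc
  obtain ⟨e, G, hG1, hG2, hG3, hG4⟩ := hloc' q (hP q hq).1
  obtain ⟨e', -⟩ := hloc' q' (hP q' hq').1
  have hModq : Mod q m M :=
    (hMq ⟨q, hq⟩).of_dvd (Finset.dvd_prod_of_mem _ (Finset.mem_univ _)) hMpos
  refine ⟨hΦ, ?_, ?_⟩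
  · intro α hα V
    obtain ⟨W, hW, hdim⟩ := glue q (Subfield.closure (A : Set ℂ)) e V
    have h1 : {n | ∀ F ∈ V, eval ((pm (toC Φ))^[n] α) F = 0} =
        {n | ∀ G ∈ W, eval ((pm (toQp q Φ))^[n] (fun i => e ⟨α i, hα i⟩)) G = 0} := by
      ext n
      exact hW Φ (fun i => ⟨α i, hα i⟩) n
    rw [h1]
    obtain ⟨h2, h3⟩ := padic_main (hP q hq).2.2 hd hModq hg (hesc (fun i => e ⟨α i, hα i⟩)) W
    exact ⟨h2, fun hV => h3 (hdim hV)⟩
  · intro α hα
    refine ⟨?_, ?_⟩
    · obtain ⟨n₀, hn₀⟩ := hesc (fun i => e ⟨α i, hα i⟩)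
      have h1 := fixed_local hd hpre hred hn₀ hG1 hG2 (hG4 c hc)
      refine finite_of_shift n₀ (h1.subset fun n hn => ?_)
      have h2 := hG3 Φ (fun i => ⟨α i, hα i⟩) (n + n₀) hn
      rw [Function.iterate_add_apply] at h2
      exact h2
    · intro F hF0 hFD
      obtain ⟨G', hG'0, hG'D, hG'⟩ := exists_down (Subfield.closure (A : Set ℂ)) F hF0
      have hx := hesc (fun i => e ⟨α i, hα i⟩)
      refine Set.Finite.subset (s := {n | eval ((pm (toQp q Φ))^[n]
        (fun i => e ⟨α i, hα i⟩)) (map e G') = 0}) ?_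
        fun n hn => hG' q e Φ (fun i => ⟨α i, hα i⟩) n hn
      by_cases hm : i₁ = 0
      · have hm0 : m = 0 := by
          have := congrArg Fin.val hm
          simpa [hi₁] using this
        subst hm0
        refine four_local_zero hd hg.toPre (map e G') ?_ hx
        exact fun h => hG'0 (map_injective e e.injective (by rw [h, map_zero]))
      · refine four_local hd hm e e' hg hpre' hred' ?_ ?_ hD hG'0 (hG'D.trans hFD) hx
        · intro κ _ ψ
          apply hRB hm
          intro h0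
          apply hc'
          rw [hBB'def]
          refine Finset.mem_filter.2 ⟨Finset.mem_univ _, ?_⟩
          apply ψ.injective
          rw [map_zero, ← h0]
          exact map_aeval_int ψ c' RB
        · apply hR
          intro h0
          apply hRΦ
          apply (algebraMap ℚ (PadicAlgCl q')).injective
          rw [map_zero, ← h0]
          exact map_aeval_int _ _ R

end Pool.Agent.Helper87.MQ
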