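import Pool.Agent.Helper87.MQ.Dim
import Pool.Agent.Helper87.MQ.Density

/-!
# From the complex numbers to the `q`-adic numbers
-/

set_option autoImplicit false

namespace Pool.Agent.Helper87.MQ

open MvPolynomial
open Pool.Agent.Helper86.MQ (pm)
open Pool.Agent.Helper86.DML (SSp)

/-- Base change to the complex numbers. -/
noncomputable def toC {m : ℕ} (Φ : Fin (m + 1) → MvPolynomial (Fin (m + 1)) ℚ) :
    Fin (m + 1) → MvPolynomial (Fin (m + 1)) ℂ :=
  fun i => MvPolynomial.map (algebraMap ℚ ℂ) (Φ i)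

section

variable {σ S T : Type*} [CommRing S] [CommRing T] [Algebra ℚ S] [Algebra ℚ T]

theorem hom_pm (φ : S →+* T) (Φ : σ → MvPolynomial σ ℚ) (x : σ → S) (i : σ) :
    φ (pm (fun i => MvPolynomial.map (algebraMap ℚ S) (Φ i)) x i) =
      pm (fun i => MvPolynomial.map (algebraMap ℚ T) (Φ i)) (fun i => φ (x i)) i := by
  simp only [pm]
  rw [eval_map, eval_map, eval₂_comp_left]
  congr 1
  exact Subsingleton.elim _ _

theorem hom_pm_iterate (φ : S →+* T) (Φ : σ → MvPolynomial σ ℚ) (x : σ → S) (n : ℕ) :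
    (fun i => φ ((pm (fun i => MvPolynomial.map (algebraMap ℚ S) (Φ i)))^[n] x i)) =
      (pm (fun i => MvPolynomial.map (algebraMap ℚ T) (Φ i)))^[n] (fun i => φ (x i)) := by
  induction n with
  | zero => rfl
  | succ n ih =>
    rw [Function.iterate_succ_apply', Function.iterate_succ_apply', ← ih]
    funext i
    exact hom_pm φ Φ _ i

end

/-- **Glue.** The return set of a closed set over `ℂ`, for starting points over a subfield `L`
embedded in `ℚ_q`, is the return set of a closed set over `ℚ_q`; dimension at most one is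
inherited. -/
theorem glue (q : ℕ) [Fact q.Prime] {m : ℕ} (L : Subfield ℂ) (e : L →+* ℚ_[q])
    (V : Set (MvPolynomial (Fin (m + 1)) ℂ)) :
    ∃ W : Set (MvPolynomial (Fin (m + 1)) ℚ_[q]),
      (∀ (Φ : Fin (m + 1) → MvPolynomial (Fin (m + 1)) ℚ) (α : Fin (m + 1) → L) (n : ℕ),
        (∀ F ∈ V, eval ((pm (toC Φ))^[n] (fun i => (α i : ℂ))) F = 0) ↔
          ∀ G ∈ W, eval ((pm (toQp q Φ))^[n] (fun i => e (α i))) G = 0) ∧
      ((∀ P : Ideal (MvPolynomial (Fin (m + 1)) ℂ), P.IsPrime → V ⊆ P →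
          Algebra.trdeg ℂ (MvPolynomial (Fin (m + 1)) ℂ ⧸ P) ≤ 1) →
        ∀ P : Ideal (MvPolynomial (Fin (m + 1)) ℚ_[q]), P.IsPrime → W ⊆ P →
          Algebra.trdeg ℚ_[q] (MvPolynomial (Fin (m + 1)) ℚ_[q] ⧸ P) ≤ 1) := by
  refine ⟨(fun G => map e G) '' descend L V, ?_, ?_⟩
  · intro Φ α n
    set β : Fin (m + 1) → L :=
      (pm (fun i => MvPolynomial.map (algebraMap ℚ L) (Φ i)))^[n] α with hβ
    have h1 : (pm (toC Φ))^[n] (fun i => (α i : ℂ)) = fun i => algebraMap L ℂ (β i) :=
      (hom_pm_iterate (algebraMap L ℂ) Φ α n).symm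
    have h2 : (pm (toQp q Φ))^[n] (fun i => e (α i)) = fun i => e (β i) :=
      (hom_pm_iterate e Φ α n).symm
    rw [h1, h2, descend_zero_iff]
    have h3 : ∀ G : MvPolynomial (Fin (m + 1)) L, eval (fun i => e (β i)) (map e G) =
        e (eval β G) := by
      intro G
      rw [eval_map]
      have := MvPolynomial.eval₂_comp_left e (RingHom.id L) β G
      rw [eval₂_id, RingHom.comp_id] at this
      rw [this]
      rfl
    constructor
    · rintro h _ ⟨G, hG, rfl⟩
      dsimp only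
      rw [h3, h G hG, map_zero]
    · intro h G hG
      have := h _ ⟨G, hG, rfl⟩
      dsimp only at this
      rw [h3] at this
      exact (map_eq_zero e).1 this
  · intro hV P hP hWP
    apply trdeg_of_pairDep
    apply pairDep_ascend e P
    apply pairDep_descend (L := L) (E := ℂ) V
    · intro P' hP' hVP'
      exact pairDep_of_trdeg P' (hV P' hP' hVP')
    · exact Ideal.comap_isPrime _ P
    · intro G hG
      exact hWP ⟨G, hG, rfl⟩

/-- Union of the classes modulo `M`. -/
theorem classes (M : ℕ) (hM : 1 ≤ M) (k₀ : ℕ) (R : Set ℕ)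
    (h : ∀ r < M, (∀ n, k₀ + (r + M * n) ∈ R) ∨ SSp {n | k₀ + (r + M * n) ∈ R}) :
    ∃ (T : Finset ℕ) (S : Set ℕ), SSp S ∧
      R = {n | (∃ a ∈ T, ∃ k, n = a + M * k) ∨ n ∈ S} := by
  classical
  set T : Finset ℕ := ((Finset.range M).filter (fun r => ∀ n, k₀ + (r + M * n) ∈ R)).image
    (fun r => k₀ + r) with hT
  set S : Set ℕ := {n | n ∈ R ∧ n < k₀} ∪ (⋃ r ∈ Finset.range M,
    {n | (¬ ∀ k, k₀ + (r + M * k) ∈ R) ∧ n ∈ R ∧ ∃ k, n = k₀ + r + M * k}) with hS
  refine ⟨T, S, ?_, ?_⟩
  · refine (SSp.of_bounded k₀ fun k hk => hk.2).union (SSp.iUnion_range fun r hr => ?_)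
    rcases h r hr with h1 | h1
    · refine SSp.empty.mono ?_
      rintro n ⟨hn, -⟩
      exact hn h1
    · refine (h1.reindex (k₀ + r) M hM).mono ?_
      rintro n ⟨-, hn, k, rfl⟩
      refine ⟨k, ?_, rfl⟩
      change k₀ + (r + M * k) ∈ R
      rwa [← add_assoc]
  · ext n
    constructor
    · intro hn
      by_cases hk : n < k₀
      · exact Or.inr (Or.inl ⟨hn, hk⟩)
      · push Not at hk
        have hr : (n - k₀) % M < M := Nat.mod_lt _ (by omega)
        have hdm := Nat.mod_add_div (n - k₀) M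
        have hnk : n = k₀ + (n - k₀) % M + M * ((n - k₀) / M) := by omega
        by_cases hall : ∀ k, k₀ + ((n - k₀) % M + M * k) ∈ R
        · left
          refine ⟨k₀ + (n - k₀) % M, ?_, (n - k₀) / M, hnk⟩
          rw [hT, Finset.mem_image]
          exact ⟨(n - k₀) % M, Finset.mem_filter.2 ⟨Finset.mem_range.2 hr, hall⟩, rfl⟩
        · right
          right
          simp only [Set.mem_iUnion]
          exact ⟨(n - k₀) % M, Finset.mem_range.2 hr, hall, hn, (n - k₀) / M, hnk⟩
    · rintro (⟨a, ha, k, rfl⟩ | hn)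
      · rw [hT, Finset.mem_image] at ha
        obtain ⟨r, hr, rfl⟩ := ha
        have := (Finset.mem_filter.1 hr).2 k
        rwa [← add_assoc] at this
      · rcases hn with hn | hn
        · exact hn.1
        · simp only [Set.mem_iUnion] at hn
          obtain ⟨r, _, _, hn, _⟩ := hn
          exact hn

end Pool.Agent.Helper87.MQ
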