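import Pool.Agent.Helper87.MQ.Glue
import Pool.Agent.Helper87.MQ.FieldEmb

/-!
# A fixed hypersurface over `ℂ` and its equations over the `q`-adic integers
-/

set_option autoImplicit false

namespace Pool.Agent.Helper87.MQ

open MvPolynomial
open Pool.Agent.Helper86.MQ (pm)
open Pool.Agent.Helper87.DMLP (primesFor)

/-- Compatible embeddings of the finitely generated ring and of its field of fractions. -/
theorem exists_field_emb_compat (A : Finset ℂ) (q : ℕ) (h : q ∈ primesFor A) :
    ∃ _ : Fact q.Prime, ∃ (ι : Subring.closure (A : Set ℂ) →+* ℤ_[q])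
      (e : Subfield.closure (A : Set ℂ) →+* ℚ_[q]),
      ∀ (r : ℂ) (hr : r ∈ Subring.closure (A : Set ℂ)) (hr' : r ∈ Subfield.closure (A : Set ℂ)),
        e ⟨r, hr'⟩ = (ι ⟨r, hr⟩ : ℚ_[q]) := by
  obtain ⟨hq, ι, hι⟩ := h
  refine ⟨hq, ι, ?_⟩
  have hle : Subring.closure (A : Set ℂ) ≤ (Subfield.closure (A : Set ℂ)).toSubring :=
    Subfield.subring_closure_le _
  letI alg : Algebra (Subring.closure (A : Set ℂ)) (Subfield.closure (A : Set ℂ)) :=
    (Subring.inclusion hle).toAlgebra
  have hinj : Function.Injective (algebraMap (Subring.closure (A : Set ℂ))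
      (Subfield.closure (A : Set ℂ))) := Subring.inclusion_injective hle
  haveI : FaithfulSMul (Subring.closure (A : Set ℂ)) (Subfield.closure (A : Set ℂ)) :=
    (faithfulSMul_iff_algebraMap_injective _ _).2 hinj
  haveI : IsFractionRing (Subring.closure (A : Set ℂ)) (Subfield.closure (A : Set ℂ)) := by
    apply IsFractionRing.of_field
    rintro ⟨z, hz⟩
    obtain ⟨x, hx, y, hy, hxy⟩ := Subfield.mem_closure_iff.1 hz
    refine ⟨⟨x, hx⟩, ⟨y, hy⟩, ?_⟩
    apply Subtype.ext
    exact hxy.symm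
  have h1 : Function.Injective ((PadicInt.Coe.ringHom (p := q)).comp ι) :=
    Function.Injective.comp (g := PadicInt.Coe.ringHom (p := q)) Subtype.val_injective hι
  refine ⟨IsFractionRing.lift h1, ?_⟩
  intro r hr hr'
  have h2 := IsFractionRing.lift_algebraMap (K := Subfield.closure (A : Set ℂ)) h1 ⟨r, hr⟩
  exact h2

/-- A nonzero polynomial has a monomial of top degree with maximal exponent of the first variable. -/
theorem exists_top {m : ℕ} {L : Type*} [Field L] (G : MvPolynomial (Fin (m + 1)) L) (hG : G ≠ 0) :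
    ∃ s, coeff s G ≠ 0 ∧ s.degree = G.totalDegree ∧
      ∀ s', coeff s' G ≠ 0 → s'.degree = G.totalDegree → s' 0 ≤ s 0 := by
  classical
  have hne : (G.support.filter (fun s => s.degree = G.totalDegree)).Nonempty := by
    obtain ⟨s, hs, hs2⟩ := Finset.exists_mem_eq_sup G.support (support_nonempty.2 hG)
      (fun s => s.degree)
    exact ⟨s, Finset.mem_filter.2 ⟨hs, hs2.symm⟩⟩
  obtain ⟨s, hs, hmax⟩ := Finset.exists_max_image _ (fun s : Fin (m + 1) →₀ ℕ => s 0) hne
  rw [Finset.mem_filter, mem_support_iff] at hs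
  refine ⟨s, hs.1, hs.2, fun s' h1 h2 => hmax s' ?_⟩
  rw [Finset.mem_filter, mem_support_iff]
  exact ⟨h1, h2⟩

theorem exists_local_eq (A : Finset ℂ) {m : ℕ} (F0 : MvPolynomial (Fin (m + 1)) ℂ) (hF0 : F0 ≠ 0) :
    ∃ (A' : Finset ℂ) (s : Fin (m + 1) →₀ ℕ), A ⊆ A' ∧
      Subfield.closure (A' : Set ℂ) = Subfield.closure (A : Set ℂ) ∧
      ∀ q ∈ primesFor A', ∃ _ : Fact q.Prime, ∃ (e : Subfield.closure (A : Set ℂ) →+* ℚ_[q])
        (G : MvPolynomial (Fin (m + 1)) ℤ_[q]), coeff s G = 1 ∧ G.totalDegree = s.degree ∧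
        (∀ s', coeff s' G ≠ 0 → s'.degree = s.degree → s' 0 ≤ s 0) ∧
        ∀ (Φ : Fin (m + 1) → MvPolynomial (Fin (m + 1)) ℚ)
          (α : Fin (m + 1) → Subfield.closure (A : Set ℂ)) (n : ℕ),
          eval ((pm (toC Φ))^[n] (fun i => (α i : ℂ))) F0 = 0 →
          eval ((pm (toQp q Φ))^[n] (fun i => e (α i)))
            (map (PadicInt.Coe.ringHom (p := q)) G) = 0 := by
  classical
  obtain ⟨s0, hs0⟩ := ne_zero_iff.1 hF0
  have hlam : ∃ lam : ℂ →ₗ[Subfield.closure (A : Set ℂ)] Subfield.closure (A : Set ℂ),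
      lam (coeff s0 F0) ≠ 0 := by
    by_contra hl
    push Not at hl
    exact hs0 ((Module.forall_dual_apply_eq_zero_iff (Subfield.closure (A : Set ℂ)) _).1 hl)
  obtain ⟨lam, hlam⟩ := hlam
  have hG0 : cw lam F0 ≠ 0 := by
    intro h0
    apply hlam
    rw [← coeff_cw, h0, coeff_zero]
  obtain ⟨s, hs1, hs2, hs3⟩ := exists_top (cw lam F0) hG0
  set G1 : MvPolynomial (Fin (m + 1)) (Subfield.closure (A : Set ℂ)) :=
    C (coeff s (cw lam F0))⁻¹ * cw lam F0 with hG1
  have hG1c : ∀ t, coeff t G1 = (coeff s (cw lam F0))⁻¹ * coeff t (cw lam F0) := by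
    intro t
    rw [hG1, coeff_C_mul]
  have hG1s : coeff s G1 = 1 := by
    rw [hG1c, inv_mul_cancel₀ hs1]
  have hG1ne : ∀ t, coeff t G1 ≠ 0 → coeff t (cw lam F0) ≠ 0 := by
    intro t ht h0
    apply ht
    rw [hG1c, h0, mul_zero]
  set A' : Finset ℂ := A ∪ G1.support.image (fun t => ((coeff t G1 : _) : ℂ)) with hA'
  have hcl : Subfield.closure (A' : Set ℂ) = Subfield.closure (A : Set ℂ) := by
    apply le_antisymm
    · rw [Subfield.closure_le, hA']
      intro x hx
      rw [Finset.mem_coe, Finset.mem_union, Finset.mem_image] at hx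
      rcases hx with hx | ⟨t, _, rfl⟩
      · exact Subfield.subset_closure hx
      · exact (coeff t G1).2
    · apply Subfield.closure_mono
      intro x hx
      exact Finset.mem_union_left _ hx
  have hcf : ∀ t, ((coeff t G1 : Subfield.closure (A : Set ℂ)) : ℂ) ∈
      Subring.closure (A' : Set ℂ) := by
    intro t
    by_cases ht : t ∈ G1.support
    · apply Subring.subset_closure
      exact Finset.mem_union_right _ (Finset.mem_image_of_mem _ ht)
    · rw [notMem_support_iff.1 ht]
      exact Subring.zero_mem _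
  refine ⟨A', s, Finset.subset_union_left, hcl, ?_⟩
  intro q hq
  obtain ⟨hF, ι, e', he'⟩ := exists_field_emb_compat A' q hq
  set e : Subfield.closure (A : Set ℂ) →+* ℚ_[q] :=
    e'.comp (Subfield.inclusion hcl.ge) with he
  set G : MvPolynomial (Fin (m + 1)) ℤ_[q] :=
    ∑ t ∈ G1.support, monomial t (ι ⟨((coeff t G1 : Subfield.closure (A : Set ℂ)) : ℂ), hcf t⟩) with hG
  have hGc : ∀ t, coeff t G = ι ⟨((coeff t G1 : Subfield.closure (A : Set ℂ)) : ℂ), hcf t⟩ := by
    intro t
    rw [hG, coeff_sum]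
    simp only [coeff_monomial]
    rw [Finset.sum_ite_eq']
    split_ifs with h
    · rfl
    · have h1 : (⟨((coeff t G1 : Subfield.closure (A : Set ℂ)) : ℂ), hcf t⟩ :
          Subring.closure (A' : Set ℂ)) = 0 := by
        apply Subtype.ext
        change ((coeff t G1 : Subfield.closure (A : Set ℂ)) : ℂ) = 0
        rw [notMem_support_iff.1 h]
        rfl
      rw [h1, map_zero]
  have hGs : coeff s G = 1 := by
    rw [hGc]
    have h1 : (⟨((coeff s G1 : Subfield.closure (A : Set ℂ)) : ℂ), hcf s⟩ :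
        Subring.closure (A' : Set ℂ)) = 1 := by
      apply Subtype.ext
      change ((coeff s G1 : Subfield.closure (A : Set ℂ)) : ℂ) = 1
      rw [hG1s]
      rfl
    rw [h1, map_one]
  have hGne : ∀ t, coeff t G ≠ 0 → coeff t (cw lam F0) ≠ 0 := by
    intro t ht
    apply hG1ne
    intro h0
    apply ht
    rw [hGc]
    have h1 : (⟨((coeff t G1 : Subfield.closure (A : Set ℂ)) : ℂ), hcf t⟩ :
        Subring.closure (A' : Set ℂ)) = 0 := by
      apply Subtype.ext
      change ((coeff t G1 : Subfield.closure (A : Set ℂ)) : ℂ) = 0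
      rw [h0]
      rfl
    rw [h1, map_zero]
  have hmap : map (PadicInt.Coe.ringHom (p := q)) G = map e G1 := by
    ext t
    rw [coeff_map, coeff_map, hGc, he]
    exact (he' _ (hcf t) _).symm
  refine ⟨hF, e, G, hGs, ?_, ?_, ?_⟩
  · apply le_antisymm
    · apply totalDegree_le_of_coeff
      intro t ht
      by_contra h0
      apply ht
      rw [hs2]
      exact le_totalDegree (mem_support_iff.2 (hGne t h0))
    · have h1 : s ∈ G.support := by
        rw [mem_support_iff, hGs]
        exact one_ne_zero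
      exact le_totalDegree h1
  · intro t ht1 ht2
    exact hs3 t (hGne t ht1) (by rw [ht2, hs2])
  · intro Φ α n h0
    set β : Fin (m + 1) → Subfield.closure (A : Set ℂ) :=
      (pm (fun i => MvPolynomial.map (algebraMap ℚ (Subfield.closure (A : Set ℂ))) (Φ i)))^[n] α
      with hβ
    have h1 : (pm (toC Φ))^[n] (fun i => (α i : ℂ)) =
        fun i => algebraMap (Subfield.closure (A : Set ℂ)) ℂ (β i) :=
      (hom_pm_iterate (algebraMap (Subfield.closure (A : Set ℂ)) ℂ) Φ α n).symm
    have h2 : (pm (toQp q Φ))^[n] (fun i => e (α i)) = fun i => e (β i) :=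
      (hom_pm_iterate e Φ α n).symm
    rw [h1] at h0
    have h3 : eval β (cw lam F0) = 0 := by
      rw [eval_cw, h0, map_zero]
    have h4 : eval β G1 = 0 := by
      rw [hG1, map_mul, h3, mul_zero]
    rw [h2, hmap, eval_map]
    have h5 := MvPolynomial.eval₂_comp_left e (RingHom.id _) β G1
    rw [eval₂_id, RingHom.comp_id] at h5
    have h6 : eval₂ e (fun i => e (β i)) G1 = e (eval β G1) := h5.symm
    rw [h6, h4, map_zero]

end Pool.Agent.Helper87.MQ
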