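import Pool.Agent.Helper87.MQ.Count

/-!
# Density for arrays of pairs (numerator, denominator)
-/

set_option autoImplicit false

namespace Pool.Agent.Helper87.MQ

open Finset

/-- Pairs `(a, b)` with `|a| ≤ B` and `1 ≤ b ≤ B`. -/
noncomputable def pairBox (B : ℕ) : Finset (ℤ × ℤ) :=
  Finset.Ico (-(B : ℤ)) (-(B : ℤ) + ((2 * B + 1 : ℕ) : ℤ)) ×ˢ Finset.Ico (1 : ℤ) (1 + (B : ℤ))

theorem mem_pairBox (B : ℕ) (x : ℤ × ℤ) :
    x ∈ pairBox B ↔ |x.1| ≤ B ∧ 1 ≤ x.2 ∧ x.2 ≤ B := by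
  rw [pairBox, Finset.mem_product, Finset.mem_Ico, Finset.mem_Ico, abs_le]
  push_cast
  constructor
  · rintro ⟨⟨h1, h2⟩, h3, h4⟩
    exact ⟨⟨h1, by linarith⟩, h3, by linarith⟩
  · rintro ⟨⟨h1, h2⟩, h3, h4⟩
    exact ⟨⟨h1, by linarith⟩, h3, by linarith⟩

theorem card_pairBox (B : ℕ) : (pairBox B).card = (2 * B + 1) * B := by
  rw [pairBox, Finset.card_product, Int.card_Ico, Int.card_Ico]
  congr 1
  · have : -(B : ℤ) + ((2 * B + 1 : ℕ) : ℤ) - -(B : ℤ) = ((2 * B + 1 : ℕ) : ℤ) := by ring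
    rw [this, Int.toNat_natCast]
  · have : (1 : ℤ) + (B : ℤ) - 1 = ((B : ℕ) : ℤ) := by ring
    rw [this, Int.toNat_natCast]

/-- Finite sets of large primes of `Pri` with large reciprocal sum. -/
theorem exists_primes_large (Pri : Set ℕ) (hdiv : ¬ Summable (fun q : Pri => (1 : ℝ) / (q : ℕ)))
    (hPri : ∀ q ∈ Pri, q.Prime) (M₀ : ℕ) (A : ℝ) :
    ∃ P : Finset ℕ, (∀ q ∈ P, q ∈ Pri ∧ M₀ ≤ q) ∧ A ≤ ∑ q ∈ P, (1 : ℝ) / q := by
  classical
  obtain ⟨P, hP, hsum⟩ := Pool.Agent.Helper87.DMLP.exists_primes_sum_of Pri hdiv hPri (A + M₀)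
  refine ⟨P.filter (fun q => M₀ ≤ q), ?_, ?_⟩
  · intro q hq
    rw [Finset.mem_filter] at hq
    exact ⟨(hP q hq.1).1, hq.2⟩
  · have h1 : ∑ q ∈ P, (1 : ℝ) / q = ∑ q ∈ P.filter (fun q => M₀ ≤ q), (1 : ℝ) / q +
        ∑ q ∈ P.filter (fun q => ¬ M₀ ≤ q), (1 : ℝ) / q :=
      (Finset.sum_filter_add_sum_filter_not _ _ _).symm
    have h2 : ∑ q ∈ P.filter (fun q => ¬ M₀ ≤ q), (1 : ℝ) / q ≤ M₀ := by
      calc ∑ q ∈ P.filter (fun q => ¬ M₀ ≤ q), (1 : ℝ) / q
          ≤ ∑ q ∈ P.filter (fun q => ¬ M₀ ≤ q), (1 : ℝ) := by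
            refine Finset.sum_le_sum fun q hq => ?_
            rw [Finset.mem_filter] at hq
            have hq1 : (1 : ℝ) ≤ q := by
              have := (hPri q (hP q hq.1).1).one_lt
              exact_mod_cast this.le
            rw [div_le_one (by linarith)]
            exact hq1
        _ = ((P.filter (fun q => ¬ M₀ ≤ q)).card : ℝ) := by simp
        _ ≤ M₀ := by
            have h3 : P.filter (fun q => ¬ M₀ ≤ q) ⊆ Finset.range M₀ := by
              intro q hq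
              rw [Finset.mem_filter] at hq
              rw [Finset.mem_range]
              omega
            have h4 := Finset.card_le_card h3
            rw [Finset.card_range] at h4
            exact_mod_cast h4
    linarith

section

variable (P : Finset ℕ)

/-- The residues of a pair modulo the squares of the elements of `P`. -/
def resid (x : ℤ × ℤ) : ∀ k : {q // q ∈ P}, ZMod (k.1 ^ 2) × ZMod (k.1 ^ 2) :=
  fun _ => ((x.1 : ZMod _), (x.2 : ZMod _))

theorem card_resid (hP : ∀ q ∈ P, q.Prime) (B : ℕ)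
    (hB : (∏ k : {q // q ∈ P}, k.1 ^ 2) ≤ B)
    [DecidableEq (∀ k : {q // q ∈ P}, ZMod (k.1 ^ 2) × ZMod (k.1 ^ 2))]
    (y : ∀ k : {q // q ∈ P}, ZMod (k.1 ^ 2) × ZMod (k.1 ^ 2)) :
    (((2 * B + 1 : ℕ) : ℝ) / (∏ k : {q // q ∈ P}, k.1 ^ 2 : ℕ) - 1) *
      ((B : ℝ) / (∏ k : {q // q ∈ P}, k.1 ^ 2 : ℕ) - 1) ≤
      (((pairBox B).filter (fun x => resid P x = y)).card : ℝ) := by
  classical
  set a : {q // q ∈ P} → ℕ := fun k => k.1 ^ 2 with ha
  have hcop : Pairwise (Function.onFun Nat.Coprime a) := by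
    intro k l hkl
    change Nat.Coprime (k.1 ^ 2) (l.1 ^ 2)
    apply Nat.Coprime.pow
    rw [Nat.coprime_primes (hP k.1 k.2) (hP l.1 l.2)]
    exact fun h => hkl (Subtype.ext h)
  set Q : ℕ := ∏ k, a k with hQ
  have hQpos : 0 < Q := Finset.prod_pos fun k _ => pow_pos (hP k.1 k.2).pos 2
  set e := ZMod.prodEquivPi a hcop with he
  set r : ZMod Q := e.symm (fun k => (y k).1) with hr
  set r' : ZMod Q := e.symm (fun k => (y k).2) with hr'
  have hsub : ((Finset.Ico (-(B : ℤ)) (-(B : ℤ) + ((2 * B + 1 : ℕ) : ℤ))).filter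
      (fun x : ℤ => (x : ZMod Q) = r)) ×ˢ
      ((Finset.Ico (1 : ℤ) (1 + (B : ℤ))).filter (fun x : ℤ => (x : ZMod Q) = r')) ⊆
      (pairBox B).filter (fun x => resid P x = y) := by
    rintro ⟨x, x'⟩ hx
    rw [Finset.mem_product, Finset.mem_filter, Finset.mem_filter] at hx
    rw [Finset.mem_filter, pairBox, Finset.mem_product]
    refine ⟨⟨hx.1.1, hx.2.1⟩, ?_⟩
    have h1 : e (x : ZMod Q) = fun k => (y k).1 := by
      have := hx.1.2
      dsimp only at this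
      rw [this, hr, RingEquiv.apply_symm_apply]
    have h2 : e (x' : ZMod Q) = fun k => (y k).2 := by
      have := hx.2.2
      dsimp only at this
      rw [this, hr', RingEquiv.apply_symm_apply]
    rw [map_intCast] at h1 h2
    funext k
    refine Prod.ext ?_ ?_
    · exact congrFun h1 k
    · exact congrFun h2 k
  have h1 := Finset.card_le_card hsub
  rw [Finset.card_product] at h1
  have h2 := card_class Q hQpos (-(B : ℤ)) (2 * B + 1) r
  have h3 := card_class Q hQpos (1 : ℤ) B r'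
  have hQ1 : (0 : ℝ) < Q := by exact_mod_cast hQpos
  have hBQ : (Q : ℝ) ≤ B := by exact_mod_cast hB
  have h4 : (0 : ℝ) ≤ (B : ℝ) / Q - 1 := by
    rw [sub_nonneg, le_div_iff₀ hQ1]
    linarith
  refine le_trans (mul_le_mul h2 h3 h4 (Nat.cast_nonneg _)) ?_
  exact_mod_cast h1

end

/-- **Density for arrays.** -/
theorem arrays_density (J : Type) [Fintype J] [DecidableEq J] (c : ℝ) (hc : 0 < c)
    (Pri : Set ℕ) (hdiv : ¬ Summable (fun q : Pri => (1 : ℝ) / (q : ℕ))) (hPri : ∀ q ∈ Pri, q.Prime)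
    (M₀ : ℕ) (ε : ℝ) (hε : 0 < ε) :
    ∃ (P : Finset ℕ) (K : ℕ), (∀ q ∈ P, q ∈ Pri ∧ q.Prime ∧ M₀ ≤ q) ∧
      ∀ GE : ∀ q : ℕ, Finset (J → ZMod (q ^ 2) × ZMod (q ^ 2)),
        (∀ q ∈ P, c / q * ((q : ℝ) ^ 4) ^ Fintype.card J ≤ (GE q).card) →
      ∀ B : ℕ, K ≤ B →
      (1 - ε) * ((pairBox B).card : ℝ) ^ Fintype.card J ≤
        (({v : J → ℤ × ℤ | (∀ j, v j ∈ pairBox B) ∧ ∃ q ∈ P,
          (fun j => (((v j).1 : ZMod (q ^ 2)), ((v j).2 : ZMod (q ^ 2)))) ∈ GE q} :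
          Set (J → ℤ × ℤ)).ncard : ℝ) := by
  classical
  obtain ⟨P, hP, hsum⟩ := exists_primes_large Pri hdiv hPri M₀ (-Real.log (ε / 2) / c)
  have hPp : ∀ q ∈ P, q.Prime := fun q hq => hPri q (hP q hq).1
  set Q : ℕ := ∏ k : {q // q ∈ P}, k.1 ^ 2 with hQ
  have hQpos : 0 < Q := Finset.prod_pos fun k _ => pow_pos (hPp k.1 k.2).pos 2
  have hQ1 : (0 : ℝ) < Q := by exact_mod_cast hQpos
  refine ⟨P, max Q ⌈(4 * Fintype.card J * Q : ℝ) / ε⌉₊, fun q hq => ⟨(hP q hq).1, hPp q hq,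
    (hP q hq).2⟩, ?_⟩
  intro GE hGE B hB
  have hBQ : (Q : ℕ) ≤ B := (le_max_left _ _).trans hB
  have hBQ' : (Q : ℝ) ≤ B := by exact_mod_cast hBQ
  have hB2 : (4 * Fintype.card J * Q : ℝ) / ε ≤ B :=
    (Nat.le_ceil _).trans (by exact_mod_cast (le_max_right _ _).trans hB)
  haveI : ∀ k : {q // q ∈ P}, NeZero (k.1 ^ 2) := fun k =>
    ⟨(pow_pos (hPp k.1 k.2).pos 2).ne'⟩
  set G : Finset (J → ∀ k : {q // q ∈ P}, ZMod (k.1 ^ 2) × ZMod (k.1 ^ 2)) :=
    Finset.univ.filter (fun w => ∃ k, (fun j => w j k) ∈ GE k.1) with hG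
  have h1 := card_compl_ge (J := J) (fun k : {q // q ∈ P} => ZMod (k.1 ^ 2) × ZMod (k.1 ^ 2))
    (fun k => c / (k.1 : ℝ)) (fun k => GE k.1) (by
      intro k
      have h2 := hGE k.1 k.2
      refine le_trans (le_of_eq ?_) h2
      congr 1
      rw [Fintype.card_fun, Fintype.card_prod, ZMod.card]
      push_cast
      ring)
  have h2 := card_pi_ge (J := J) (pairBox B) (resid P)
    ((((2 * B + 1 : ℕ) : ℝ) / Q - 1) * ((B : ℝ) / Q - 1)) (by
      apply mul_nonneg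
      · rw [sub_nonneg, le_div_iff₀ hQ1]
        push_cast
        linarith
      · rw [sub_nonneg, le_div_iff₀ hQ1]
        linarith) (card_resid P hPp B hBQ) G
  have h3 : (((Fintype.piFinset (fun _ : J => pairBox B)).filter
      (fun v => (fun j => resid P (v j)) ∈ G)).card : ℝ) ≤
      (({v : J → ℤ × ℤ | (∀ j, v j ∈ pairBox B) ∧ ∃ q ∈ P,
          (fun j => (((v j).1 : ZMod (q ^ 2)), ((v j).2 : ZMod (q ^ 2)))) ∈ GE q} :
          Set (J → ℤ × ℤ)).ncard : ℝ) := by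
    rw [← Set.ncard_coe_finset]
    have h4 : ({v : J → ℤ × ℤ | (∀ j, v j ∈ pairBox B) ∧ ∃ q ∈ P,
          (fun j => (((v j).1 : ZMod (q ^ 2)), ((v j).2 : ZMod (q ^ 2)))) ∈ GE q} :
          Set (J → ℤ × ℤ)).Finite :=
      (Finset.finite_toSet (Fintype.piFinset (fun _ : J => pairBox B))).subset (fun v hv => by
        rw [Finset.mem_coe, Fintype.mem_piFinset]
        exact hv.1)
    have h5 := Set.ncard_le_ncard (s := ((((Fintype.piFinset (fun _ : J => pairBox B)).filter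
      (fun v => (fun j => resid P (v j)) ∈ G)) : Finset (J → ℤ × ℤ)) : Set (J → ℤ × ℤ))) (by
        intro v hv
        rw [Finset.mem_coe, Finset.mem_filter, Fintype.mem_piFinset, hG, Finset.mem_filter] at hv
        obtain ⟨hv1, _, k, hk⟩ := hv
        exact ⟨hv1, k.1, k.2, hk⟩) h4
    exact_mod_cast h5
  refine le_trans ?_ (h2.trans h3)
  -- the analytic estimate
  have hYcard : (Fintype.card (J → ∀ k : {q // q ∈ P}, ZMod (k.1 ^ 2) × ZMod (k.1 ^ 2)) : ℝ) =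
      ((Q : ℝ) ^ 2) ^ Fintype.card J := by
    rw [Fintype.card_fun, Fintype.card_pi]
    push_cast
    congr 1
    rw [hQ]
    push_cast
    rw [← Finset.prod_pow]
    refine Finset.prod_congr rfl fun k _ => ?_
    rw [Fintype.card_prod, ZMod.card]
    push_cast
    ring
  rw [hYcard] at h1
  have hexp : Real.exp (-∑ k : {q // q ∈ P}, c / (k.1 : ℝ)) ≤ ε / 2 := by
    have h3 : ∑ k : {q // q ∈ P}, c / (k.1 : ℝ) = c * ∑ q ∈ P, (1 : ℝ) / q := by
      rw [Finset.mul_sum, ← Finset.sum_coe_sort P]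
      refine Finset.sum_congr rfl fun k _ => ?_
      rw [mul_one_div]
    rw [h3]
    have h4 : -Real.log (ε / 2) ≤ c * ∑ q ∈ P, (1 : ℝ) / q := by
      rw [div_le_iff₀ hc] at hsum
      linarith
    calc Real.exp (-(c * ∑ q ∈ P, (1 : ℝ) / q)) ≤ Real.exp (Real.log (ε / 2)) := by
          apply Real.exp_le_exp.mpr; linarith
      _ = ε / 2 := Real.exp_log (by positivity)
  have hG1 : (1 - ε / 2) * ((Q : ℝ) ^ 2) ^ Fintype.card J ≤ (G.card : ℝ) := by
    refine le_trans ?_ h1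
    apply mul_le_mul_of_nonneg_right _ (by positivity)
    linarith
  set n := Fintype.card J with hn
  set t : ℝ := (((2 * B + 1 : ℕ) : ℝ) / Q - 1) * ((B : ℝ) / Q - 1) with ht
  have ht0 : 0 ≤ t := by
    rw [ht]
    apply mul_nonneg
    · rw [sub_nonneg, le_div_iff₀ hQ1]
      push_cast
      linarith
    · rw [sub_nonneg, le_div_iff₀ hQ1]
      linarith
  have hBpos : (0 : ℝ) < B := lt_of_lt_of_le hQ1 hBQ'
  have hcard : ((pairBox B).card : ℝ) = (2 * B + 1) * B := by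
    rw [card_pairBox]
    push_cast
    ring
  -- `Q² t ≥ (2B+1) B (1 - 2Q/B)`
  have hQt : ((pairBox B).card : ℝ) * (1 - 2 * Q / B) ≤ (Q : ℝ) ^ 2 * t := by
    rw [hcard, ht]
    push_cast
    have e1 : (Q : ℝ) ^ 2 * (((2 * (B : ℝ) + 1) / Q - 1) * ((B : ℝ) / Q - 1)) =
        (2 * B + 1 - Q) * (B - Q) := by
      field_simp
    rw [e1]
    have e2 : (2 * (B : ℝ) + 1) * B * (1 - 2 * Q / B) = (2 * B + 1) * (B - 2 * Q) := by
      field_simp
    rw [e2]
    nlinarith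
  have hC0 : (0 : ℝ) ≤ ((pairBox B).card : ℝ) ^ n := by positivity
  by_cases hε1 : ε ≤ 1
  · have hx : (0 : ℝ) ≤ 1 - ε / 2 := by linarith
    by_cases hn0 : n = 0
    · -- no coordinates
      simp only [hn0, pow_zero, mul_one] at hG1 ⊢
      linarith
    · have hn1 : (1 : ℝ) ≤ n := by exact_mod_cast Nat.one_le_iff_ne_zero.2 hn0
      have hB3 : 4 * n * Q ≤ B * ε := by
        rw [div_le_iff₀ hε] at hB2
        exact hB2
      have hy0 : (0 : ℝ) ≤ 1 - 2 * Q / B := by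
        rw [sub_nonneg, div_le_one hBpos]
        nlinarith
      have hbern : 1 - ε / 2 ≤ (1 - 2 * (Q : ℝ) / B) ^ n := by
        have h6 := one_add_mul_le_pow (a := -(2 * (Q : ℝ) / B)) (by linarith) n
        have h7 : 1 - ε / 2 ≤ 1 + (n : ℝ) * -(2 * (Q : ℝ) / B) := by
          have h8 : (n : ℝ) * (2 * (Q : ℝ) / B) ≤ ε / 2 := by
            rw [mul_div_assoc', div_le_iff₀ hBpos]
            nlinarith
          linarith
        have h8 : (1 : ℝ) + -(2 * (Q : ℝ) / B) = 1 - 2 * (Q : ℝ) / B := by ring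
        rw [h8] at h6
        exact h7.trans h6
      calc (1 - ε) * ((pairBox B).card : ℝ) ^ n
          ≤ (1 - ε / 2) * ((1 - ε / 2) * ((pairBox B).card : ℝ) ^ n) := by
            nlinarith [mul_nonneg hC0 (sq_nonneg ε)]
        _ ≤ (1 - ε / 2) * ((1 - 2 * (Q : ℝ) / B) ^ n * ((pairBox B).card : ℝ) ^ n) := by
            apply mul_le_mul_of_nonneg_left _ hx
            exact mul_le_mul_of_nonneg_right hbern hC0
        _ = (1 - ε / 2) * (((pairBox B).card : ℝ) * (1 - 2 * (Q : ℝ) / B)) ^ n := by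
            rw [mul_pow]; ring
        _ ≤ (1 - ε / 2) * ((Q : ℝ) ^ 2 * t) ^ n := by
            apply mul_le_mul_of_nonneg_left _ hx
            exact pow_le_pow_left₀ (mul_nonneg (Nat.cast_nonneg _) hy0) hQt n
        _ = ((1 - ε / 2) * ((Q : ℝ) ^ 2) ^ n) * t ^ n := by rw [mul_pow]; ring
        _ ≤ (G.card : ℝ) * t ^ n := by
            exact mul_le_mul_of_nonneg_right hG1 (pow_nonneg ht0 n)
  · push Not at hε1
    have h6 : (1 - ε) * ((pairBox B).card : ℝ) ^ n ≤ 0 := by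
      apply mul_nonpos_of_nonpos_of_nonneg _ hC0
      linarith
    exact h6.trans (mul_nonneg (Nat.cast_nonneg _) (pow_nonneg ht0 n))

end Pool.Agent.Helper87.MQ
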