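import Pool.Agent.Helper87.MQ.Local

/-!
# Fractions of bounded height
-/

set_option autoImplicit false

namespace Pool.Agent.Helper87.MQ

open Finset

theorem sum_inv_sq (B : ℕ) (hB : 2 ≤ B) :
    ∑ n ∈ Finset.Icc 2 B, (1 : ℝ) / (n : ℝ) ^ 2 ≤ 3 / 4 - 1 / B + 0 := by
  induction B, hB using Nat.le_induction with
  | base => norm_num
  | succ B hB ih =>
    rw [Finset.sum_Icc_succ_top (by omega)]
    have hB' : (2 : ℝ) ≤ B := by exact_mod_cast hB
    have h1 : (1 : ℝ) / ((B + 1 : ℕ) : ℝ) ^ 2 ≤ 1 / B - 1 / ((B + 1 : ℕ) : ℝ) := by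
      push_cast
      rw [div_sub_div _ _ (by linarith) (by linarith), div_le_div_iff₀ (by positivity)
        (by positivity)]
      nlinarith
    linarith

/-- At least a quarter of the pairs is coprime. -/
theorem card_coprime (B : ℕ) :
    B ^ 2 ≤ 4 * (((Finset.Ioc 0 B) ×ˢ (Finset.Ioc 0 B)).filter
      (fun x : ℕ × ℕ => Nat.Coprime x.1 x.2)).card := by
  classical
  rcases Nat.lt_or_ge B 2 with hB | hB
  · interval_cases B
    · simp
    · decide
  set T := (Finset.Ioc 0 B) ×ˢ (Finset.Ioc 0 B) with hT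
  have h1 : (T.filter (fun x : ℕ × ℕ => Nat.Coprime x.1 x.2)).card +
      (T.filter (fun x : ℕ × ℕ => ¬ Nat.Coprime x.1 x.2)).card = B ^ 2 := by
    rw [Finset.card_filter_add_card_filter_not, hT, Finset.card_product, Nat.card_Ioc]
    rw [Nat.sub_zero]
    ring
  have h2 : T.filter (fun x : ℕ × ℕ => ¬ Nat.Coprime x.1 x.2) ⊆
      (Finset.Icc 2 B).biUnion (fun n => ((Finset.Ioc 0 B).filter (fun x => n ∣ x)) ×ˢ
        ((Finset.Ioc 0 B).filter (fun x => n ∣ x))) := by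
    rintro ⟨x, y⟩ h
    rw [Finset.mem_filter, hT, Finset.mem_product] at h
    obtain ⟨⟨hx, hy⟩, hxy⟩ := h
    dsimp only at hx hy hxy
    rw [Finset.mem_biUnion]
    have hx' := Finset.mem_Ioc.1 hx
    have h3 : Nat.gcd x y ≤ x := Nat.gcd_le_left y hx'.1
    have h4 : 0 < Nat.gcd x y := Nat.gcd_pos_of_pos_left y hx'.1
    have h5 : Nat.gcd x y ≠ 1 := hxy
    refine ⟨Nat.gcd x y, ?_, ?_⟩
    · rw [Finset.mem_Icc]
      omega
    · rw [Finset.mem_product, Finset.mem_filter, Finset.mem_filter]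
      exact ⟨⟨hx, Nat.gcd_dvd_left x y⟩, ⟨hy, Nat.gcd_dvd_right x y⟩⟩
  have h3 : (T.filter (fun x : ℕ × ℕ => ¬ Nat.Coprime x.1 x.2)).card ≤
      ∑ n ∈ Finset.Icc 2 B, (B / n) * (B / n) := by
    refine (Finset.card_le_card h2).trans ?_
    refine Finset.card_biUnion_le.trans ?_
    refine Finset.sum_le_sum fun n _ => ?_
    rw [Finset.card_product, Nat.Ioc_filter_dvd_card_eq_div]
  have h4 : ((∑ n ∈ Finset.Icc 2 B, (B / n) * (B / n) : ℕ) : ℝ) ≤ 3 / 4 * (B : ℝ) ^ 2 := by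
    have hB0 : (0 : ℝ) < B := by
      have : (2 : ℝ) ≤ B := by exact_mod_cast hB
      linarith
    calc ((∑ n ∈ Finset.Icc 2 B, (B / n) * (B / n) : ℕ) : ℝ)
        ≤ ∑ n ∈ Finset.Icc 2 B, (B : ℝ) ^ 2 * (1 / (n : ℝ) ^ 2) := by
          push_cast
          refine Finset.sum_le_sum fun n hn => ?_
          have h5 : ((B / n : ℕ) : ℝ) ≤ (B : ℝ) / n := Nat.cast_div_le
          have h6 : (0 : ℝ) ≤ ((B / n : ℕ) : ℝ) := Nat.cast_nonneg _
          calc ((B / n : ℕ) : ℝ) * ((B / n : ℕ) : ℝ) ≤ ((B : ℝ) / n) * ((B : ℝ) / n) :=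
                mul_le_mul h5 h5 h6 (h6.trans h5)
            _ = (B : ℝ) ^ 2 * (1 / (n : ℝ) ^ 2) := by ring
      _ = (B : ℝ) ^ 2 * ∑ n ∈ Finset.Icc 2 B, (1 : ℝ) / (n : ℝ) ^ 2 := by rw [Finset.mul_sum]
      _ ≤ (B : ℝ) ^ 2 * (3 / 4) := by
          apply mul_le_mul_of_nonneg_left _ (by positivity)
          have h5 := sum_inv_sq B hB
          have h6 : (0 : ℝ) < 1 / B := by positivity
          linarith
      _ = 3 / 4 * (B : ℝ) ^ 2 := by ring
  have h5 : ((T.filter (fun x : ℕ × ℕ => ¬ Nat.Coprime x.1 x.2)).card : ℝ) ≤ 3 / 4 * (B : ℝ) ^ 2 :=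
    le_trans (by exact_mod_cast h3) h4
  have h6 : ((T.filter (fun x : ℕ × ℕ => Nat.Coprime x.1 x.2)).card : ℝ) +
      ((T.filter (fun x : ℕ × ℕ => ¬ Nat.Coprime x.1 x.2)).card : ℝ) = (B : ℝ) ^ 2 := by
    exact_mod_cast h1
  have h7 : (B : ℝ) ^ 2 ≤ 4 * ((T.filter (fun x : ℕ × ℕ => Nat.Coprime x.1 x.2)).card : ℝ) := by
    linarith
  exact_mod_cast h7

/-- Numerator and denominator. -/
def nd (x : ℚ) : ℤ × ℤ := (x.num, (x.den : ℤ))

theorem nd_injective : Function.Injective nd := by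
  intro x y h
  rw [nd, nd, Prod.ext_iff] at h
  obtain ⟨h1, h2⟩ := h
  dsimp only at h1 h2
  exact Rat.ext h1 (by exact_mod_cast h2)

theorem nd_mem (B : ℕ) (x : ℚ) : nd x ∈ pairBox B ↔ |x.num| ≤ B ∧ x.den ≤ B := by
  rw [mem_pairBox, nd]
  dsimp only
  have := x.den_pos
  constructor
  · rintro ⟨h1, _, h3⟩
    exact ⟨h1, by exact_mod_cast h3⟩
  · rintro ⟨h1, h3⟩
    exact ⟨h1, by exact_mod_cast this, by exact_mod_cast h3⟩

/-- The rational numbers of height at most `B`. -/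
noncomputable def ratFin (B : ℕ) : Finset ℚ := (pairBox B).preimage nd nd_injective.injOn

theorem mem_ratFin (B : ℕ) (x : ℚ) : x ∈ ratFin B ↔ |x.num| ≤ B ∧ x.den ≤ B := by
  rw [ratFin, Finset.mem_preimage, nd_mem]

theorem card_ratFin (B : ℕ) : (pairBox B).card ≤ 12 * (ratFin B).card := by
  have h1 : (((Finset.Ioc 0 B) ×ˢ (Finset.Ioc 0 B)).filter
      (fun x : ℕ × ℕ => Nat.Coprime x.1 x.2)).card ≤ (ratFin B).card := by
    have hnd : ∀ x : ℕ × ℕ, x ∈ ((Finset.Ioc 0 B) ×ˢ (Finset.Ioc 0 B)).filter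
        (fun x : ℕ × ℕ => Nat.Coprime x.1 x.2) →
        ((x.1 : ℤ) / (x.2 : ℤ) : ℚ).num = x.1 ∧ (((x.1 : ℤ) / (x.2 : ℤ) : ℚ).den : ℤ) = x.2 := by
      intro x hx
      rw [Finset.mem_filter, Finset.mem_product, Finset.mem_Ioc, Finset.mem_Ioc] at hx
      have hpos : (0 : ℤ) < x.2 := by exact_mod_cast hx.1.2.1
      have hcop : Nat.Coprime (x.1 : ℤ).natAbs (x.2 : ℤ).natAbs := by simpa using hx.2
      exact ⟨Rat.num_div_eq_of_coprime hpos hcop, Rat.den_div_eq_of_coprime hpos hcop⟩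
    refine Finset.card_le_card_of_injOn (fun x : ℕ × ℕ => ((x.1 : ℤ) / (x.2 : ℤ) : ℚ)) ?_ ?_
    · intro x hx
      have h2 := hnd x hx
      rw [Finset.mem_coe, Finset.mem_filter, Finset.mem_product, Finset.mem_Ioc,
        Finset.mem_Ioc] at hx
      rw [Finset.mem_coe, mem_ratFin]
      refine ⟨?_, ?_⟩
      · rw [h2.1, Nat.abs_cast]
        exact_mod_cast hx.1.1.2
      · have h3 : (((x.1 : ℤ) / (x.2 : ℤ) : ℚ).den : ℤ) ≤ B := by
          rw [h2.2]
          exact_mod_cast hx.1.2.2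
        exact_mod_cast h3
    · intro x hx y hy hxy
      have h2 := hnd x hx
      have h3 := hnd y hy
      dsimp only at hxy
      rw [hxy] at h2
      refine Prod.ext ?_ ?_
      · exact_mod_cast h2.1.symm.trans h3.1
      · exact_mod_cast h2.2.symm.trans h3.2
  have h2 := card_coprime B
  rw [card_pairBox]
  nlinarith

end Pool.Agent.Helper87.MQ
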