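import Pool.Agent.Helper87.DMLP.StatMain

/-!
# Equidistribution of arrays of fractions modulo the squares of finitely many primes
-/

set_option autoImplicit false

namespace Pool.Agent.Helper87.MQ

open Finset

/-- The number of elements of a residue class in an interval. -/
theorem card_class (Q : ℕ) (hQ : 0 < Q) (lo : ℤ) (m : ℕ) (r : ZMod Q) :
    (m : ℝ) / Q - 1 ≤
      (((Finset.Ico lo (lo + m)).filter (fun x : ℤ => (x : ZMod Q) = r)).card : ℝ) := by
  obtain ⟨v, rfl⟩ := ZMod.intCast_surjective r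
  have h1 : (Finset.Ico lo (lo + m)).filter (fun x : ℤ => (x : ZMod Q) = (v : ZMod Q)) =
      (Finset.Ico lo (lo + m)).filter (fun x : ℤ => x ≡ v [ZMOD (Q : ℤ)]) := by
    ext x
    rw [Finset.mem_filter, Finset.mem_filter, ZMod.intCast_eq_intCast_iff]
  rw [h1]
  have h2 := Int.Ico_filter_modEq_card lo (lo + m) (r := (Q : ℤ)) (by exact_mod_cast hQ) v
  set c := ((Finset.Ico lo (lo + m)).filter (fun x : ℤ => x ≡ v [ZMOD (Q : ℤ)])).card with hc
  have hQ' : (0 : ℚ) < Q := by exact_mod_cast hQ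
  have h3 : ((⌈(((lo + m : ℤ) : ℚ) - v) / ((Q : ℤ) : ℚ)⌉ - ⌈((lo : ℚ) - v) / ((Q : ℤ) : ℚ)⌉ : ℤ) : ℚ) ≤
      (c : ℚ) := by
    have h4 : ⌈(((lo + m : ℤ) : ℚ) - v) / ((Q : ℤ) : ℚ)⌉ - ⌈((lo : ℚ) - v) / ((Q : ℤ) : ℚ)⌉ ≤
        (c : ℤ) := by
      rw [h2]
      exact le_max_left _ _
    exact_mod_cast h4
  have h5 : (((lo + m : ℤ) : ℚ) - v) / ((Q : ℤ) : ℚ) ≤ ⌈(((lo + m : ℤ) : ℚ) - v) / ((Q : ℤ) : ℚ)⌉ :=
    Int.le_ceil _
  have h6 : (⌈((lo : ℚ) - v) / ((Q : ℤ) : ℚ)⌉ : ℚ) < ((lo : ℚ) - v) / ((Q : ℤ) : ℚ) + 1 :=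
    Int.ceil_lt_add_one _
  have h7 : (m : ℚ) / Q - 1 ≤ c := by
    have h8 : (((lo + m : ℤ) : ℚ) - v) / ((Q : ℤ) : ℚ) - ((lo : ℚ) - v) / ((Q : ℤ) : ℚ) =
        (m : ℚ) / Q := by
      push_cast
      field_simp
      ring
    push_cast at h3 h5 h6 h8 ⊢
    linarith
  have h9 : (((m : ℚ) / Q - 1 : ℚ) : ℝ) ≤ ((c : ℚ) : ℝ) := Rat.cast_le.2 h7
  push_cast at h9
  exact h9

/-- Functions into a set whose classes all have at least `t` elements. -/
theorem card_pi_ge {J X Y : Type} [Fintype J] [DecidableEq J] [DecidableEq X] [DecidableEq Y]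
    (S : Finset X) (f : X → Y) (t : ℝ) (ht : 0 ≤ t)
    (h : ∀ y, t ≤ ((S.filter (fun x => f x = y)).card : ℝ)) (G : Finset (J → Y)) :
    (G.card : ℝ) * t ^ Fintype.card J ≤
      (((Fintype.piFinset (fun _ : J => S)).filter (fun v => (fun j => f (v j)) ∈ G)).card : ℝ) := by
  have h1 : G.biUnion (fun g => Fintype.piFinset (fun j => S.filter (fun x => f x = g j))) ⊆
      (Fintype.piFinset (fun _ : J => S)).filter (fun v => (fun j => f (v j)) ∈ G) := by
    intro v hv
    rw [Finset.mem_biUnion] at hv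
    obtain ⟨g, hg, hv⟩ := hv
    rw [Fintype.mem_piFinset] at hv
    have h2 : (fun j => f (v j)) = g := by
      funext j
      exact (Finset.mem_filter.1 (hv j)).2
    rw [Finset.mem_filter, Fintype.mem_piFinset, h2]
    exact ⟨fun j => (Finset.mem_filter.1 (hv j)).1, hg⟩
  have h2 : (G.biUnion (fun g => Fintype.piFinset (fun j => S.filter (fun x => f x = g j)))).card =
      ∑ g ∈ G, ∏ j : J, (S.filter (fun x => f x = g j)).card := by
    rw [Finset.card_biUnion]
    · exact Finset.sum_congr rfl fun g _ => Fintype.card_piFinset _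
    · intro g _ g' _ hne
      change Disjoint _ _
      rw [Finset.disjoint_left]
      intro v hv hv'
      apply hne
      rw [Fintype.mem_piFinset] at hv hv'
      funext j
      rw [← (Finset.mem_filter.1 (hv j)).2, ← (Finset.mem_filter.1 (hv' j)).2]
  have h3 := Finset.card_le_card h1
  rw [h2] at h3
  have h4 : (G.card : ℝ) * t ^ Fintype.card J ≤
      ((∑ g ∈ G, ∏ j : J, (S.filter (fun x => f x = g j)).card : ℕ) : ℝ) := by
    push_cast
    rw [← nsmul_eq_mul]
    refine Finset.card_nsmul_le_sum _ _ _ fun g _ => ?_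
    have h5 : ∏ _j : J, t ≤ ∏ j : J, ((S.filter (fun x => f x = g j)).card : ℝ) :=
      Finset.prod_le_prod (fun _ _ => ht) (fun j _ => h (g j))
    rwa [Finset.prod_const, Finset.card_univ] at h5
  exact h4.trans (by exact_mod_cast h3)

/-- Independence: the number of arrays none of whose components is in the given sets. -/
theorem card_compl_ge {J κ : Type} [Fintype J] [DecidableEq J] [Fintype κ] [DecidableEq κ]
    (Y : κ → Type) [∀ k, Fintype (Y k)] [∀ k, DecidableEq (Y k)] (c : κ → ℝ)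
    (GE : ∀ k, Finset (J → Y k))
    (h : ∀ k, c k * (Fintype.card (J → Y k) : ℝ) ≤ (GE k).card) :
    (1 - Real.exp (-∑ k, c k)) * (Fintype.card (J → ∀ k, Y k) : ℝ) ≤
      (((Finset.univ : Finset (J → ∀ k, Y k)).filter
        (fun w => ∃ k, (fun j => w j k) ∈ GE k)).card : ℝ) := by
  classical
  have h1 : ((Finset.univ : Finset (J → ∀ k, Y k)).filter
      (fun w => ∃ k, (fun j => w j k) ∈ GE k)).card +
      ((Finset.univ : Finset (J → ∀ k, Y k)).filter
      (fun w => ¬ ∃ k, (fun j => w j k) ∈ GE k)).card = Fintype.card (J → ∀ k, Y k) := by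
    rw [Finset.card_filter_add_card_filter_not, Finset.card_univ]
  have h2 : ((Finset.univ : Finset (J → ∀ k, Y k)).filter
      (fun w => ¬ ∃ k, (fun j => w j k) ∈ GE k)).card =
      (Fintype.piFinset (fun k => (GE k)ᶜ)).card := by
    refine Finset.card_bij' (fun w _ => fun k j => w j k) (fun w _ => fun j k => w k j) ?_ ?_ ?_ ?_
    · intro w hw
      rw [Finset.mem_filter] at hw
      rw [Fintype.mem_piFinset]
      intro k
      rw [Finset.mem_compl]
      exact fun h => hw.2 ⟨k, h⟩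
    · intro w hw
      rw [Fintype.mem_piFinset] at hw
      rw [Finset.mem_filter]
      refine ⟨Finset.mem_univ _, ?_⟩
      rintro ⟨k, hk⟩
      exact (Finset.mem_compl.1 (hw k)) hk
    · intro w _; rfl
    · intro w _; rfl
  have h3 : Fintype.card (J → ∀ k, Y k) = ∏ k, Fintype.card (J → Y k) := by
    rw [← Fintype.card_pi]
    exact Fintype.card_congr (Equiv.piComm _)
  have h4 : (((Fintype.piFinset (fun k => (GE k)ᶜ)).card : ℕ) : ℝ) ≤
      Real.exp (-∑ k, c k) * (Fintype.card (J → ∀ k, Y k) : ℝ) := by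
    rw [Fintype.card_piFinset, h3, ← Finset.sum_neg_distrib, Real.exp_sum]
    push_cast
    rw [← Finset.prod_mul_distrib]
    refine Finset.prod_le_prod (fun _ _ => Nat.cast_nonneg _) fun k _ => ?_
    have h5 : ((GE k).card : ℝ) + ((GE k)ᶜ.card : ℝ) = (Fintype.card (J → Y k) : ℝ) := by
      exact_mod_cast Finset.card_add_card_compl (GE k)
    have h6 := h k
    have h7 : 1 - c k ≤ Real.exp (-c k) := by
      have := Real.add_one_le_exp (-c k)
      linarith
    have h8 : (0 : ℝ) ≤ (Fintype.card (J → Y k) : ℝ) := Nat.cast_nonneg _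
    nlinarith
  rw [← h2] at h4
  have h5 : (((Finset.univ : Finset (J → ∀ k, Y k)).filter
      (fun w => ∃ k, (fun j => w j k) ∈ GE k)).card : ℝ) +
      (((Finset.univ : Finset (J → ∀ k, Y k)).filter
      (fun w => ¬ ∃ k, (fun j => w j k) ∈ GE k)).card : ℝ) = Fintype.card (J → ∀ k, Y k) := by
    exact_mod_cast h1
  linarith

end Pool.Agent.Helper87.MQ
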