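import Pool.Agent.Helper87.MQ.Functional

/-!
# Dimension at most one and change of the base field
-/

set_option autoImplicit false

namespace Pool.Agent.Helper87.MQ

open MvPolynomial

/-- Any two coordinates are algebraically dependent modulo `P`. -/
def PairDep {σ K : Type*} [Field K] (P : Ideal (MvPolynomial σ K)) : Prop :=
  ∀ i j : σ, ∃ g : MvPolynomial (Fin 2) K, g ≠ 0 ∧
    aeval (fun k : Fin 2 => (X (if k = 0 then i else j) : MvPolynomial σ K)) g ∈ P

theorem algInd_of_not {σ K : Type*} [Field K] (P : Ideal (MvPolynomial σ K)) (i j : σ)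
    (h : ∀ g : MvPolynomial (Fin 2) K, g ≠ 0 →
      aeval (fun k : Fin 2 => (X (if k = 0 then i else j) : MvPolynomial σ K)) g ∉ P) :
    AlgebraicIndependent K
      (fun k : Fin 2 => Ideal.Quotient.mk P (X (if k = 0 then i else j))) := by
  rw [algebraicIndependent_iff]
  intro g hg
  by_contra hne
  apply h g hne
  rw [← Ideal.Quotient.eq_zero_iff_mem]
  have h1 : (Ideal.Quotient.mkₐ K P) (aeval (fun k : Fin 2 =>
      (X (if k = 0 then i else j) : MvPolynomial σ K)) g) = aeval (fun k : Fin 2 =>
      Ideal.Quotient.mk P (X (if k = 0 then i else j))) g := by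
    rw [MvPolynomial.comp_aeval_apply]
    rfl
  exact h1.trans hg

theorem pairDep_of_trdeg {σ K : Type*} [Field K] (P : Ideal (MvPolynomial σ K)) [P.IsPrime]
    (h : Algebra.trdeg K (MvPolynomial σ K ⧸ P) ≤ 1) : PairDep P := by
  intro i j
  by_contra hcon
  push Not at hcon
  have h1 := algInd_of_not P i j hcon
  have h2 := h1.lift_cardinalMk_le_trdeg
  rw [Cardinal.mk_fin] at h2
  have h3 := h2.trans (Cardinal.lift_le.2 h)
  rw [Cardinal.lift_natCast, Cardinal.lift_one, ← Nat.cast_one, Nat.cast_le] at h3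
  omega

theorem trdeg_of_pairDep {σ K : Type*} [Field K] (P : Ideal (MvPolynomial σ K)) [P.IsPrime]
    (h : PairDep P) : Algebra.trdeg K (MvPolynomial σ K ⧸ P) ≤ 1 := by
  classical
  set s : Set (MvPolynomial σ K ⧸ P) := Set.range (fun i => Ideal.Quotient.mk P (X i)) with hs
  have htop : Algebra.adjoin K s = ⊤ := by
    rw [eq_top_iff]
    rintro x -
    obtain ⟨p, rfl⟩ := Ideal.Quotient.mk_surjective x
    induction p using MvPolynomial.induction_on with
    | C a =>
      exact Subalgebra.algebraMap_mem _ a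
    | add p q hp hq =>
      rw [map_add]
      exact Subalgebra.add_mem _ hp hq
    | mul_X p i hp =>
      rw [map_mul]
      exact Subalgebra.mul_mem _ hp (Algebra.subset_adjoin ⟨i, rfl⟩)
  haveI : Algebra.IsAlgebraic (Algebra.adjoin K s) (MvPolynomial σ K ⧸ P) := by
    rw [htop]
    constructor
    intro x
    exact isAlgebraic_algebraMap (⟨x, Algebra.mem_top⟩ :
      (⊤ : Subalgebra K (MvPolynomial σ K ⧸ P)))
  obtain ⟨t, hts, ht⟩ := exists_isTranscendenceBasis_subset (R := K) s
  rw [← ht.cardinalMk_eq_trdeg, Cardinal.mk_le_one_iff_set_subsingleton]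
  intro x hx y hy
  by_contra hxy
  obtain ⟨i, rfl⟩ := hts hx
  obtain ⟨j, rfl⟩ := hts hy
  dsimp only at hxy hx hy
  obtain ⟨g, hg, hgP⟩ := h i j
  apply hg
  have hinj : Function.Injective (fun k : Fin 2 =>
      (if k = 0 then ⟨Ideal.Quotient.mk P (X i), hx⟩ else ⟨Ideal.Quotient.mk P (X j), hy⟩ : t)) := by
    intro k l hkl
    fin_cases k <;> fin_cases l
    · rfl
    · exact absurd (congrArg Subtype.val hkl) hxy
    · exact absurd (congrArg Subtype.val hkl).symm hxy
    · rfl
  have h1 := ht.1.comp _ hinj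
  rw [algebraicIndependent_iff] at h1
  apply h1
  have h2 : (Ideal.Quotient.mkₐ K P) (aeval (fun k : Fin 2 =>
      (X (if k = 0 then i else j) : MvPolynomial σ K)) g) = aeval ((fun x : t => (x : MvPolynomial σ K ⧸ P)) ∘
      (fun k : Fin 2 =>
      (if k = 0 then ⟨Ideal.Quotient.mk P (X i), hx⟩ else ⟨Ideal.Quotient.mk P (X j), hy⟩ : t))) g := by
    rw [MvPolynomial.comp_aeval_apply]
    congr 2
    funext k
    fin_cases k <;> rfl
  rw [← h2]
  exact Ideal.Quotient.eq_zero_iff_mem.2 hgP

section

variable {σ : Type*} {L E : Type*} [Field L] [Field E] [Algebra L E]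

theorem cw_C_mul (lam : E →ₗ[L] L) (c : E) (F : MvPolynomial σ E) :
    cw lam (C c * F) = cw (lam.comp (LinearMap.mulLeft L c)) F := by
  ext s
  rw [coeff_cw, coeff_cw, coeff_C_mul]
  rfl

theorem cw_mem (P : Ideal (MvPolynomial σ L)) (F : MvPolynomial σ E)
    (hF : F ∈ P.map (map (algebraMap L E))) : ∀ lam : E →ₗ[L] L, cw lam F ∈ P := by
  classical
  rw [Ideal.map] at hF
  refine Submodule.span_induction (p := fun F _ => ∀ lam : E →ₗ[L] L, cw lam F ∈ P)
    ?_ ?_ ?_ ?_ hF
  · rintro _ ⟨p, hp, rfl⟩ lam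
    have h1 := cw_map_mul lam p (1 : MvPolynomial σ E)
    rw [mul_one] at h1
    rw [h1]
    exact Ideal.mul_mem_right _ _ hp
  · intro lam
    rw [cw_zero]
    exact Ideal.zero_mem _
  · intro F G _ _ hF hG lam
    rw [cw_add]
    exact Ideal.add_mem _ (hF lam) (hG lam)
  · intro a F _ hF lam
    have h1 : a • F = ∑ s ∈ a.support,
        map (algebraMap L E) (monomial s 1) * (C (coeff s a) * F) := by
      rw [smul_eq_mul]
      conv_lhs => rw [a.as_sum]
      rw [Finset.sum_mul]
      refine Finset.sum_congr rfl fun s _ => ?_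
      rw [map_monomial, map_one, ← mul_assoc]
      congr 1
      rw [mul_comm, C_mul_monomial, mul_one]
    rw [h1, cw_sum]
    refine Ideal.sum_mem _ fun s _ => ?_
    rw [cw_map_mul, cw_C_mul]
    exact Ideal.mul_mem_left _ _ (hF _)

/-- Descent of the dimension condition from the big field to the small one. -/
theorem pairDep_descend (V : Set (MvPolynomial σ E))
    (hV : ∀ P : Ideal (MvPolynomial σ E), P.IsPrime → V ⊆ P → PairDep P)
    (P : Ideal (MvPolynomial σ L)) (hP : P.IsPrime) (hVP : descend L V ⊆ P) : PairDep P := by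
  classical
  intro i j
  by_contra hcon
  push Not at hcon
  set S : Submonoid (MvPolynomial σ E) := (nonZeroDivisors (MvPolynomial (Fin 2) E)).map
    (aeval (fun k : Fin 2 => (X (if k = 0 then i else j) : MvPolynomial σ E))) with hS
  have hdisj : Disjoint ((P.map (map (algebraMap L E)) : Ideal (MvPolynomial σ E)) :
      Set (MvPolynomial σ E)) S := by
    rw [Set.disjoint_left]
    rintro _ h ⟨g, hg, rfl⟩
    have hg0 : g ≠ 0 := nonZeroDivisors.ne_zero hg
    obtain ⟨s, hs⟩ := ne_zero_iff.1 hg0
    have hlam : ∃ lam : E →ₗ[L] L, lam (coeff s g) ≠ 0 := by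
      by_contra hl
      push Not at hl
      exact hs ((Module.forall_dual_apply_eq_zero_iff L _).1 hl)
    obtain ⟨lam, hlam⟩ := hlam
    have h1 := cw_mem P _ h lam
    have h2 := cw_aeval lam (fun k : Fin 2 => (X (if k = 0 then i else j) : MvPolynomial σ L)) g
    simp only [map_X] at h2
    have h3 : cw lam g ≠ 0 := by
      intro h0
      apply hlam
      rw [← coeff_cw, h0, coeff_zero]
    apply hcon (cw lam g) h3
    rw [← h2]
    exact h1
  obtain ⟨P', hP', hle, hdis⟩ := Ideal.exists_le_prime_disjoint _ S hdisj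
  have hVP' : V ⊆ P' := mem_of_descend V P' fun G hG => hle (Ideal.mem_map_of_mem _ (hVP hG))
  obtain ⟨g, hg, hgP⟩ := hV P' hP' hVP' i j
  exact (Set.disjoint_left.1 hdis) hgP ⟨g, mem_nonZeroDivisors_of_ne_zero hg, rfl⟩

/-- Ascent of the dimension condition. -/
theorem pairDep_ascend {F : Type*} [Field F] (e : L →+* F) (P : Ideal (MvPolynomial σ F))
    (h : PairDep (P.comap (map e))) : PairDep P := by
  intro i j
  obtain ⟨g, hg, hgP⟩ := h i j
  refine ⟨map e g, fun h0 => hg ?_, ?_⟩
  · apply map_injective e e.injective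
    rw [h0, map_zero]
  · rw [Ideal.mem_comap] at hgP
    have h1 : map e (aeval (fun k : Fin 2 => (X (if k = 0 then i else j) : MvPolynomial σ L)) g) =
        aeval (fun k : Fin 2 => (X (if k = 0 then i else j) : MvPolynomial σ F)) (map e g) := by
      rw [aeval_def, aeval_def, eval₂_map, MvPolynomial.algebraMap_eq, MvPolynomial.algebraMap_eq]
      rw [eval₂_comp_left]
      congr 1
      · ext a
        simp
      · funext k
        simp
    rw [← h1]
    exact hgP

end

end Pool.Agent.Helper87.MQ
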