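import Pool.Agent.Helper87.MQ.Glue
import Pool.Agent.Helper87.MQ.FieldEmb
import Pool.Agent.Helper26.MQ.Trap

/-!
# The final theorem, from the local theorems
-/

set_option autoImplicit false

namespace Pool.Agent.Helper87.MQ

open MvPolynomial
open Pool.Agent.Helper86.MQ (pm Good Esc Idx Pre Red)
open Pool.Agent.Helper86.DML (SSp)
open Pool.Agent.Helper87.DMLP (primesFor not_summable_primesFor prime_of_mem_primesFor)

/-- The statement of the local theorem in all dimensions. -/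
def LocalAll (m d : ℕ) : Prop :=
  ∀ (p : ℕ) [Fact p.Prime], 3 ≤ p →
    ∀ Φ : Fin (m + 1) → MvPolynomial (Fin (m + 1)) ℚ_[p], Good p m d Φ →
    ∃ M : ℕ, 1 ≤ M ∧ ∀ x, Esc x → ∀ f : MvPolynomial (Fin (m + 1)) ℚ_[p], ∀ r < M,
      (∀ n, eval ((pm Φ)^[1 + (r + M * n)] x) f = 0) ∨
      SSp {n | eval ((pm Φ)^[1 + (r + M * n)] x) f = 0}

/-- The statement of the local theorem for curves. -/
def LocalCurve (m d : ℕ) : Prop :=
  ∀ (p : ℕ) [Fact p.Prime], 3 ≤ p →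
    ∀ Φ : Fin (m + 1) → MvPolynomial (Fin (m + 1)) ℚ_[p], Good p m d Φ →
    ∀ V : Set (MvPolynomial (Fin (m + 1)) ℚ_[p]),
    (∀ P : Ideal (MvPolynomial (Fin (m + 1)) ℚ_[p]), P.IsPrime → V ⊆ P →
      Algebra.trdeg ℚ_[p] (MvPolynomial (Fin (m + 1)) ℚ_[p] ⧸ P) ≤ 1) →
    ∀ x, Esc x →
      {n | ∀ F ∈ V, eval ((pm Φ)^[n] x) F = 0}.Finite ∨
      {n | ∀ F ∈ V, eval ((pm Φ)^[n] x) F = 0}ᶜ.Finite

/-- A set of natural numbers is finite or cofinite if a shift is. -/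
theorem finite_or_of_shift (k₀ : ℕ) (R : Set ℕ)
    (h : {n | n + k₀ ∈ R}.Finite ∨ {n | n + k₀ ∈ R}ᶜ.Finite) : R.Finite ∨ Rᶜ.Finite := by
  have key : ∀ S : Set ℕ, {n | n + k₀ ∈ S}.Finite → S.Finite := by
    intro S hS
    refine ((Set.finite_Iio k₀).union (hS.image (fun n => n + k₀))).subset ?_
    intro n hn
    by_cases hk : n < k₀
    · exact Or.inl hk
    · right
      exact ⟨n - k₀, by
        change n - k₀ + k₀ ∈ S
        rwa [Nat.sub_add_cancel (by omega)], by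
        change n - k₀ + k₀ = n
        omega⟩
  exact h.imp (key R) (key Rᶜ)

/-- The conclusion for one map, one starting point and all closed sets. -/
def Concl (m M : ℕ) (Φ : Fin (m + 1) → MvPolynomial (Fin (m + 1)) ℚ) (α : Fin (m + 1) → ℂ) : Prop :=
  ∀ V : Set (MvPolynomial (Fin (m + 1)) ℂ),
    ((∀ P : Ideal (MvPolynomial (Fin (m + 1)) ℂ), P.IsPrime → V ⊆ P →
        Algebra.trdeg ℂ (MvPolynomial (Fin (m + 1)) ℂ ⧸ P) ≤ 1) →
      {n | ∀ F ∈ V, eval ((pm (toC Φ))^[n] α) F = 0}.Finite ∨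
      {n | ∀ F ∈ V, eval ((pm (toC Φ))^[n] α) F = 0}ᶜ.Finite) ∧
    ∃ (T : Finset ℕ) (S : Set ℕ), SSp S ∧
      {n | ∀ F ∈ V, eval ((pm (toC Φ))^[n] α) F = 0} =
        {n | (∃ a ∈ T, ∃ k, n = a + M * k) ∨ n ∈ S}

theorem concl_of_local (m d : ℕ) (hall : LocalAll m d) (hcurve : LocalCurve m d)
    (q : ℕ) [Fact q.Prime] (hq : 3 ≤ q) (L : Subfield ℂ) (e : L →+* ℚ_[q])
    (Φ : Fin (m + 1) → MvPolynomial (Fin (m + 1)) ℚ) (hΦ : Good q m d (toQp q Φ))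
    (hesc : ∀ x : Fin (m + 1) → ℚ_[q], ∃ n, Esc ((pm (toQp q Φ))^[n] x)) :
    ∃ M : ℕ, 1 ≤ M ∧ ∀ α : Fin (m + 1) → ℂ, (∀ i, α i ∈ L) → Concl m M Φ α := by
  obtain ⟨M, hM, hloc⟩ := hall q hq (toQp q Φ) hΦ
  refine ⟨M, hM, fun α hα V => ?_⟩
  obtain ⟨W, hW1, hW2⟩ := glue q L e V
  obtain ⟨k₀, hk₀⟩ := hesc (fun i => e ⟨α i, hα i⟩)
  have hR : {n | ∀ F ∈ V, eval ((pm (toC Φ))^[n] α) F = 0} =
      {n | ∀ G ∈ W, eval ((pm (toQp q Φ))^[n] (fun i => e ⟨α i, hα i⟩)) G = 0} := by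
    ext n
    exact hW1 Φ (fun i => ⟨α i, hα i⟩) n
  rw [hR]
  set x : Fin (m + 1) → ℚ_[q] := (pm (toQp q Φ))^[k₀] (fun i => e ⟨α i, hα i⟩) with hx
  have hshift : ∀ n, (pm (toQp q Φ))^[n + k₀] (fun i => e ⟨α i, hα i⟩) =
      (pm (toQp q Φ))^[n] x := fun n => Function.iterate_add_apply _ _ _ _
  constructor
  · intro hV
    apply finite_or_of_shift k₀
    have h1 := hcurve q hq (toQp q Φ) hΦ W (hW2 hV) x hk₀
    simp only [Set.mem_setOf_eq, hshift]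
    exact h1
  · obtain ⟨T, S, hS, hTS⟩ := classes M hM (k₀ + 1)
      {n | ∀ G ∈ W, eval ((pm (toQp q Φ))^[n] (fun i => e ⟨α i, hα i⟩)) G = 0} (by
      intro r hr
      have hk : ∀ n, k₀ + 1 + (r + M * n) = 1 + (r + M * n) + k₀ := fun n => by ring
      by_cases hall' : ∀ G ∈ W, ∀ n, eval ((pm (toQp q Φ))^[1 + (r + M * n)] x) G = 0
      · left
        intro n G hG
        rw [hk, hshift]
        exact hall' G hG n
      · right
        push Not at hall'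
        obtain ⟨G, hG, n₁, hn₁⟩ := hall'
        have h1 := (hloc x hk₀ G r hr).resolve_left (fun h => hn₁ (h n₁))
        refine h1.mono ?_
        intro n hn
        have := hn G hG
        rw [hk, hshift] at this
        exact this)
    exact ⟨T, S, hS, hTS⟩

/-- **The final theorem**, from the local theorems. -/
theorem final_of_local (m d : ℕ) (hd : 2 ≤ d) (hall : LocalAll m d) (hcurve : LocalCurve m d)
    (A : Finset ℂ) (ε : ℝ) (hε : 0 < ε) :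
    ∃ K : ℕ, ∀ B : ℕ, K ≤ B → (hbox m d B).Finite ∧
      (1 - ε) * ((hbox m d B).ncard : ℝ) ≤
        (({Φ ∈ hbox m d B | ∃ M : ℕ, 1 ≤ M ∧ ∀ α : Fin (m + 1) → ℂ,
          (∀ i, α i ∈ Subfield.closure (A : Set ℂ)) → Concl m M Φ α}).ncard : ℝ) := by
  classical
  obtain ⟨C, hC⟩ := Pool.Agent.Helper26.MQ.trap m d hd
  choose BB hBB1 hBB2 using hC
  obtain ⟨P, K, hP, h⟩ := map_density m d C (primesFor A) (not_summable_primesFor A)
    (prime_of_mem_primesFor A) 3 ε hε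
  refine ⟨K, fun B hB => ?_⟩
  obtain ⟨hfin, h1⟩ := h (fun q _ => BB q) (fun q _ => hBB1 q) B hB
  refine ⟨hfin, h1.trans ?_⟩
  have hsub : {Φ ∈ hbox m d B | ∃ q ∈ P, ∃ _ : Fact q.Prime, ∃ c, c ∉ BB q ∧
      Pre q m d (toQp q Φ) ∧ Red (toQp q Φ) c} ⊆
      {Φ ∈ hbox m d B | ∃ M : ℕ, 1 ≤ M ∧ ∀ α : Fin (m + 1) → ℂ,
          (∀ i, α i ∈ Subfield.closure (A : Set ℂ)) → Concl m M Φ α} := by
    rintro Φ ⟨hΦ, q, hq, hF, c, hc, hpre, hred⟩
    refine ⟨hΦ, ?_⟩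
    obtain ⟨hgood, hesc⟩ := hBB2 q (toQp q Φ) hpre c hred hc
    obtain ⟨_, ⟨e⟩⟩ := exists_field_emb A q (hP q hq).1
    exact concl_of_local m d hall hcurve q (hP q hq).2.2 _ e Φ hgood hesc
  exact_mod_cast Set.ncard_le_ncard hsub (hfin.subset fun Φ hΦ => hΦ.1)

end Pool.Agent.Helper87.MQ
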