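import Mathlib

/-!
# Coefficientwise application of linear functionals to polynomials over an extension field
-/

set_option autoImplicit false

namespace Pool.Agent.Helper87.MQ

open MvPolynomial

section functional

variable {σ : Type*} {L E : Type*} [Field L] [Field E] [Algebra L E]

/-- Coefficientwise application of a linear functional. -/
noncomputable def cw (lam : E →ₗ[L] L) (F : MvPolynomial σ E) : MvPolynomial σ L :=
  ∑ s ∈ F.support, monomial s (lam (coeff s F))

theorem coeff_cw (lam : E →ₗ[L] L) (F : MvPolynomial σ E) (s : σ →₀ ℕ) :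
    coeff s (cw lam F) = lam (coeff s F) := by
  classical
  rw [cw, coeff_sum]
  simp only [coeff_monomial]
  rw [Finset.sum_ite_eq']
  split_ifs with h
  · rfl
  · rw [notMem_support_iff.1 h, map_zero]

theorem cw_add (lam : E →ₗ[L] L) (F G : MvPolynomial σ E) :
    cw lam (F + G) = cw lam F + cw lam G := by
  ext s
  rw [coeff_add, coeff_cw, coeff_cw, coeff_cw, coeff_add, map_add]

theorem cw_zero (lam : E →ₗ[L] L) : cw lam (0 : MvPolynomial σ E) = 0 := by
  ext s
  rw [coeff_cw, coeff_zero, coeff_zero, map_zero]

theorem cw_map_mul (lam : E →ₗ[L] L) (p : MvPolynomial σ L) (F : MvPolynomial σ E) :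
    cw lam (map (algebraMap L E) p * F) = p * cw lam F := by
  classical
  ext s
  rw [coeff_cw, coeff_mul, coeff_mul, map_sum]
  refine Finset.sum_congr rfl fun x _ => ?_
  rw [coeff_map, coeff_cw, ← Algebra.smul_def, map_smul, smul_eq_mul]

theorem cw_map_mul_C (lam : E →ₗ[L] L) (p : MvPolynomial σ L) (c : E) :
    cw lam (map (algebraMap L E) p * C c) = p * C (lam c) := by
  rw [cw_map_mul]
  congr 1
  classical
  ext s
  rw [coeff_cw, coeff_C, coeff_C]
  split_ifs
  · rfl
  · rw [map_zero]

theorem cw_sum {ι : Type*} (lam : E →ₗ[L] L) (T : Finset ι) (F : ι → MvPolynomial σ E) :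
    cw lam (∑ i ∈ T, F i) = ∑ i ∈ T, cw lam (F i) := by
  classical
  induction T using Finset.induction_on with
  | empty => rw [Finset.sum_empty, Finset.sum_empty, cw_zero]
  | insert a T ha ih => rw [Finset.sum_insert ha, Finset.sum_insert ha, cw_add, ih]

/-- Compatibility with substitutions defined over the small field. -/
theorem cw_aeval {τ : Type*} (lam : E →ₗ[L] L) (v : τ → MvPolynomial σ L)
    (g : MvPolynomial τ E) :
    cw lam (aeval (fun i => map (algebraMap L E) (v i)) g) = aeval v (cw lam g) := by
  classical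
  have h1 : aeval (fun i => map (algebraMap L E) (v i)) g =
      ∑ s ∈ g.support, map (algebraMap L E) (s.prod fun i k => v i ^ k) * C (coeff s g) := by
    conv_lhs => rw [g.as_sum]
    rw [map_sum]
    refine Finset.sum_congr rfl fun s _ => ?_
    rw [aeval_monomial, mul_comm, Finsupp.prod, Finsupp.prod, map_prod]
    congr 1
    refine Finset.prod_congr rfl fun i _ => ?_
    rw [map_pow]
  have h2 : aeval v (cw lam g) =
      ∑ s ∈ g.support, (s.prod fun i k => v i ^ k) * C (lam (coeff s g)) := by
    rw [cw, map_sum]
    refine Finset.sum_congr rfl fun s _ => ?_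
    rw [aeval_monomial, mul_comm]
    rfl
  rw [h1, h2, cw_sum]
  exact Finset.sum_congr rfl fun s _ => cw_map_mul_C lam _ _

theorem eval_cw (lam : E →ₗ[L] L) (F : MvPolynomial σ E) (x : σ → L) :
    eval x (cw lam F) = lam (eval (fun i => algebraMap L E (x i)) F) := by
  classical
  rw [cw, map_sum, eval_eq (fun i => algebraMap L E (x i)) F, map_sum]
  refine Finset.sum_congr rfl fun s _ => ?_
  rw [eval_monomial, Finsupp.prod]
  have h1 : coeff s F * ∏ i ∈ s.support, algebraMap L E (x i) ^ s i =
      (∏ i ∈ s.support, x i ^ s i) • coeff s F := by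
    rw [Algebra.smul_def, map_prod, mul_comm]
    congr 1
    refine Finset.prod_congr rfl fun i _ => ?_
    rw [map_pow]
  rw [h1, map_smul, smul_eq_mul, mul_comm]

/-- The polynomials over the small field obtained from a set of polynomials. -/
def descend (L : Type*) {E : Type*} [Field L] [Field E] [Algebra L E] {σ : Type*}
    (V : Set (MvPolynomial σ E)) : Set (MvPolynomial σ L) :=
  {G | ∃ F ∈ V, ∃ lam : E →ₗ[L] L, G = cw lam F}

theorem descend_zero_iff (V : Set (MvPolynomial σ E)) (x : σ → L) :
    (∀ F ∈ V, eval (fun i => algebraMap L E (x i)) F = 0) ↔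
      ∀ G ∈ descend L V, eval x G = 0 := by
  constructor
  · rintro h _ ⟨F, hF, lam, rfl⟩
    rw [eval_cw, h F hF, map_zero]
  · intro h F hF
    rw [← Module.forall_dual_apply_eq_zero_iff L]
    intro lam
    have := h (cw lam F) ⟨F, hF, lam, rfl⟩
    rwa [eval_cw] at this

theorem mem_of_descend (V : Set (MvPolynomial σ E)) (P : Ideal (MvPolynomial σ E))
    (hP : ∀ G ∈ descend L V, map (algebraMap L E) G ∈ P) : V ⊆ P := by
  classical
  intro F hF
  set M : Submodule L E := Submodule.span L ((F.support.image (fun s => coeff s F) : Finset E) :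
    Set E) with hM
  have : Module.Finite L M := by
    rw [hM]
    exact Module.Finite.span_of_finite L (Finset.finite_toSet _)
  set b := Module.finBasis L M with hb
  have hmem : ∀ s ∈ F.support, coeff s F ∈ M := by
    intro s hs
    apply Submodule.subset_span
    simp only [Finset.coe_image, Set.mem_image, Finset.mem_coe]
    exact ⟨s, hs, rfl⟩
  have hext : ∀ j, ∃ lam : E →ₗ[L] L, lam.comp M.subtype = b.coord j := fun j =>
    LinearMap.exists_extend (b.coord j)
  choose lam hlam using hext
  have hF2 : F = ∑ j, C ((b j : M) : E) * map (algebraMap L E) (cw (lam j) F) := by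
    ext s
    rw [coeff_sum]
    simp only [coeff_C_mul, coeff_map, coeff_cw]
    by_cases hs : s ∈ F.support
    · have h1 : ∀ j, lam j (coeff s F) = b.repr ⟨coeff s F, hmem s hs⟩ j := by
        intro j
        have := LinearMap.congr_fun (hlam j) ⟨coeff s F, hmem s hs⟩
        exact this
      simp only [h1]
      have h2 : ((∑ j, b.repr ⟨coeff s F, hmem s hs⟩ j • b j : M) : E) = coeff s F :=
        congrArg (Subtype.val) (b.sum_repr ⟨coeff s F, hmem s hs⟩)
      refine h2.symm.trans ?_
      rw [AddSubmonoidClass.coe_finset_sum]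
      refine Finset.sum_congr rfl fun j _ => ?_
      rw [Submodule.coe_smul, Algebra.smul_def, mul_comm]
    · rw [notMem_support_iff.1 hs]
      simp
  rw [hF2]
  exact Ideal.sum_mem _ fun j _ => Ideal.mul_mem_left _ _ (hP _ ⟨F, hF, lam j, rfl⟩)

end functional

end Pool.Agent.Helper87.MQ
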