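import Pool.Agent.Helper87.MQ.Arrays

/-!
# The local densities
-/

set_option autoImplicit false

namespace Pool.Agent.Helper87.MQ

open Finset

/-- The reduction from residues modulo `q²` to residues modulo `q`. -/
def red2 (q : ℕ) : ZMod (q ^ 2) →+* ZMod q := ZMod.castHom (dvd_pow_self q two_ne_zero) (ZMod q)

theorem red2_intCast (q : ℕ) (a : ℤ) : red2 q (a : ZMod (q ^ 2)) = (a : ZMod q) := map_intCast _ a

theorem red2_natCast (q : ℕ) (a : ℕ) : red2 q (a : ZMod (q ^ 2)) = (a : ZMod q) := map_natCast _ a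

/-- The element with given digits. -/
def enc (q : ℕ) (y z : ZMod q) : ZMod (q ^ 2) := ((y.val + q * z.val : ℕ) : ZMod (q ^ 2))

theorem red2_enc (q : ℕ) [NeZero q] (y z : ZMod q) : red2 q (enc q y z) = y := by
  rw [enc, red2_natCast]
  push_cast
  rw [ZMod.natCast_self, zero_mul, add_zero, ZMod.natCast_zmod_val]

theorem enc_injective (q : ℕ) [NeZero q] {y z y' z' : ZMod q} (h : enc q y z = enc q y' z') :
    y = y' ∧ z = z' := by
  have hq : 0 < q := Nat.pos_of_ne_zero (NeZero.ne q)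
  have h1 : y = y' := by
    have := congrArg (red2 q) h
    rwa [red2_enc, red2_enc] at this
  refine ⟨h1, ?_⟩
  subst h1
  have hlt : ∀ z : ZMod q, y.val + q * z.val < q ^ 2 := by
    intro z
    have h2 := ZMod.val_lt y
    have h3 := ZMod.val_lt z
    have h4 : q * z.val ≤ q * (q - 1) := Nat.mul_le_mul_left _ (by omega)
    have h5 : q * (q - 1) + q = q ^ 2 := by
      obtain ⟨k, rfl⟩ : ∃ k, q = k + 1 := ⟨q - 1, by omega⟩
      rw [Nat.add_sub_cancel]
      ring
    omega
  unfold enc at h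
  rw [ZMod.natCast_eq_natCast_iff', Nat.mod_eq_of_lt (hlt z), Nat.mod_eq_of_lt (hlt z')] at h
  have h2 : q * z.val = q * z'.val := by omega
  exact ZMod.val_injective q (Nat.eq_of_mul_eq_mul_left hq h2)

section

variable {J : Type} [Fintype J] [DecidableEq J]

/-- The local condition at `q`: exactly one fraction has `q` in its denominator, exactly once, and
the array of the residues of the others (with some value at `j₀`) is not in `BB`. -/
def LocGood (q : ℕ) (j₀ : J) (BB : Finset (J → ZMod q)) (w : J → ZMod (q ^ 2) × ZMod (q ^ 2)) :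
    Prop :=
  red2 q (w j₀).1 ≠ 0 ∧ red2 q (w j₀).2 = 0 ∧ (w j₀).2 ≠ 0 ∧
    (∀ j, j ≠ j₀ → red2 q (w j).2 ≠ 0) ∧
    ∃ c, c ∉ BB ∧ ∀ j, j ≠ j₀ → c j * red2 q (w j).2 = red2 q (w j).1

/-- Pairs with given ratio. -/
noncomputable def ratioSet (q : ℕ) [NeZero q] (c : ZMod q) : Finset (ZMod (q ^ 2) × ZMod (q ^ 2)) :=
  ((Finset.univ.filter (fun b : ZMod q => b ≠ 0)) ×ˢ
    ((Finset.univ : Finset (ZMod q)) ×ˢ (Finset.univ : Finset (ZMod q)))).image
    (fun t => (enc q (c * t.1) t.2.1, enc q t.1 t.2.2))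

theorem card_ne_zero_set (q : ℕ) [Fact q.Prime] :
    (Finset.univ.filter (fun b : ZMod q => b ≠ 0)).card = q - 1 := by
  rw [Finset.filter_ne' Finset.univ (0 : ZMod q), Finset.card_erase_of_mem (Finset.mem_univ _),
    Finset.card_univ, ZMod.card]

theorem card_ratioSet (q : ℕ) [hq : Fact q.Prime] (c : ZMod q) :
    (ratioSet q c).card = (q - 1) * (q * q) := by
  rw [ratioSet, Finset.card_image_of_injective, Finset.card_product, Finset.card_product,
    card_ne_zero_set, Finset.card_univ, ZMod.card]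
  rintro ⟨b, a1, b1⟩ ⟨b', a1', b1'⟩ h
  rw [Prod.ext_iff] at h
  obtain ⟨h1, h2⟩ := enc_injective q h.2
  obtain ⟨_, h4⟩ := enc_injective q h.1
  dsimp only at h1 h2 h4
  rw [h1, h2, h4]

/-- Pairs with numerator a unit and denominator exactly divisible by `q`, with a label. -/
noncomputable def poleSet (q : ℕ) [NeZero q] (c : ZMod q) : Finset (ZMod (q ^ 2) × ZMod (q ^ 2)) :=
  ((Finset.univ.filter (fun a : ZMod q => a ≠ 0)) ×ˢ
    (Finset.univ.filter (fun u : ZMod q => u ≠ 0))).image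
    (fun t => (enc q t.1 c, enc q 0 t.2))

theorem card_poleSet (q : ℕ) [hq : Fact q.Prime] (c : ZMod q) :
    (poleSet q c).card = (q - 1) * (q - 1) := by
  rw [poleSet, Finset.card_image_of_injective, Finset.card_product, card_ne_zero_set]
  rintro ⟨a, u⟩ ⟨a', u'⟩ h
  rw [Prod.ext_iff] at h
  obtain ⟨h1, _⟩ := enc_injective q h.1
  obtain ⟨_, h4⟩ := enc_injective q h.2
  dsimp only at h1 h4
  rw [h1, h4]

theorem card_locGood (q : ℕ) [hq : Fact q.Prime] (j₀ : J) (BB : Finset (J → ZMod q))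
    [DecidablePred (LocGood q j₀ BB)] :
    (q ^ Fintype.card J - BB.card) * ((q - 1) * (q - 1) * ((q - 1) * (q * q)) ^
      (Fintype.card J - 1)) ≤
      (Finset.univ.filter (LocGood q j₀ BB)).card := by
  classical
  set S : J → ZMod q → Finset (ZMod (q ^ 2) × ZMod (q ^ 2)) :=
    fun j c => if j = j₀ then poleSet q c else ratioSet q c with hS
  have hsub : (BBᶜ).biUnion (fun c => Fintype.piFinset (fun j => S j (c j))) ⊆
      Finset.univ.filter (LocGood q j₀ BB) := by
    intro w hw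
    rw [Finset.mem_biUnion] at hw
    obtain ⟨c, hc, hw⟩ := hw
    rw [Fintype.mem_piFinset] at hw
    rw [Finset.mem_filter]
    refine ⟨Finset.mem_univ _, ?_⟩
    have h0 := hw j₀
    rw [hS] at h0
    dsimp only at h0
    rw [if_pos rfl, poleSet, Finset.mem_image] at h0
    obtain ⟨⟨a, u⟩, hau, h0⟩ := h0
    rw [Finset.mem_product, Finset.mem_filter, Finset.mem_filter] at hau
    have hj : ∀ j, j ≠ j₀ → ∃ t : ZMod q × ZMod q × ZMod q, t.1 ≠ 0 ∧
        w j = (enc q (c j * t.1) t.2.1, enc q t.1 t.2.2) := by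
      intro j hj
      have h1 := hw j
      rw [hS] at h1
      dsimp only at h1
      rw [if_neg hj, ratioSet, Finset.mem_image] at h1
      obtain ⟨t, ht, h1⟩ := h1
      rw [Finset.mem_product, Finset.mem_filter] at ht
      exact ⟨t, ht.1.2, h1.symm⟩
    refine ⟨?_, ?_, ?_, ?_, c, Finset.mem_compl.1 hc, ?_⟩
    · rw [← h0]
      dsimp only
      rw [red2_enc]
      exact hau.1.2
    · rw [← h0]
      dsimp only
      rw [red2_enc]
    · rw [← h0]
      dsimp only
      intro h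
      apply hau.2.2
      have h1 : enc q 0 u = enc q 0 0 := by
        rw [h]
        simp [enc]
      exact (enc_injective q h1).2
    · intro j hj'
      obtain ⟨t, ht, h1⟩ := hj j hj'
      rw [h1]
      dsimp only
      rw [red2_enc]
      exact ht
    · intro j hj'
      obtain ⟨t, ht, h1⟩ := hj j hj'
      rw [h1]
      dsimp only
      rw [red2_enc, red2_enc]
  have hdisj : ∀ c ∈ BBᶜ, ∀ c' ∈ BBᶜ, c ≠ c' →
      Disjoint (Fintype.piFinset (fun j => S j (c j))) (Fintype.piFinset (fun j => S j (c' j))) := by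
    intro c _ c' _ hne
    rw [Finset.disjoint_left]
    intro w hw hw'
    apply hne
    rw [Fintype.mem_piFinset] at hw hw'
    funext j
    have h1 := hw j
    have h2 := hw' j
    rw [hS] at h1 h2
    dsimp only at h1 h2
    by_cases hj : j = j₀
    · rw [if_pos hj, poleSet, Finset.mem_image] at h1 h2
      obtain ⟨t, _, h1⟩ := h1
      obtain ⟨t', _, h2⟩ := h2
      rw [← h2, Prod.ext_iff] at h1
      exact (enc_injective q h1.1).2
    · rw [if_neg hj, ratioSet, Finset.mem_image] at h1 h2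
      obtain ⟨t, ht, h1⟩ := h1
      obtain ⟨t', _, h2⟩ := h2
      rw [Finset.mem_product, Finset.mem_filter] at ht
      rw [← h2, Prod.ext_iff] at h1
      obtain ⟨h3, _⟩ := enc_injective q h1.1
      obtain ⟨h4, _⟩ := enc_injective q h1.2
      rw [h4] at h3
      have h5 : t'.1 ≠ 0 := by rw [← h4]; exact ht.1.2
      exact mul_right_cancel₀ h5 h3
  have hcard : ((BBᶜ).biUnion (fun c => Fintype.piFinset (fun j => S j (c j)))).card =
      (q ^ Fintype.card J - BB.card) * ((q - 1) * (q - 1) * ((q - 1) * (q * q)) ^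
      (Fintype.card J - 1)) := by
    rw [Finset.card_biUnion hdisj]
    have h1 : ∀ c ∈ BBᶜ, (Fintype.piFinset (fun j => S j (c j))).card =
        (q - 1) * (q - 1) * ((q - 1) * (q * q)) ^ (Fintype.card J - 1) := by
      intro c _
      rw [Fintype.card_piFinset, ← Finset.mul_prod_erase Finset.univ _ (Finset.mem_univ j₀)]
      congr 1
      · rw [hS]
        dsimp only
        rw [if_pos rfl, card_poleSet]
      · rw [Finset.prod_congr rfl (g := fun _ => (q - 1) * (q * q))]
        · rw [Finset.prod_const, Finset.card_erase_of_mem (Finset.mem_univ _), Finset.card_univ]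
        · intro j hj
          rw [hS]
          dsimp only
          rw [if_neg (Finset.ne_of_mem_erase hj), card_ratioSet]
    rw [Finset.sum_congr rfl h1, Finset.sum_const, smul_eq_mul, Finset.card_compl,
      Fintype.card_fun, ZMod.card]
  rw [← hcard]
  exact Finset.card_le_card hsub

theorem locGood_density (q : ℕ) [hq : Fact q.Prime] (j₀ : J) (BB : Finset (J → ZMod q))
    [DecidablePred (LocGood q j₀ BB)] (C : ℕ) (hC : 2 * C ≤ q)
    (hBB : BB.card * q ≤ C * q ^ Fintype.card J) :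
    (1 / 2 : ℝ) ^ (Fintype.card J + 2) / q * ((q : ℝ) ^ 4) ^ Fintype.card J ≤
      ((Finset.univ.filter (LocGood q j₀ BB)).card : ℝ) := by
  have hn : 1 ≤ Fintype.card J := Fintype.card_pos_iff.2 ⟨j₀⟩
  obtain ⟨n, hn'⟩ : ∃ n, Fintype.card J = n + 1 := ⟨Fintype.card J - 1, by omega⟩
  have h1 := card_locGood q j₀ BB
  rw [hn'] at h1 hBB ⊢
  rw [Nat.add_sub_cancel] at h1
  have hq2 : 2 ≤ q := hq.out.two_le
  have hqR : (2 : ℝ) ≤ q := by exact_mod_cast hq2
  have hBB1 : 2 * BB.card ≤ q ^ (n + 1) := by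
    have h2 : 2 * BB.card * q ≤ q ^ (n + 1) * q := by
      calc 2 * BB.card * q = 2 * (BB.card * q) := by ring
        _ ≤ 2 * (C * q ^ (n + 1)) := Nat.mul_le_mul_left _ hBB
        _ = (2 * C) * q ^ (n + 1) := by ring
        _ ≤ q * q ^ (n + 1) := Nat.mul_le_mul_right _ hC
        _ = q ^ (n + 1) * q := by ring
    exact Nat.le_of_mul_le_mul_right h2 (by omega)
  have hBB2 : (q : ℝ) ^ (n + 1) / 2 ≤ ((q ^ (n + 1) - BB.card : ℕ) : ℝ) := by
    have h2 : q ^ (n + 1) ≤ 2 * (q ^ (n + 1) - BB.card) := by omega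
    have h3 : ((q ^ (n + 1) : ℕ) : ℝ) ≤ ((2 * (q ^ (n + 1) - BB.card) : ℕ) : ℝ) := by
      exact_mod_cast h2
    push_cast at h3
    linarith
  have hq1 : (q : ℝ) / 2 ≤ ((q - 1 : ℕ) : ℝ) := by
    rw [Nat.cast_sub (by omega)]
    push_cast
    linarith
  have h2 : (q : ℝ) ^ (n + 1) / 2 * ((q : ℝ) / 2 * (q / 2) * ((q : ℝ) / 2 * (q * q)) ^ n) ≤
      (((q ^ (n + 1) - BB.card) * ((q - 1) * (q - 1) * ((q - 1) * (q * q)) ^ n) : ℕ) : ℝ) := by
    rw [Nat.cast_mul, Nat.cast_mul, Nat.cast_mul, Nat.cast_pow, Nat.cast_mul, Nat.cast_mul]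
    gcongr
  have h3 : (1 / 2 : ℝ) ^ (n + 1 + 2) / q * ((q : ℝ) ^ 4) ^ (n + 1) =
      (q : ℝ) ^ (n + 1) / 2 * ((q : ℝ) / 2 * (q / 2) * ((q : ℝ) / 2 * (q * q)) ^ n) := by
    have hq0 : (q : ℝ) ≠ 0 := by linarith
    field_simp
    ring
  rw [h3]
  refine h2.trans ?_
  exact_mod_cast h1

end

end Pool.Agent.Helper87.MQ
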