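import Pool.Agent.Helper87.MQ.Coprime

/-!
# Density for arrays of rational numbers of bounded height
-/

set_option autoImplicit false

namespace Pool.Agent.Helper87.MQ

open Finset

section

variable {J : Type} [Fintype J] [DecidableEq J]

/-- Arrays of rational numbers of height at most `B`. -/
def ratArr (J : Type) (B : ℕ) : Set (J → ℚ) := {v | ∀ j, |(v j).num| ≤ B ∧ (v j).den ≤ B}

omit [DecidableEq J] in
theorem ratArr_eq [DecidableEq J] (B : ℕ) :
    ratArr J B = (Fintype.piFinset (fun _ : J => ratFin B) : Set (J → ℚ)) := by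
  ext v
  rw [Finset.mem_coe, Fintype.mem_piFinset]
  exact forall_congr' fun j => (mem_ratFin B (v j)).symm

theorem ratArr_finite (B : ℕ) : (ratArr J B).Finite := by
  rw [ratArr_eq]
  exact Finset.finite_toSet _

theorem ncard_ratArr (B : ℕ) : (ratArr J B).ncard = (ratFin B).card ^ Fintype.card J := by
  rw [ratArr_eq, Set.ncard_coe_finset, Fintype.card_piFinset, Finset.prod_const, Finset.card_univ]

/-- The local condition at `q` for an array of rational numbers. -/
def RatGood (q : ℕ) (j₀ : J) (BB : Finset (J → ZMod q)) (v : J → ℚ) : Prop :=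
  ¬ (q : ℤ) ∣ (v j₀).num ∧ q ∣ (v j₀).den ∧ ¬ q ^ 2 ∣ (v j₀).den ∧
    (∀ j, j ≠ j₀ → ¬ q ∣ (v j).den) ∧
    ∃ c, c ∉ BB ∧ ∀ j, j ≠ j₀ → c j * ((v j).den : ZMod q) = ((v j).num : ZMod q)

omit [Fintype J] [DecidableEq J] in
theorem ratGood_of_locGood (q : ℕ) (j₀ : J) (BB : Finset (J → ZMod q)) (v : J → ℚ)
    (h : LocGood q j₀ BB (fun j => (((nd (v j)).1 : ZMod (q ^ 2)), ((nd (v j)).2 : ZMod (q ^ 2))))) :
    RatGood q j₀ BB v := by
  obtain ⟨h1, h2, h3, h4, c, hc, h5⟩ := h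
  simp only [nd, red2_intCast] at h1 h2 h3 h4 h5
  refine ⟨?_, ?_, ?_, ?_, c, hc, ?_⟩
  · rwa [Ne, ZMod.intCast_zmod_eq_zero_iff_dvd] at h1
  · rw [Int.cast_natCast, ZMod.natCast_eq_zero_iff] at h2
    exact h2
  · rw [Ne, Int.cast_natCast, ZMod.natCast_eq_zero_iff] at h3
    exact h3
  · intro j hj
    have := h4 j hj
    rwa [Ne, Int.cast_natCast, ZMod.natCast_eq_zero_iff] at this
  · intro j hj
    have := h5 j hj
    rwa [Int.cast_natCast] at this

/-- **Density for arrays of rational numbers of bounded height.** -/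
theorem rat_density (j₀ : J) (C : ℕ)
    (Pri : Set ℕ) (hdiv : ¬ Summable (fun q : Pri => (1 : ℝ) / (q : ℕ))) (hPri : ∀ q ∈ Pri, q.Prime)
    (M₀ : ℕ) (ε : ℝ) (hε : 0 < ε) :
    ∃ (P : Finset ℕ) (K : ℕ), (∀ q ∈ P, q ∈ Pri ∧ q.Prime ∧ M₀ ≤ q) ∧
      ∀ BB : ∀ (q : ℕ) [Fact q.Prime], Finset (J → ZMod q),
        (∀ (q : ℕ) [Fact q.Prime], (BB q).card * q ≤ C * q ^ Fintype.card J) →
      ∀ B : ℕ, K ≤ B →
      (1 - ε) * ((ratArr J B).ncard : ℝ) ≤
        (({v ∈ ratArr J B | ∃ q ∈ P, ∃ _ : Fact q.Prime, RatGood q j₀ (BB q) v} :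
          Set (J → ℚ)).ncard : ℝ) := by
  classical
  set n := Fintype.card J with hn
  obtain ⟨P, K, hP, h⟩ := arrays_density J ((1 / 2 : ℝ) ^ (n + 2)) (by positivity) Pri hdiv hPri
    (max M₀ (2 * C)) (ε / 12 ^ n) (by positivity)
  refine ⟨P, K, fun q hq => ⟨(hP q hq).1, (hP q hq).2.1, (le_max_left _ _).trans (hP q hq).2.2⟩,
    ?_⟩
  intro BB hBB B hB
  set GE : ∀ q : ℕ, Finset (J → ZMod (q ^ 2) × ZMod (q ^ 2)) := fun q =>
    if hq : q.Prime then
      haveI : Fact q.Prime := ⟨hq⟩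
      Finset.univ.filter (LocGood q j₀ (BB q)) else ∅ with hGE
  have h1 := h GE (by
    intro q hq
    haveI hF : Fact q.Prime := ⟨(hP q hq).2.1⟩
    rw [hGE]
    dsimp only
    rw [dif_pos (hP q hq).2.1]
    exact locGood_density q j₀ (BB q) C ((le_max_right _ _).trans (hP q hq).2.2) (hBB q)) B hB
  -- the sets
  set good : Set (J → ℤ × ℤ) := {v : J → ℤ × ℤ | (∀ j, v j ∈ pairBox B) ∧ ∃ q ∈ P,
          (fun j => (((v j).1 : ZMod (q ^ 2)), ((v j).2 : ZMod (q ^ 2)))) ∈ GE q} with hgood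
  set box : Finset (J → ℤ × ℤ) := Fintype.piFinset (fun _ : J => pairBox B) with hbox
  have hboxcard : box.card = (pairBox B).card ^ n := by
    rw [hbox, Fintype.card_piFinset, Finset.prod_const, Finset.card_univ]
  set ratgood : Set (J → ℚ) :=
    {v ∈ ratArr J B | ∃ q ∈ P, ∃ _ : Fact q.Prime, RatGood q j₀ (BB q) v} with hrg
  have hgsub : good ⊆ (box : Set (J → ℤ × ℤ)) := by
    intro v hv
    rw [Finset.mem_coe, hbox, Fintype.mem_piFinset]
    exact hv.1
  have hbad1 : ((box : Set (J → ℤ × ℤ)) \ good).ncard + good.ncard = box.card := by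
    have := Set.ncard_sdiff_add_ncard_of_subset hgsub (Finset.finite_toSet box)
    rwa [Set.ncard_coe_finset] at this
  have hbad2 : (ratArr J B \ ratgood).ncard + ratgood.ncard = (ratArr J B).ncard :=
    Set.ncard_sdiff_add_ncard_of_subset (fun v hv => hv.1) (ratArr_finite B)
  have hbad3 : (ratArr J B \ ratgood).ncard ≤ ((box : Set (J → ℤ × ℤ)) \ good).ncard := by
    refine Set.ncard_le_ncard_of_injOn (fun v j => nd (v j)) ?_ ?_
      ((Finset.finite_toSet box).subset Set.sdiff_subset)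
    · rintro v ⟨hv1, hv2⟩
      refine ⟨?_, ?_⟩
      · rw [Finset.mem_coe, hbox, Fintype.mem_piFinset]
        intro j
        rw [nd_mem]
        exact hv1 j
      · rintro ⟨_, q, hq, hv3⟩
        apply hv2
        haveI hF : Fact q.Prime := ⟨(hP q hq).2.1⟩
        refine ⟨hv1, q, hq, hF, ?_⟩
        apply ratGood_of_locGood
        rw [hGE] at hv3
        dsimp only at hv3
        rw [dif_pos (hP q hq).2.1, Finset.mem_filter] at hv3
        exact hv3.2
    · intro v _ v' _ hvv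
      funext j
      exact nd_injective (congrFun hvv j)
  have h12 : ((pairBox B).card : ℝ) ^ n ≤ 12 ^ n * ((ratArr J B).ncard : ℝ) := by
    rw [ncard_ratArr, ← hn]
    push_cast
    rw [← mul_pow]
    apply pow_le_pow_left₀ (Nat.cast_nonneg _)
    exact_mod_cast card_ratFin B
  have e1 : (((box : Set (J → ℤ × ℤ)) \ good).ncard : ℝ) + (good.ncard : ℝ) =
      ((pairBox B).card : ℝ) ^ n := by
    rw [hboxcard] at hbad1
    exact_mod_cast hbad1
  have e2 : ((ratArr J B \ ratgood).ncard : ℝ) + (ratgood.ncard : ℝ) =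
      ((ratArr J B).ncard : ℝ) := by exact_mod_cast hbad2
  have e3 : ((ratArr J B \ ratgood).ncard : ℝ) ≤
      (((box : Set (J → ℤ × ℤ)) \ good).ncard : ℝ) := by exact_mod_cast hbad3
  have e4 : (((box : Set (J → ℤ × ℤ)) \ good).ncard : ℝ) ≤
      ε / 12 ^ n * ((pairBox B).card : ℝ) ^ n := by linarith
  have e5 : ε / 12 ^ n * ((pairBox B).card : ℝ) ^ n ≤ ε * ((ratArr J B).ncard : ℝ) := by
    rw [div_mul_eq_mul_div, div_le_iff₀ (by positivity)]
    nlinarith
  linarith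

end

end Pool.Agent.Helper87.MQ
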