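import Mathlib
import Pool.Agent.Helper87.MQ.Final

/-!
# Dynamical Mordell-Lang for one hundred percent of the maps of every degree in every dimension
-/

set_option autoImplicit false

namespace Pool.Agent.Helper87.MQ.RandomMaps

open MvPolynomial

/-- The self-map of `𝔸ᴺ(ℂ) = ℂᴺ` given by `N` polynomials with rational coefficients. -/
noncomputable def polyMap {N : ℕ} (Φ : Fin N → MvPolynomial (Fin N) ℚ) (x : Fin N → ℂ) :
    Fin N → ℂ :=
  fun i => aeval x (Φ i)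

/-- The return set `{n : Φⁿ(α) ∈ V}` for the closed subvariety `V` of `𝔸ᴺ` over `ℂ` cut out by the
polynomials of the set `V`. -/
def returnSet {N : ℕ} (Φ : Fin N → MvPolynomial (Fin N) ℚ) (α : Fin N → ℂ)
    (V : Set (MvPolynomial (Fin N) ℂ)) : Set ℕ :=
  {n | ∀ F ∈ V, eval ((polyMap Φ)^[n] α) F = 0}

/-- The polynomial self-maps of `𝔸ᴺ` over `ℚ` of degree at most `d` all of whose coefficients have
height at most `B`, i.e. numerators and denominators bounded by `B`. -/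
def box (N d B : ℕ) : Set (Fin N → MvPolynomial (Fin N) ℚ) :=
  {Φ | ∀ i, (Φ i).totalDegree ≤ d ∧
    ∀ s, |(coeff s (Φ i)).num| ≤ (B : ℤ) ∧ (coeff s (Φ i)).den ≤ B}

/-- The zero set of `V` has dimension at most one: the coordinate rings of its irreducible closed
subsets have transcendence degree at most one. -/
def DimLEOne {N : ℕ} (V : Set (MvPolynomial (Fin N) ℂ)) : Prop :=
  ∀ P : Ideal (MvPolynomial (Fin N) ℂ), P.IsPrime → V ⊆ P →
    Algebra.trdeg ℂ (MvPolynomial (Fin N) ℂ ⧸ P) ≤ 1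

/-- Super-sparse sets: for some `s` and `c > 1` there are at most `s` elements in `[n, n + cⁿ)`, for
all `n`. -/
def SuperSparse (S : Set ℕ) : Prop :=
  ∃ (s : ℕ) (c : ℝ), 1 < c ∧ ∀ n : ℕ, {k : ℕ | n ≤ k ∧ (k : ℝ) < n + c ^ n ∧ k ∈ S}.encard ≤ s

theorem polyMap_eq {m : ℕ} (Φ : Fin (m + 1) → MvPolynomial (Fin (m + 1)) ℚ) :
    polyMap Φ = Pool.Agent.Helper86.MQ.pm (Pool.Agent.Helper87.MQ.toC Φ) := by
  funext x i
  simp only [polyMap, Pool.Agent.Helper86.MQ.pm, Pool.Agent.Helper87.MQ.toC]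
  rw [eval_map, aeval_def]

theorem result_of_local (N d : ℕ) (hN : 1 ≤ N) (hd : 2 ≤ d)
    (hall : ∀ m, Pool.Agent.Helper87.MQ.LocalAll m d)
    (hcurve : ∀ m, Pool.Agent.Helper87.MQ.LocalCurve m d)
    (A : Finset ℂ) (ε : ℝ) (hε : 0 < ε) :
    ∃ K : ℕ, ∀ B : ℕ, K ≤ B → (box N d B).Finite ∧
      (1 - ε) * ((box N d B).ncard : ℝ) ≤
        (({Φ ∈ box N d B | ∃ M : ℕ, 1 ≤ M ∧ ∀ α : Fin N → ℂ,
          (∀ i, α i ∈ Subfield.closure (A : Set ℂ)) → ∀ V : Set (MvPolynomial (Fin N) ℂ),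
            (DimLEOne V → (returnSet Φ α V).Finite ∨ (returnSet Φ α V)ᶜ.Finite) ∧
            ∃ (T : Finset ℕ) (S : Set ℕ), SuperSparse S ∧
              returnSet Φ α V = {n | (∃ a ∈ T, ∃ k, n = a + M * k) ∨ n ∈ S}}).ncard : ℝ) := by
  obtain ⟨m, rfl⟩ : ∃ m, N = m + 1 := ⟨N - 1, by omega⟩
  obtain ⟨K, hK⟩ := Pool.Agent.Helper87.MQ.final_of_local m d hd (hall m) (hcurve m) A ε hε
  refine ⟨K, fun B hB => ?_⟩
  obtain ⟨hfin, h1⟩ := hK B hB
  refine ⟨hfin, h1.trans ?_⟩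
  have hsub : {Φ ∈ Pool.Agent.Helper87.MQ.hbox m d B | ∃ M : ℕ, 1 ≤ M ∧ ∀ α : Fin (m + 1) → ℂ,
      (∀ i, α i ∈ Subfield.closure (A : Set ℂ)) → Pool.Agent.Helper87.MQ.Concl m M Φ α} ⊆
      {Φ ∈ box (m + 1) d B | ∃ M : ℕ, 1 ≤ M ∧ ∀ α : Fin (m + 1) → ℂ,
          (∀ i, α i ∈ Subfield.closure (A : Set ℂ)) →
          ∀ V : Set (MvPolynomial (Fin (m + 1)) ℂ),
            (DimLEOne V → (returnSet Φ α V).Finite ∨ (returnSet Φ α V)ᶜ.Finite) ∧
            ∃ (T : Finset ℕ) (S : Set ℕ), SuperSparse S ∧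
              returnSet Φ α V = {n | (∃ a ∈ T, ∃ k, n = a + M * k) ∨ n ∈ S}} := by
    rintro Φ ⟨hΦ, M, hM, h⟩
    refine ⟨hΦ, M, hM, fun α hα V => ?_⟩
    have h2 := h α hα V
    rw [← polyMap_eq] at h2
    refine ⟨h2.1, ?_⟩
    obtain ⟨T, S, hS, hTS⟩ := h2.2
    exact ⟨T, S, hS.final, hTS⟩
  exact_mod_cast Set.ncard_le_ncard hsub (hfin.subset fun Φ hΦ => hΦ.1)

end Pool.Agent.Helper87.MQ.RandomMaps
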