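import Pool.Agent.Helper87.MQ.Two

/-!
# Density for maps: three primes and a nonzero polynomial
-/

set_option autoImplicit false

namespace Pool.Agent.Helper87.MQ

open MvPolynomial
open Pool.Agent.Helper86.MQ (Idx Pre Red)
open Pool.Agent.Helper26.MQ (arrPoly coeff_arrPoly coeff_arrPoly_of_gt arrPoly_coeff)

/-- All coefficients of `Φ` are `p`-integral, with residues `c`. -/
def RedAll {p : ℕ} [Fact p.Prime] {m d : ℕ} (Φ : Fin (m + 1) → MvPolynomial (Fin (m + 1)) ℚ_[p])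
    (c : Idx m d → ZMod p) : Prop :=
  ∀ k : Idx m d, ∃ z : ℤ_[p], (z : ℚ_[p]) = coeff k.2.1 (Φ k.1) ∧ PadicInt.toZMod z = c k

theorem redAll_of_intGood (m d q : ℕ) [hq : Fact q.Prime] (TT : Finset (Idx m d → ZMod q))
    (v : Idx m d → ℚ) (h : IntGood q TT v) : ∃ c ∈ TT, RedAll (toQp q (arrPoly v)) c := by
  obtain ⟨h1, c, hc, h2⟩ := h
  refine ⟨c, hc, fun k => ?_⟩
  have hcoef : coeff (k.2 : Fin (m + 1) →₀ ℕ) (toQp q (arrPoly v) k.1) = ((v k : ℚ) : ℚ_[q]) := by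
    rw [toQp, coeff_map, coeff_arrPoly]
    exact eq_ratCast (algebraMap ℚ ℚ_[q]) (v k)
  rw [hcoef]
  exact red_lift q (v k) (h1 k) (c k) (h2 k)

/-- The conclusion of the density theorem for a map. -/
def ThreeGood {m d : ℕ} (P : Finset ℕ)
    (BB : ∀ (q : ℕ) [Fact q.Prime], Finset (Idx m d → ZMod q))
    (TT : ∀ (q : ℕ) [Fact q.Prime], Finset (Idx m d → ZMod q))
    (R : MvPolynomial (Idx m d) ℚ) (Φ : Fin (m + 1) → MvPolynomial (Fin (m + 1)) ℚ) : Prop :=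
  eval (fun k : Idx m d => coeff (k.2 : Fin (m + 1) →₀ ℕ) (Φ k.1)) R ≠ 0 ∧
  ∃ p₁ ∈ P, ∃ p₂ ∈ P, ∃ l ∈ P, p₁ < p₂ ∧ p₂ < l ∧
    (∃ _ : Fact p₁.Prime, ∃ c, c ∉ BB p₁ ∧ Pre p₁ m d (toQp p₁ Φ) ∧ Red (toQp p₁ Φ) c) ∧
    (∃ _ : Fact p₂.Prime, ∃ c, c ∉ BB p₂ ∧ Pre p₂ m d (toQp p₂ Φ) ∧ Red (toQp p₂ Φ) c) ∧
    (∃ _ : Fact l.Prime, ∃ c, c ∈ TT l ∧ RedAll (toQp l Φ) c)

/-- **Density with three primes.** -/
theorem map_density2 (m d C : ℕ) (c : ℝ) (hc : 0 < c)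
    (Pri : Set ℕ) (hdiv : ¬ Summable (fun q : Pri => (1 : ℝ) / (q : ℕ))) (hPri : ∀ q ∈ Pri, q.Prime)
    (M₀ : ℕ) (R : MvPolynomial (Idx m d) ℚ) (hR : R ≠ 0) (ε : ℝ) (hε : 0 < ε) :
    ∃ (P : Finset ℕ) (K : ℕ), (∀ q ∈ P, q ∈ Pri ∧ q.Prime ∧ M₀ ≤ q) ∧
      ∀ BB : ∀ (q : ℕ) [Fact q.Prime], Finset (Idx m d → ZMod q),
        (∀ (q : ℕ) [Fact q.Prime], M₀ ≤ q → (BB q).card * q ≤ C * q ^ Fintype.card (Idx m d)) →
      ∀ TT : ∀ (q : ℕ) [Fact q.Prime], Finset (Idx m d → ZMod q),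
        (∀ (q : ℕ) [Fact q.Prime], M₀ ≤ q →
          c * (q : ℝ) ^ Fintype.card (Idx m d) ≤ ((TT q).card : ℝ)) →
      ∀ B : ℕ, K ≤ B → (hbox m d B).Finite ∧
      (1 - ε) * ((hbox m d B).ncard : ℝ) ≤
        (({Φ ∈ hbox m d B | ThreeGood P BB TT R Φ}).ncard : ℝ) := by
  classical
  set j₀ : Idx m d := (0, ⟨Finsupp.single 0 d, by simp⟩) with hj₀
  set n := Fintype.card (Idx m d) with hn
  obtain ⟨P₁, K₁, hP₁, h₁⟩ := rat_density_gen (J := Idx m d) ((1 / 2 : ℝ) ^ (n + 2)) (by positivity)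
    Pri hdiv hPri (max M₀ (2 * C)) (ε / 4) (by positivity)
  obtain ⟨P₂, K₂, hP₂, h₂⟩ := rat_density_gen (J := Idx m d) ((1 / 2 : ℝ) ^ (n + 2)) (by positivity)
    Pri hdiv hPri (max (max M₀ (2 * C)) (P₁.sup id + 1)) (ε / 4) (by positivity)
  obtain ⟨P₃, K₃, hP₃, h₃⟩ := rat_density_gen (J := Idx m d) (c * (1 / 2 : ℝ) ^ n) (by positivity)
    Pri hdiv hPri (max M₀ (P₂.sup id + 1)) (ε / 4) (by positivity)
  obtain ⟨K₄, h₄⟩ := zero_density R hR (ε / 4) (by positivity)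
  refine ⟨P₁ ∪ P₂ ∪ P₃, max (max K₁ K₂) (max K₃ (max K₄ 1)), ?_, ?_⟩
  · intro q hq
    rw [Finset.mem_union, Finset.mem_union] at hq
    rcases hq with (hq | hq) | hq
    · exact ⟨(hP₁ q hq).1, (hP₁ q hq).2.1, (le_max_left _ _).trans (hP₁ q hq).2.2⟩
    · exact ⟨(hP₂ q hq).1, (hP₂ q hq).2.1,
        (le_max_left _ _).trans ((le_max_left _ _).trans (hP₂ q hq).2.2)⟩
    · exact ⟨(hP₃ q hq).1, (hP₃ q hq).2.1, (le_max_left _ _).trans (hP₃ q hq).2.2⟩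
  intro BB hBB TT hTT B hB
  have hB1 : K₁ ≤ B := (le_max_left _ _).trans ((le_max_left _ _).trans hB)
  have hB2 : K₂ ≤ B := (le_max_right _ _).trans ((le_max_left _ _).trans hB)
  have hB3 : K₃ ≤ B := (le_max_left _ _).trans ((le_max_right _ _).trans hB)
  have hB4 : K₄ ≤ B :=
    (le_max_left _ _).trans ((le_max_right _ _).trans ((le_max_right _ _).trans hB))
  have hB5 : 1 ≤ B :=
    (le_max_right _ _).trans ((le_max_right _ _).trans ((le_max_right _ _).trans hB))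
  have hfin : (hbox m d B).Finite := by
    rw [hbox_eq m d B hB5]
    exact (ratArr_finite B).image _
  refine ⟨hfin, ?_⟩
  -- the good sets
  set GE : ∀ q : ℕ, Finset (Idx m d → ZMod (q ^ 2) × ZMod (q ^ 2)) := fun q =>
    if hq : q.Prime then
      haveI : Fact q.Prime := ⟨hq⟩
      Finset.univ.filter (LocGood q j₀ (BB q)) else ∅ with hGE
  set GT : ∀ q : ℕ, Finset (Idx m d → ZMod (q ^ 2) × ZMod (q ^ 2)) := fun q =>
    if hq : q.Prime then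
      haveI : Fact q.Prime := ⟨hq⟩
      Finset.univ.filter (IntLoc q (TT q)) else ∅ with hGT
  have hGEc : ∀ q : ℕ, q.Prime → M₀ ≤ q → 2 * C ≤ q →
      (1 / 2 : ℝ) ^ (n + 2) / q * ((q : ℝ) ^ 4) ^ Fintype.card (Idx m d) ≤ (GE q).card := by
    intro q hq hM hC
    haveI hF : Fact q.Prime := ⟨hq⟩
    rw [hGE]
    dsimp only
    rw [dif_pos hq]
    exact locGood_density q j₀ (BB q) C hC (hBB q hM)
  have b₁ := h₁ GE (fun q hq => hGEc q (hP₁ q hq).2.1 ((le_max_left _ _).trans (hP₁ q hq).2.2)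
    ((le_max_right _ _).trans (hP₁ q hq).2.2)) B hB1
  have b₂ := h₂ GE (fun q hq => hGEc q (hP₂ q hq).2.1
    ((le_max_left _ _).trans ((le_max_left _ _).trans (hP₂ q hq).2.2))
    ((le_max_right _ _).trans ((le_max_left _ _).trans (hP₂ q hq).2.2))) B hB2
  have b₃ := h₃ GT (by
    intro q hq
    haveI hF : Fact q.Prime := ⟨(hP₃ q hq).2.1⟩
    rw [hGT]
    dsimp only
    rw [dif_pos (hP₃ q hq).2.1]
    exact intLoc_density q (TT q) c hc (hTT q ((le_max_left _ _).trans (hP₃ q hq).2.2))) B hB3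
  have b₄ := h₄ B hB4
  -- the bad arrays
  set X₁ : Set (Idx m d → ℚ) := {v ∈ ratArr (Idx m d) B | ¬ ∃ q ∈ P₁, ndArr q v ∈ GE q} with hX₁
  set X₂ : Set (Idx m d → ℚ) := {v ∈ ratArr (Idx m d) B | ¬ ∃ q ∈ P₂, ndArr q v ∈ GE q} with hX₂
  set X₃ : Set (Idx m d → ℚ) := {v ∈ ratArr (Idx m d) B | ¬ ∃ q ∈ P₃, ndArr q v ∈ GT q} with hX₃
  set X₄ : Set (Idx m d → ℚ) := {v ∈ ratArr (Idx m d) B | eval v R = 0} with hX₄
  have hXfin : ((X₁ ∪ X₂) ∪ (X₃ ∪ X₄)).Finite := by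
    refine (ratArr_finite (J := Idx m d) B).subset ?_
    rintro v ((hv | hv) | (hv | hv)) <;> exact hv.1
  have hXcard : (((X₁ ∪ X₂) ∪ (X₃ ∪ X₄)).ncard : ℝ) ≤ ε * ((ratArr (Idx m d) B).ncard : ℝ) := by
    have e1 : ((X₁ ∪ X₂) ∪ (X₃ ∪ X₄)).ncard ≤ (X₁.ncard + X₂.ncard) + (X₃.ncard + X₄.ncard) :=
      (Set.ncard_union_le _ _).trans (Nat.add_le_add (Set.ncard_union_le _ _)
        (Set.ncard_union_le _ _))
    have e2 : (((X₁ ∪ X₂) ∪ (X₃ ∪ X₄)).ncard : ℝ) ≤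
        ((X₁.ncard : ℝ) + X₂.ncard) + ((X₃.ncard : ℝ) + X₄.ncard) := by exact_mod_cast e1
    linarith
  have h2 : (hbox m d B).ncard = (ratArr (Idx m d) B).ncard := by
    rw [hbox_eq m d B hB5]
    exact Set.ncard_image_of_injective _ (arrPoly_injective m d)
  -- the complement
  set G : Set (Fin (m + 1) → MvPolynomial (Fin (m + 1)) ℚ) :=
    {Φ ∈ hbox m d B | ThreeGood (P₁ ∪ P₂ ∪ P₃) BB TT R Φ} with hG
  have hcover : hbox m d B \ G ⊆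
      (fun (c : Idx m d → ℚ) => arrPoly c) '' ((X₁ ∪ X₂) ∪ (X₃ ∪ X₄)) := by
    rintro Φ ⟨hΦ, hΦG⟩
    have hΦ' := hΦ
    rw [hbox_eq m d B hB5] at hΦ'
    obtain ⟨v, hv, rfl⟩ := hΦ'
    refine ⟨v, ?_, rfl⟩
    by_contra hcon
    simp only [Set.mem_union, not_or] at hcon
    obtain ⟨⟨n₁, n₂⟩, n₃, n₄⟩ := hcon
    have g₁ : ∃ q ∈ P₁, ndArr q v ∈ GE q := by
      by_contra h
      exact n₁ ⟨hv, h⟩
    have g₂ : ∃ q ∈ P₂, ndArr q v ∈ GE q := by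
      by_contra h
      exact n₂ ⟨hv, h⟩
    have g₃ : ∃ q ∈ P₃, ndArr q v ∈ GT q := by
      by_contra h
      exact n₃ ⟨hv, h⟩
    have g₄ : eval v R ≠ 0 := fun h => n₄ ⟨hv, h⟩
    obtain ⟨p₁, hp₁, gp₁⟩ := g₁
    obtain ⟨p₂, hp₂, gp₂⟩ := g₂
    obtain ⟨l, hl, gl⟩ := g₃
    apply hΦG
    refine ⟨hΦ, ?_, p₁, ?_, p₂, ?_, l, ?_, ?_, ?_, ?_, ?_, ?_⟩
    · dsimp only
      have e1 : (fun k : Idx m d => coeff (k.2 : Fin (m + 1) →₀ ℕ) (arrPoly v k.1)) = v := by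
        funext k
        exact coeff_arrPoly v k.1 k.2
      rw [e1]
      exact g₄
    · exact Finset.mem_union_left _ (Finset.mem_union_left _ hp₁)
    · exact Finset.mem_union_left _ (Finset.mem_union_right _ hp₂)
    · exact Finset.mem_union_right _ hl
    · have h1 : p₁ ≤ P₁.sup id := Finset.le_sup (f := id) hp₁
      have h2 := (le_max_right _ _).trans (hP₂ p₂ hp₂).2.2
      omega
    · have h1 : p₂ ≤ P₂.sup id := Finset.le_sup (f := id) hp₂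
      have h2 := (le_max_right _ _).trans (hP₃ l hl).2.2
      omega
    · haveI hF : Fact p₁.Prime := ⟨(hP₁ p₁ hp₁).2.1⟩
      refine ⟨hF, pre_of_ratGood m d p₁ j₀ ⟨rfl, rfl⟩ (BB p₁) v ?_⟩
      apply ratGood_of_locGood
      rw [hGE] at gp₁
      dsimp only at gp₁
      rw [dif_pos (hP₁ p₁ hp₁).2.1, Finset.mem_filter] at gp₁
      exact gp₁.2
    · haveI hF : Fact p₂.Prime := ⟨(hP₂ p₂ hp₂).2.1⟩
      refine ⟨hF, pre_of_ratGood m d p₂ j₀ ⟨rfl, rfl⟩ (BB p₂) v ?_⟩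
      apply ratGood_of_locGood
      rw [hGE] at gp₂
      dsimp only at gp₂
      rw [dif_pos (hP₂ p₂ hp₂).2.1, Finset.mem_filter] at gp₂
      exact gp₂.2
    · haveI hF : Fact l.Prime := ⟨(hP₃ l hl).2.1⟩
      refine ⟨hF, redAll_of_intGood m d l (TT l) v ?_⟩
      apply intGood_of_intLoc
      rw [hGT] at gl
      dsimp only at gl
      rw [dif_pos (hP₃ l hl).2.1, Finset.mem_filter] at gl
      exact gl.2
  have hbadle : ((hbox m d B \ G).ncard : ℝ) ≤ ε * ((hbox m d B).ncard : ℝ) := by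
    rw [h2]
    refine le_trans ?_ hXcard
    have e1 := Set.ncard_le_ncard hcover (hXfin.image _)
    have e2 := Set.ncard_image_le (f := fun (c : Idx m d → ℚ) => arrPoly c) hXfin
    exact_mod_cast e1.trans e2
  have hsum : (hbox m d B \ G).ncard + G.ncard = (hbox m d B).ncard :=
    Set.ncard_sdiff_add_ncard_of_subset (fun Φ hΦ => hΦ.1) hfin
  have hsum' : ((hbox m d B \ G).ncard : ℝ) + (G.ncard : ℝ) = ((hbox m d B).ncard : ℝ) := by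
    exact_mod_cast hsum
  linarith

end Pool.Agent.Helper87.MQ
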