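import Pool.Agent.Helper87.MQ.Density

/-!
# Density: two primes with one denominator, a third prime of good reduction, and a nonzero polynomial
-/

set_option autoImplicit false

namespace Pool.Agent.Helper87.MQ

open Finset

section

variable {J : Type} [Fintype J] [DecidableEq J]

/-- Residues modulo `q²` of the numerators and denominators. -/
def ndArr (q : ℕ) (v : J → ℚ) : J → ZMod (q ^ 2) × ZMod (q ^ 2) :=
  fun j => (((nd (v j)).1 : ZMod (q ^ 2)), ((nd (v j)).2 : ZMod (q ^ 2)))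

/-- The general density theorem for arrays of rational numbers, with the number of exceptions. -/
theorem rat_density_gen (c : ℝ) (hc : 0 < c)
    (Pri : Set ℕ) (hdiv : ¬ Summable (fun q : Pri => (1 : ℝ) / (q : ℕ))) (hPri : ∀ q ∈ Pri, q.Prime)
    (M₀ : ℕ) (ε : ℝ) (hε : 0 < ε) :
    ∃ (P : Finset ℕ) (K : ℕ), (∀ q ∈ P, q ∈ Pri ∧ q.Prime ∧ M₀ ≤ q) ∧
      ∀ GE : ∀ q : ℕ, Finset (J → ZMod (q ^ 2) × ZMod (q ^ 2)),
        (∀ q ∈ P, c / q * ((q : ℝ) ^ 4) ^ Fintype.card J ≤ (GE q).card) →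
      ∀ B : ℕ, K ≤ B →
        (({v ∈ ratArr J B | ¬ ∃ q ∈ P, ndArr q v ∈ GE q} : Set (J → ℚ)).ncard : ℝ) ≤
          ε * ((ratArr J B).ncard : ℝ) := by
  classical
  set n := Fintype.card J with hn
  obtain ⟨P, K, hP, h⟩ := arrays_density J c hc Pri hdiv hPri M₀ (ε / 12 ^ n) (by positivity)
  refine ⟨P, K, hP, ?_⟩
  intro GE hGE B hB
  have h1 := h GE hGE B hB
  set good : Set (J → ℤ × ℤ) := {v : J → ℤ × ℤ | (∀ j, v j ∈ pairBox B) ∧ ∃ q ∈ P,
          (fun j => (((v j).1 : ZMod (q ^ 2)), ((v j).2 : ZMod (q ^ 2)))) ∈ GE q} with hgood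
  set box : Finset (J → ℤ × ℤ) := Fintype.piFinset (fun _ : J => pairBox B) with hbox
  have hboxcard : box.card = (pairBox B).card ^ n := by
    rw [hbox, Fintype.card_piFinset, Finset.prod_const, Finset.card_univ]
  have hgsub : good ⊆ (box : Set (J → ℤ × ℤ)) := by
    intro v hv
    rw [Finset.mem_coe, hbox, Fintype.mem_piFinset]
    exact hv.1
  have hbad1 : ((box : Set (J → ℤ × ℤ)) \ good).ncard + good.ncard = box.card := by
    have := Set.ncard_sdiff_add_ncard_of_subset hgsub (Finset.finite_toSet box)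
    rwa [Set.ncard_coe_finset] at this
  have hbad3 : ({v ∈ ratArr J B | ¬ ∃ q ∈ P, ndArr q v ∈ GE q} : Set (J → ℚ)).ncard ≤
      ((box : Set (J → ℤ × ℤ)) \ good).ncard := by
    refine Set.ncard_le_ncard_of_injOn (fun v j => nd (v j)) ?_ ?_
      ((Finset.finite_toSet box).subset Set.sdiff_subset)
    · rintro v ⟨hv1, hv2⟩
      refine ⟨?_, ?_⟩
      · rw [Finset.mem_coe, hbox, Fintype.mem_piFinset]
        intro j
        rw [nd_mem]
        exact hv1 j
      · rintro ⟨_, q, hq, hv3⟩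
        exact hv2 ⟨q, hq, hv3⟩
    · intro v _ v' _ hvv
      funext j
      exact nd_injective (congrFun hvv j)
  have h12 : ((pairBox B).card : ℝ) ^ n ≤ 12 ^ n * ((ratArr J B).ncard : ℝ) := by
    rw [ncard_ratArr, ← hn]
    push_cast
    rw [← mul_pow]
    apply pow_le_pow_left₀ (Nat.cast_nonneg _)
    exact_mod_cast card_ratFin B
  have e1 : (((box : Set (J → ℤ × ℤ)) \ good).ncard : ℝ) + (good.ncard : ℝ) =
      ((pairBox B).card : ℝ) ^ n := by
    rw [hboxcard] at hbad1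
    exact_mod_cast hbad1
  have e3 : (({v ∈ ratArr J B | ¬ ∃ q ∈ P, ndArr q v ∈ GE q} : Set (J → ℚ)).ncard : ℝ) ≤
      (((box : Set (J → ℤ × ℤ)) \ good).ncard : ℝ) := by exact_mod_cast hbad3
  have e4 : (((box : Set (J → ℤ × ℤ)) \ good).ncard : ℝ) ≤
      ε / 12 ^ n * ((pairBox B).card : ℝ) ^ n := by linarith
  have e5 : ε / 12 ^ n * ((pairBox B).card : ℝ) ^ n ≤ ε * ((ratArr J B).ncard : ℝ) := by
    rw [div_mul_eq_mul_div, div_le_iff₀ (by positivity)]
    nlinarith
  linarith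

/-- The local condition of good reduction with residues in a given set. -/
def IntGood (q : ℕ) (TT : Finset (J → ZMod q)) (v : J → ℚ) : Prop :=
  (∀ j, ¬ q ∣ (v j).den) ∧
    ∃ c ∈ TT, ∀ j, c j * ((v j).den : ZMod q) = ((v j).num : ZMod q)

/-- The same condition for the residues modulo `q²`. -/
def IntLoc (q : ℕ) (TT : Finset (J → ZMod q)) (w : J → ZMod (q ^ 2) × ZMod (q ^ 2)) : Prop :=
  (∀ j, red2 q (w j).2 ≠ 0) ∧ ∃ c ∈ TT, ∀ j, c j * red2 q (w j).2 = red2 q (w j).1

omit [Fintype J] [DecidableEq J] in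
theorem intGood_of_intLoc (q : ℕ) (TT : Finset (J → ZMod q)) (v : J → ℚ)
    (h : IntLoc q TT (ndArr q v)) : IntGood q TT v := by
  obtain ⟨h1, c, hc, h5⟩ := h
  simp only [ndArr, nd, red2_intCast] at h1 h5
  refine ⟨?_, c, hc, ?_⟩
  · intro j
    have := h1 j
    rwa [Ne, Int.cast_natCast, ZMod.natCast_eq_zero_iff] at this
  · intro j
    have := h5 j
    rwa [Int.cast_natCast] at this

theorem card_intLoc (q : ℕ) [hq : Fact q.Prime] (TT : Finset (J → ZMod q))
    [DecidablePred (IntLoc q TT)] :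
    TT.card * ((q - 1) * (q * q)) ^ Fintype.card J ≤
      (Finset.univ.filter (IntLoc q TT)).card := by
  classical
  have hsub : TT.biUnion (fun c => Fintype.piFinset (fun j => ratioSet q (c j))) ⊆
      Finset.univ.filter (IntLoc q TT) := by
    intro w hw
    rw [Finset.mem_biUnion] at hw
    obtain ⟨c, hc, hw⟩ := hw
    rw [Fintype.mem_piFinset] at hw
    rw [Finset.mem_filter]
    refine ⟨Finset.mem_univ _, ?_⟩
    have hj : ∀ j, ∃ t : ZMod q × ZMod q × ZMod q, t.1 ≠ 0 ∧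
        w j = (enc q (c j * t.1) t.2.1, enc q t.1 t.2.2) := by
      intro j
      have h1 := hw j
      rw [ratioSet, Finset.mem_image] at h1
      obtain ⟨t, ht, h1⟩ := h1
      rw [Finset.mem_product, Finset.mem_filter] at ht
      exact ⟨t, ht.1.2, h1.symm⟩
    refine ⟨?_, c, hc, ?_⟩
    · intro j
      obtain ⟨t, ht, h1⟩ := hj j
      rw [h1]
      dsimp only
      rw [red2_enc]
      exact ht
    · intro j
      obtain ⟨t, ht, h1⟩ := hj j
      rw [h1]
      dsimp only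
      rw [red2_enc, red2_enc]
  have hdisj : ∀ c ∈ TT, ∀ c' ∈ TT, c ≠ c' →
      Disjoint (Fintype.piFinset (fun j => ratioSet q (c j)))
        (Fintype.piFinset (fun j => ratioSet q (c' j))) := by
    intro c _ c' _ hne
    rw [Finset.disjoint_left]
    intro w hw hw'
    apply hne
    rw [Fintype.mem_piFinset] at hw hw'
    funext j
    have h1 := hw j
    have h2 := hw' j
    rw [ratioSet, Finset.mem_image] at h1 h2
    obtain ⟨t, ht, h1⟩ := h1
    obtain ⟨t', _, h2⟩ := h2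
    rw [Finset.mem_product, Finset.mem_filter] at ht
    rw [← h2, Prod.ext_iff] at h1
    obtain ⟨h3, _⟩ := enc_injective q h1.1
    obtain ⟨h4, _⟩ := enc_injective q h1.2
    rw [h4] at h3
    have h5 : t'.1 ≠ 0 := by rw [← h4]; exact ht.1.2
    exact mul_right_cancel₀ h5 h3
  have hcard : (TT.biUnion (fun c => Fintype.piFinset (fun j => ratioSet q (c j)))).card =
      TT.card * ((q - 1) * (q * q)) ^ Fintype.card J := by
    rw [Finset.card_biUnion hdisj]
    have h1 : ∀ c ∈ TT, (Fintype.piFinset (fun j => ratioSet q (c j))).card =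
        ((q - 1) * (q * q)) ^ Fintype.card J := by
      intro c _
      rw [Fintype.card_piFinset, Finset.prod_congr rfl (g := fun _ => (q - 1) * (q * q)),
        Finset.prod_const, Finset.card_univ]
      intro j _
      exact card_ratioSet q (c j)
    rw [Finset.sum_congr rfl h1, Finset.sum_const, smul_eq_mul]
  rw [← hcard]
  exact Finset.card_le_card hsub

theorem intLoc_density (q : ℕ) [hq : Fact q.Prime] (TT : Finset (J → ZMod q))
    [DecidablePred (IntLoc q TT)] (c : ℝ) (hc : 0 < c)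
    (hTT : c * (q : ℝ) ^ Fintype.card J ≤ TT.card) :
    c * (1 / 2 : ℝ) ^ Fintype.card J / q * ((q : ℝ) ^ 4) ^ Fintype.card J ≤
      ((Finset.univ.filter (IntLoc q TT)).card : ℝ) := by
  set n := Fintype.card J with hn
  have h1 := card_intLoc q TT
  rw [← hn] at h1
  have hq2 : 2 ≤ q := hq.out.two_le
  have hqR : (2 : ℝ) ≤ q := by exact_mod_cast hq2
  have hq1 : (q : ℝ) / 2 ≤ ((q - 1 : ℕ) : ℝ) := by
    rw [Nat.cast_sub (by omega)]
    push_cast
    linarith
  have h2 : c * (q : ℝ) ^ n * ((q : ℝ) / 2 * (q * q)) ^ n ≤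
      ((TT.card * ((q - 1) * (q * q)) ^ n : ℕ) : ℝ) := by
    rw [Nat.cast_mul, Nat.cast_pow, Nat.cast_mul, Nat.cast_mul]
    gcongr
  have h3 : c * (1 / 2 : ℝ) ^ n * ((q : ℝ) ^ 4) ^ n =
      c * (q : ℝ) ^ n * ((q : ℝ) / 2 * (q * q)) ^ n := by
    have : ((q : ℝ) ^ 4) ^ n * (1 / 2 : ℝ) ^ n = (q : ℝ) ^ n * ((q : ℝ) / 2 * (q * q)) ^ n := by
      rw [← mul_pow, ← mul_pow]
      congr 1
      ring
    calc c * (1 / 2 : ℝ) ^ n * ((q : ℝ) ^ 4) ^ n = c * (((q : ℝ) ^ 4) ^ n * (1 / 2 : ℝ) ^ n) := by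
          ring
      _ = _ := by rw [this]; ring
  have h4 : c * (1 / 2 : ℝ) ^ n / q * ((q : ℝ) ^ 4) ^ n ≤
      c * (1 / 2 : ℝ) ^ n * ((q : ℝ) ^ 4) ^ n := by
    apply mul_le_mul_of_nonneg_right _ (by positivity)
    apply div_le_self (by positivity)
    linarith
  calc c * (1 / 2 : ℝ) ^ n / q * ((q : ℝ) ^ 4) ^ n ≤ c * (1 / 2 : ℝ) ^ n * ((q : ℝ) ^ 4) ^ n := h4
    _ = c * (q : ℝ) ^ n * ((q : ℝ) / 2 * (q * q)) ^ n := h3
    _ ≤ ((TT.card * ((q - 1) * (q * q)) ^ n : ℕ) : ℝ) := h2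
    _ ≤ _ := by exact_mod_cast h1

/-- Few arrays are zeros of a given nonzero polynomial. -/
theorem zero_density (R : MvPolynomial J ℚ) (hR : R ≠ 0) (ε : ℝ) (hε : 0 < ε) :
    ∃ K : ℕ, ∀ B : ℕ, K ≤ B →
      (({v ∈ ratArr J B | MvPolynomial.eval v R = 0} : Set (J → ℚ)).ncard : ℝ) ≤
        ε * ((ratArr J B).ncard : ℝ) := by
  classical
  set n := Fintype.card J with hn
  set e := Fintype.equivFin J with he
  set R' : MvPolynomial (Fin n) ℚ := MvPolynomial.rename e R with hR'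
  have hR0 : R' ≠ 0 := by
    intro h
    apply hR
    exact MvPolynomial.rename_injective _ e.injective (by rw [← hR', h, map_zero])
  refine ⟨max 1 ⌈(12 * R'.totalDegree : ℝ) / ε⌉₊, fun B hB => ?_⟩
  have hB1 : 1 ≤ B := (le_max_left _ _).trans hB
  have hB2 : (12 * R'.totalDegree : ℝ) / ε ≤ B :=
    (Nat.le_ceil _).trans (by exact_mod_cast (le_max_right _ _).trans hB)
  have hcardB : B ≤ 12 * (ratFin B).card := by
    have h1 := card_ratFin B
    rw [card_pairBox] at h1
    nlinarith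
  have hpos : 0 < (ratFin B).card := by omega
  have h1 := MvPolynomial.schwartz_zippel_totalDegree hR0 (ratFin B)
  have hle : ({v ∈ ratArr J B | MvPolynomial.eval v R = 0} : Set (J → ℚ)).ncard ≤
      ((Fintype.piFinset fun _ : Fin n => ratFin B).filter
        (fun f => MvPolynomial.eval f R' = 0)).card := by
    rw [← Set.ncard_coe_finset]
    refine Set.ncard_le_ncard_of_injOn (fun v => v ∘ e.symm) ?_ ?_ (Finset.finite_toSet _)
    · rintro v ⟨hv1, hv2⟩
      rw [Finset.mem_coe, Finset.mem_filter, Fintype.mem_piFinset]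
      refine ⟨fun i => (mem_ratFin B _).2 (hv1 _), ?_⟩
      rw [hR', MvPolynomial.eval_rename]
      have : (v ∘ ⇑e.symm) ∘ ⇑e = v := by
        funext j
        simp
      rw [this]
      exact hv2
    · intro v _ v' _ h
      funext j
      have := congrFun h (e j)
      simpa using this
  have h2 : ((((Fintype.piFinset fun _ : Fin n => ratFin B).filter
      (fun f => MvPolynomial.eval f R' = 0)).card : ℚ≥0) / ((ratFin B).card : ℚ≥0) ^ n : ℝ) ≤
      ((R'.totalDegree : ℚ≥0) / ((ratFin B).card : ℚ≥0) : ℝ) := by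
    exact_mod_cast h1
  push_cast at h2
  have hc : (0 : ℝ) < ((ratFin B).card : ℝ) := by exact_mod_cast hpos
  rw [div_le_div_iff₀ (by positivity) hc] at h2
  rw [ncard_ratArr, ← hn]
  push_cast
  have h3 : (({v ∈ ratArr J B | MvPolynomial.eval v R = 0} : Set (J → ℚ)).ncard : ℝ) ≤
      (((Fintype.piFinset fun _ : Fin n => ratFin B).filter
        (fun f => MvPolynomial.eval f R' = 0)).card : ℝ) := by exact_mod_cast hle
  have h4 : (R'.totalDegree : ℝ) ≤ ε * ((ratFin B).card : ℝ) := by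
    rw [div_le_iff₀ hε] at hB2
    have h5 : (B : ℝ) ≤ 12 * ((ratFin B).card : ℝ) := by exact_mod_cast hcardB
    nlinarith
  have h5 : (((Fintype.piFinset fun _ : Fin n => ratFin B).filter
        (fun f => MvPolynomial.eval f R' = 0)).card : ℝ) * ((ratFin B).card : ℝ) ≤
        ε * ((ratFin B).card : ℝ) ^ n * ((ratFin B).card : ℝ) := by
    refine h2.trans ?_
    calc (R'.totalDegree : ℝ) * ((ratFin B).card : ℝ) ^ n
        ≤ ε * ((ratFin B).card : ℝ) * ((ratFin B).card : ℝ) ^ n :=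
          mul_le_mul_of_nonneg_right h4 (by positivity)
      _ = _ := by ring
  exact h3.trans (le_of_mul_le_mul_right h5 hc)

end

end Pool.Agent.Helper87.MQ
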