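import Pool.Agent.Helper87.MQ.Two

/-!
# Density for maps: two primes with one denominator, at two given coefficients
-/

set_option autoImplicit false

namespace Pool.Agent.Helper87.MQ

open MvPolynomial
open Pool.Agent.Helper86.MQ (Idx Pre Red)
open Pool.Agent.Helper26.MQ (arrPoly coeff_arrPoly coeff_arrPoly_of_gt arrPoly_coeff)

/-- `Φ` has degree at most `d`, and all coefficients are `p`-integral, except for the one with index
`j`, which has valuation `-1`. -/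
structure PreAt (p : ℕ) [Fact p.Prime] (m d : ℕ) (j : Idx m d)
    (Φ : Fin (m + 1) → MvPolynomial (Fin (m + 1)) ℚ_[p]) : Prop where
  deg : ∀ i, (Φ i).totalDegree ≤ d
  one : ‖coeff j.2.1 (Φ j.1)‖ = (p : ℝ)
  int : ∀ i s, ¬ (i = j.1 ∧ s = j.2.1) → ‖coeff s (Φ i)‖ ≤ 1

/-- The coefficients modulo `p`, with the exception of the one with index `j`. -/
def RedAt {p : ℕ} [Fact p.Prime] {m d : ℕ} (j : Idx m d)
    (Φ : Fin (m + 1) → MvPolynomial (Fin (m + 1)) ℚ_[p]) (c : Idx m d → ZMod p) : Prop :=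
  ∀ k : Idx m d, k ≠ j → ∃ z : ℤ_[p], (z : ℚ_[p]) = coeff k.2.1 (Φ k.1) ∧ PadicInt.toZMod z = c k

theorem preAt_of_ratGood (m d q : ℕ) [hq : Fact q.Prime] (j : Idx m d)
    (BB : Finset (Idx m d → ZMod q)) (v : Idx m d → ℚ) (h : RatGood q j BB v) :
    ∃ c, c ∉ BB ∧ PreAt q m d j (toQp q (arrPoly v)) ∧ RedAt j (toQp q (arrPoly v)) c := by
  obtain ⟨h1, h2, h3, h4, c, hc, h5⟩ := h
  have hcoef : ∀ k : Idx m d, coeff (k.2 : Fin (m + 1) →₀ ℕ) (toQp q (arrPoly v) k.1) =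
      ((v k : ℚ) : ℚ_[q]) := by
    intro k
    rw [toQp, coeff_map, coeff_arrPoly]
    exact eq_ratCast (algebraMap ℚ ℚ_[q]) (v k)
  refine ⟨c, hc, ⟨?_, ?_, ?_⟩, ?_⟩
  · intro i
    apply totalDegree_le_of_coeff
    intro s hs
    rw [toQp, coeff_map, coeff_arrPoly_of_gt v i hs, map_zero]
  · rw [hcoef j]
    exact norm_pole q _ h1 h2 h3
  · intro i s hs
    by_cases hsd : s.degree ≤ d
    · have := hcoef (i, ⟨s, hsd⟩)
      dsimp only at this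
      rw [this]
      refine Padic.norm_rat_le_one (h4 _ ?_)
      intro h
      apply hs
      rw [← h]
      exact ⟨rfl, rfl⟩
    · rw [toQp, coeff_map, coeff_arrPoly_of_gt v i hsd, map_zero, norm_zero]
      exact zero_le_one
  · intro k hk
    rw [hcoef k]
    exact red_lift q (v k) (h4 k hk) (c k) (h5 k hk)

/-- The conclusion of the density theorem for a map. -/
def TwoGood {m d : ℕ} (P : Finset ℕ) (j₀ j₁ : Idx m d)
    (BB₀ BB₁ : ∀ (q : ℕ) [Fact q.Prime], Finset (Idx m d → ZMod q))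
    (R : MvPolynomial (Idx m d) ℚ) (Φ : Fin (m + 1) → MvPolynomial (Fin (m + 1)) ℚ) : Prop :=
  eval (fun k : Idx m d => coeff (k.2 : Fin (m + 1) →₀ ℕ) (Φ k.1)) R ≠ 0 ∧
  (∃ q ∈ P, ∃ _ : Fact q.Prime, ∃ c, c ∉ BB₀ q ∧ PreAt q m d j₀ (toQp q Φ) ∧
    RedAt j₀ (toQp q Φ) c) ∧
  (∃ q ∈ P, ∃ _ : Fact q.Prime, ∃ c, c ∉ BB₁ q ∧ PreAt q m d j₁ (toQp q Φ) ∧
    RedAt j₁ (toQp q Φ) c)

/-- **Density with two types of primes and a nonzero polynomial.** -/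
theorem map_density3 (m d C : ℕ) (j₀ j₁ : Idx m d)
    (Pri : Set ℕ) (hdiv : ¬ Summable (fun q : Pri => (1 : ℝ) / (q : ℕ))) (hPri : ∀ q ∈ Pri, q.Prime)
    (M₀ : ℕ) (R : MvPolynomial (Idx m d) ℚ) (hR : R ≠ 0) (ε : ℝ) (hε : 0 < ε) :
    ∃ (P : Finset ℕ) (K : ℕ), (∀ q ∈ P, q ∈ Pri ∧ q.Prime ∧ M₀ ≤ q) ∧
      ∀ BB₀ : ∀ (q : ℕ) [Fact q.Prime], Finset (Idx m d → ZMod q),
        (∀ (q : ℕ) [Fact q.Prime], M₀ ≤ q →
          (BB₀ q).card * q ≤ C * q ^ Fintype.card (Idx m d)) →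
      ∀ BB₁ : ∀ (q : ℕ) [Fact q.Prime], Finset (Idx m d → ZMod q),
        (∀ (q : ℕ) [Fact q.Prime], M₀ ≤ q →
          (BB₁ q).card * q ≤ C * q ^ Fintype.card (Idx m d)) →
      ∀ B : ℕ, K ≤ B → (hbox m d B).Finite ∧
      (1 - ε) * ((hbox m d B).ncard : ℝ) ≤
        (({Φ ∈ hbox m d B | TwoGood P j₀ j₁ BB₀ BB₁ R Φ}).ncard : ℝ) := by
  classical
  set n := Fintype.card (Idx m d) with hn
  obtain ⟨P, K₁, hP, h₁⟩ := rat_density_gen (J := Idx m d) ((1 / 2 : ℝ) ^ (n + 2)) (by positivity)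
    Pri hdiv hPri (max M₀ (2 * C)) (ε / 3) (by positivity)
  obtain ⟨K₄, h₄⟩ := zero_density R hR (ε / 3) (by positivity)
  refine ⟨P, max K₁ (max K₄ 1), fun q hq => ⟨(hP q hq).1, (hP q hq).2.1,
    (le_max_left _ _).trans (hP q hq).2.2⟩, ?_⟩
  intro BB₀ hBB₀ BB₁ hBB₁ B hB
  have hB1 : K₁ ≤ B := (le_max_left _ _).trans hB
  have hB4 : K₄ ≤ B := (le_max_left _ _).trans ((le_max_right _ _).trans hB)
  have hB5 : 1 ≤ B := (le_max_right _ _).trans ((le_max_right _ _).trans hB)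
  have hfin : (hbox m d B).Finite := by
    rw [hbox_eq m d B hB5]
    exact (ratArr_finite B).image _
  refine ⟨hfin, ?_⟩
  have key : ∀ (j : Idx m d) (BB : ∀ (q : ℕ) [Fact q.Prime], Finset (Idx m d → ZMod q)),
      (∀ (q : ℕ) [Fact q.Prime], M₀ ≤ q → (BB q).card * q ≤ C * q ^ Fintype.card (Idx m d)) →
      (({v ∈ ratArr (Idx m d) B | ¬ ∃ q ∈ P, ∃ _ : Fact q.Prime, RatGood q j (BB q) v} :
        Set (Idx m d → ℚ)).ncard : ℝ) ≤ ε / 3 * ((ratArr (Idx m d) B).ncard : ℝ) := by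
    intro j BB hBB
    set GE : ∀ q : ℕ, Finset (Idx m d → ZMod (q ^ 2) × ZMod (q ^ 2)) := fun q =>
      if hq : q.Prime then
        haveI : Fact q.Prime := ⟨hq⟩
        Finset.univ.filter (LocGood q j (BB q)) else ∅ with hGE
    have b := h₁ GE (by
      intro q hq
      haveI hF : Fact q.Prime := ⟨(hP q hq).2.1⟩
      rw [hGE]
      dsimp only
      rw [dif_pos (hP q hq).2.1]
      exact locGood_density q j (BB q) C ((le_max_right _ _).trans (hP q hq).2.2)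
        (hBB q ((le_max_left _ _).trans (hP q hq).2.2))) B hB1
    refine le_trans ?_ b
    have hsub : {v ∈ ratArr (Idx m d) B | ¬ ∃ q ∈ P, ∃ _ : Fact q.Prime, RatGood q j (BB q) v} ⊆
        {v ∈ ratArr (Idx m d) B | ¬ ∃ q ∈ P, ndArr q v ∈ GE q} := by
      rintro v ⟨hv1, hv2⟩
      refine ⟨hv1, ?_⟩
      rintro ⟨q, hq, hv3⟩
      apply hv2
      haveI hF : Fact q.Prime := ⟨(hP q hq).2.1⟩
      refine ⟨q, hq, hF, ?_⟩
      apply ratGood_of_locGood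
      rw [hGE] at hv3
      dsimp only at hv3
      rw [dif_pos (hP q hq).2.1, Finset.mem_filter] at hv3
      exact hv3.2
    exact_mod_cast Set.ncard_le_ncard hsub ((ratArr_finite B).subset fun v hv => hv.1)
  have b₁ := key j₀ BB₀ hBB₀
  have b₂ := key j₁ BB₁ hBB₁
  have b₄ := h₄ B hB4
  set X₁ : Set (Idx m d → ℚ) :=
    {v ∈ ratArr (Idx m d) B | ¬ ∃ q ∈ P, ∃ _ : Fact q.Prime, RatGood q j₀ (BB₀ q) v} with hX₁
  set X₂ : Set (Idx m d → ℚ) :=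
    {v ∈ ratArr (Idx m d) B | ¬ ∃ q ∈ P, ∃ _ : Fact q.Prime, RatGood q j₁ (BB₁ q) v} with hX₂
  set X₄ : Set (Idx m d → ℚ) := {v ∈ ratArr (Idx m d) B | eval v R = 0} with hX₄
  have hXfin : ((X₁ ∪ X₂) ∪ X₄).Finite := by
    refine (ratArr_finite (J := Idx m d) B).subset ?_
    rintro v ((hv | hv) | hv) <;> exact hv.1
  have hXcard : (((X₁ ∪ X₂) ∪ X₄).ncard : ℝ) ≤ ε * ((ratArr (Idx m d) B).ncard : ℝ) := by
    have e1 : ((X₁ ∪ X₂) ∪ X₄).ncard ≤ (X₁.ncard + X₂.ncard) + X₄.ncard :=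
      (Set.ncard_union_le _ _).trans (Nat.add_le_add (Set.ncard_union_le _ _) le_rfl)
    have e2 : (((X₁ ∪ X₂) ∪ X₄).ncard : ℝ) ≤
        ((X₁.ncard : ℝ) + X₂.ncard) + (X₄.ncard : ℝ) := by exact_mod_cast e1
    linarith
  have h2 : (hbox m d B).ncard = (ratArr (Idx m d) B).ncard := by
    rw [hbox_eq m d B hB5]
    exact Set.ncard_image_of_injective _ (arrPoly_injective m d)
  set G : Set (Fin (m + 1) → MvPolynomial (Fin (m + 1)) ℚ) :=
    {Φ ∈ hbox m d B | TwoGood P j₀ j₁ BB₀ BB₁ R Φ} with hG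
  have hcover : hbox m d B \ G ⊆
      (fun (c : Idx m d → ℚ) => arrPoly c) '' ((X₁ ∪ X₂) ∪ X₄) := by
    rintro Φ ⟨hΦ, hΦG⟩
    have hΦ' := hΦ
    rw [hbox_eq m d B hB5] at hΦ'
    obtain ⟨v, hv, rfl⟩ := hΦ'
    refine ⟨v, ?_, rfl⟩
    by_contra hcon
    simp only [Set.mem_union, not_or] at hcon
    obtain ⟨⟨n₁, n₂⟩, n₄⟩ := hcon
    have g₁ : ∃ q ∈ P, ∃ _ : Fact q.Prime, RatGood q j₀ (BB₀ q) v := by
      by_contra h
      exact n₁ ⟨hv, h⟩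
    have g₂ : ∃ q ∈ P, ∃ _ : Fact q.Prime, RatGood q j₁ (BB₁ q) v := by
      by_contra h
      exact n₂ ⟨hv, h⟩
    have g₄ : eval v R ≠ 0 := fun h => n₄ ⟨hv, h⟩
    obtain ⟨p₁, hp₁, hF₁, gp₁⟩ := g₁
    obtain ⟨p₂, hp₂, hF₂, gp₂⟩ := g₂
    apply hΦG
    refine ⟨hΦ, ?_, ⟨p₁, hp₁, hF₁, preAt_of_ratGood m d p₁ j₀ (BB₀ p₁) v gp₁⟩,
      ⟨p₂, hp₂, hF₂, preAt_of_ratGood m d p₂ j₁ (BB₁ p₂) v gp₂⟩⟩
    dsimp only
    have e1 : (fun k : Idx m d => coeff (k.2 : Fin (m + 1) →₀ ℕ) (arrPoly v k.1)) = v := by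
      funext k
      exact coeff_arrPoly v k.1 k.2
    rw [e1]
    exact g₄
  have hbadle : ((hbox m d B \ G).ncard : ℝ) ≤ ε * ((hbox m d B).ncard : ℝ) := by
    rw [h2]
    refine le_trans ?_ hXcard
    have e1 := Set.ncard_le_ncard hcover (hXfin.image _)
    have e2 := Set.ncard_image_le (f := fun (c : Idx m d → ℚ) => arrPoly c) hXfin
    exact_mod_cast e1.trans e2
  have hsum : (hbox m d B \ G).ncard + G.ncard = (hbox m d B).ncard :=
    Set.ncard_sdiff_add_ncard_of_subset (fun Φ hΦ => hΦ.1) hfin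
  have hsum' : ((hbox m d B \ G).ncard : ℝ) + (G.ncard : ℝ) = ((hbox m d B).ncard : ℝ) := by
    exact_mod_cast hsum
  linarith

/-- For the index of `x₀ ^ d` in `Φ₀` this is the earlier condition. -/
theorem preAt_zero {p : ℕ} [Fact p.Prime] {m d : ℕ}
    {Φ : Fin (m + 1) → MvPolynomial (Fin (m + 1)) ℚ_[p]}
    (h : PreAt p m d (0, ⟨Finsupp.single 0 d, by simp⟩) Φ) : Pre p m d Φ :=
  ⟨h.deg, h.one, h.int⟩

theorem redAt_zero {p : ℕ} [Fact p.Prime] {m d : ℕ}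
    {Φ : Fin (m + 1) → MvPolynomial (Fin (m + 1)) ℚ_[p]} {c : Idx m d → ZMod p}
    (h : RedAt (0, ⟨Finsupp.single 0 d, by simp⟩) Φ c) : Red Φ c := by
  intro k hk
  apply h k
  rintro rfl
  exact hk ⟨rfl, rfl⟩

end Pool.Agent.Helper87.MQ
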